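import Mathlib
import Pool.Agent.R439.PLoc

/-!
# Congruences in `ℤ_(p)[√-2]`, realised inside `ℂ`
-/

set_option autoImplicit false

namespace Pool.Agent.L7h22.D8

open Finset Pool.Agent.R439.PL

/-- a square root of `-2` -/
noncomputable def s : ℂ := Complex.I * ((Real.sqrt 2 : ℝ) : ℂ)

theorem s_sq : s ^ 2 = -2 := by
  unfold s
  rw [mul_pow, Complex.I_sq, ← Complex.ofReal_pow, Real.sq_sqrt (by norm_num)]
  norm_num

theorem s_re : s.re = 0 := by simp [s]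

theorem s_im : s.im = Real.sqrt 2 := by simp [s]

theorem conj_s : (starRingEnd ℂ) s = -s := by
  apply Complex.ext
  · simp [s_re]
  · simp [s_im]

theorem rat_s {a b : ℚ} (h : (a : ℂ) + b * s = 0) : a = 0 ∧ b = 0 := by
  have h1 := congrArg Complex.re h
  have h2 := congrArg Complex.im h
  have e1 : ((a : ℂ)).re = a := by simp
  have e2 : ((a : ℂ)).im = 0 := by simp
  have e3 : ((b : ℂ)).re = b := by simp
  have e4 : ((b : ℂ)).im = 0 := by simp
  rw [Complex.add_re, Complex.mul_re, s_re, s_im, e1, e3, e4] at h1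
  rw [Complex.add_im, Complex.mul_im, s_re, s_im, e2, e3, e4] at h2
  simp at h1 h2
  exact ⟨h1, h2⟩

variable {p : ℕ} [hp : Fact p.Prime]

/-- `ℤ_(p)[√-2]` -/
def OO (p : ℕ) [hp : Fact p.Prime] : Subring ℂ where
  carrier := {x | ∃ a ∈ Zp p, ∃ b ∈ Zp p, x = (a : ℂ) + b * s}
  mul_mem' := by
    rintro x y ⟨a, ha, b, hb, rfl⟩ ⟨c, hc, d, hd, rfl⟩
    refine ⟨a * c - 2 * (b * d), ?_, a * d + b * c, add_mem (mul_mem ha hd) (mul_mem hb hc), ?_⟩
    · refine sub_mem (mul_mem ha hc) (mul_mem ?_ (mul_mem hb hd))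
      have := nat_mem (p := p) 2
      exact_mod_cast this
    · push_cast
      linear_combination ((b : ℂ) * d) * s_sq
  one_mem' := ⟨1, one_mem _, 0, zero_mem _, by push_cast; ring⟩
  add_mem' := by
    rintro x y ⟨a, ha, b, hb, rfl⟩ ⟨c, hc, d, hd, rfl⟩
    exact ⟨a + c, add_mem ha hc, b + d, add_mem hb hd, by push_cast; ring⟩
  zero_mem' := ⟨0, zero_mem _, 0, zero_mem _, by push_cast; ring⟩
  neg_mem' := by
    rintro x ⟨a, ha, b, hb, rfl⟩
    exact ⟨-a, neg_mem ha, -b, neg_mem hb, by push_cast; ring⟩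

theorem q_mem {a : ℚ} (ha : a ∈ Zp p) : (a : ℂ) ∈ OO p := ⟨a, ha, 0, zero_mem _, by push_cast; ring⟩

theorem s_mem : s ∈ OO p := ⟨0, zero_mem _, 1, one_mem _, by push_cast; ring⟩

theorem n_mem (a : ℕ) : (a : ℂ) ∈ OO p := natCast_mem _ a

theorem z_mem (a : ℤ) : (a : ℂ) ∈ OO p := intCast_mem _ a

theorem conj_mem {x : ℂ} (hx : x ∈ OO p) : (starRingEnd ℂ) x ∈ OO p := by
  obtain ⟨a, ha, b, hb, rfl⟩ := hx
  refine ⟨a, ha, -b, neg_mem hb, ?_⟩
  rw [map_add, map_mul, conj_s, map_ratCast, map_ratCast]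
  push_cast
  ring

theorem pc_ne : (p : ℂ) ≠ 0 := by exact_mod_cast hp.out.ne_zero

/-- `x` is divisible by `p^k` in `OO` -/
def J (p : ℕ) [Fact p.Prime] (k : ℕ) (x : ℂ) : Prop := ∃ y ∈ OO p, x = (p : ℂ) ^ k * y

variable {k l : ℕ} {x y z : ℂ}

theorem J.zero : J p k 0 := ⟨0, zero_mem _, by ring⟩

theorem J.add (hx : J p k x) (hy : J p k y) : J p k (x + y) := by
  obtain ⟨a, ha, rfl⟩ := hx
  obtain ⟨b, hb, rfl⟩ := hy
  exact ⟨a + b, add_mem ha hb, by ring⟩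

theorem J.neg (hx : J p k x) : J p k (-x) := by
  obtain ⟨a, ha, rfl⟩ := hx
  exact ⟨-a, neg_mem ha, by ring⟩

theorem J.sub (hx : J p k x) (hy : J p k y) : J p k (x - y) := by
  rw [sub_eq_add_neg]; exact hx.add hy.neg

theorem J.mul (hx : J p k x) (hy : J p l y) : J p (k + l) (x * y) := by
  obtain ⟨a, ha, rfl⟩ := hx
  obtain ⟨b, hb, rfl⟩ := hy
  exact ⟨a * b, mul_mem ha hb, by ring⟩

theorem J.mulL (hx : x ∈ OO p) (hy : J p k y) : J p k (x * y) := by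
  obtain ⟨b, hb, rfl⟩ := hy
  exact ⟨x * b, mul_mem hx hb, by ring⟩

theorem J.mulR (hx : J p k x) (hy : y ∈ OO p) : J p k (x * y) := by
  rw [mul_comm]; exact hx.mulL hy

theorem pc_mem : (p : ℂ) ∈ OO p := n_mem p

theorem J.mono (h : l ≤ k) (hx : J p k x) : J p l x := by
  obtain ⟨a, ha, rfl⟩ := hx
  refine ⟨(p : ℂ) ^ (k - l) * a, mul_mem (pow_mem pc_mem _) ha, ?_⟩
  rw [← mul_assoc, ← pow_add, Nat.add_sub_cancel' h]

theorem J_zero_iff : J p 0 x ↔ x ∈ OO p := by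
  constructor
  · rintro ⟨a, ha, rfl⟩; simpa using ha
  · intro h; exact ⟨x, h, by ring⟩

theorem J.mem (hx : J p k x) : x ∈ OO p := J_zero_iff.1 (hx.mono (Nat.zero_le _))

theorem J.sum {ι : Type*} {t : Finset ι} {f : ι → ℂ} (h : ∀ i ∈ t, J p k (f i)) :
    J p k (∑ i ∈ t, f i) := by
  classical
  induction t using Finset.induction_on with
  | empty => simpa using J.zero
  | insert a s ha ih =>
    rw [sum_insert ha]
    exact (h a (mem_insert_self _ _)).add (ih fun i hi => h i (mem_insert_of_mem hi))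

theorem J_p : J p 1 (p : ℂ) := ⟨1, one_mem _, by ring⟩

theorem J_p_mul (h : J p k x) : J p (k + 1) ((p : ℂ) * x) := by
  have := (J_p (p := p)).mul h
  rwa [add_comm] at this

theorem J_of_p_mul (h : J p (k + 1) ((p : ℂ) * x)) : J p k x := by
  obtain ⟨a, ha, h⟩ := h
  refine ⟨a, ha, ?_⟩
  apply mul_left_cancel₀ (pc_ne (p := p))
  rw [h]; ring

theorem J_of_I {a : ℚ} (h : I p k a) : J p k (a : ℂ) := by
  obtain ⟨b, hb, rfl⟩ := h
  exact ⟨b, q_mem hb, by push_cast; ring⟩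

theorem I_of_J {a : ℚ} (h : J p k (a : ℂ)) : I p k a := by
  obtain ⟨y, ⟨b, hb, c, hc, rfl⟩, h⟩ := h
  have h2 := rat_s (a := a - (p : ℚ) ^ k * b) (b := -((p : ℚ) ^ k * c)) (by
    push_cast
    linear_combination h)
  exact ⟨b, hb, by linear_combination h2.1⟩

theorem J.conj (h : J p k x) : J p k ((starRingEnd ℂ) x) := by
  obtain ⟨a, ha, rfl⟩ := h
  refine ⟨(starRingEnd ℂ) a, conj_mem ha, ?_⟩
  rw [map_mul, map_pow, map_natCast]

/-- congruence in `OO` -/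
def EJ (p : ℕ) [Fact p.Prime] (k : ℕ) (x y : ℂ) : Prop := x ∈ OO p ∧ y ∈ OO p ∧ J p k (x - y)

theorem EJ.refl (hx : x ∈ OO p) : EJ p k x x := ⟨hx, hx, by rw [sub_self]; exact J.zero⟩

theorem EJ.symm (h : EJ p k x y) : EJ p k y x :=
  ⟨h.2.1, h.1, by rw [← neg_sub]; exact h.2.2.neg⟩

theorem EJ.trans (h : EJ p k x y) (h' : EJ p k y z) : EJ p k x z :=
  ⟨h.1, h'.2.1, by
    have : x - z = (x - y) + (y - z) := by ring
    rw [this]; exact h.2.2.add h'.2.2⟩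

theorem EJ.mono (hl : l ≤ k) (h : EJ p k x y) : EJ p l x y := ⟨h.1, h.2.1, h.2.2.mono hl⟩

variable {x' y' : ℂ}

theorem EJ.add (h : EJ p k x x') (h' : EJ p k y y') : EJ p k (x + y) (x' + y') :=
  ⟨add_mem h.1 h'.1, add_mem h.2.1 h'.2.1, by
    have : x + y - (x' + y') = (x - x') + (y - y') := by ring
    rw [this]; exact h.2.2.add h'.2.2⟩

theorem EJ.neg (h : EJ p k x x') : EJ p k (-x) (-x') :=
  ⟨neg_mem h.1, neg_mem h.2.1, by
    have : -x - -x' = -(x - x') := by ring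
    rw [this]; exact h.2.2.neg⟩

theorem EJ.sub (h : EJ p k x x') (h' : EJ p k y y') : EJ p k (x - y) (x' - y') := by
  rw [sub_eq_add_neg, sub_eq_add_neg]; exact h.add h'.neg

theorem EJ.mul (h : EJ p k x x') (h' : EJ p k y y') : EJ p k (x * y) (x' * y') :=
  ⟨mul_mem h.1 h'.1, mul_mem h.2.1 h'.2.1, by
    have : x * y - x' * y' = x * (y - y') + (x - x') * y' := by ring
    rw [this]; exact (h'.2.2.mulL h.1).add (h.2.2.mulR h'.2.1)⟩

theorem EJ.pow (h : EJ p k x y) (l : ℕ) : EJ p k (x ^ l) (y ^ l) := by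
  induction l with
  | zero => rw [pow_zero, pow_zero]; exact EJ.refl (one_mem _)
  | succ l ih => rw [pow_succ, pow_succ]; exact ih.mul h

theorem EJ.sum {ι : Type*} {t : Finset ι} {f g : ι → ℂ} (h : ∀ i ∈ t, EJ p k (f i) (g i)) :
    EJ p k (∑ i ∈ t, f i) (∑ i ∈ t, g i) := by
  classical
  induction t using Finset.induction_on with
  | empty => simpa using EJ.refl (zero_mem (OO p))
  | insert a s ha ih =>
    rw [sum_insert ha, sum_insert ha]
    exact (h a (mem_insert_self _ _)).add (ih fun i hi => h i (mem_insert_of_mem hi))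

theorem EJ_of_EQ {a b : ℚ} (h : EQ p k a b) : EJ p k (a : ℂ) (b : ℂ) :=
  ⟨q_mem h.1, q_mem h.2.1, by
    have := J_of_I h.2.2
    push_cast at this
    exact this⟩

theorem EQ_of_EJ {a b : ℚ} (ha : a ∈ Zp p) (hb : b ∈ Zp p) (h : EJ p k (a : ℂ) (b : ℂ)) :
    EQ p k a b := ⟨ha, hb, I_of_J (by push_cast; exact h.2.2)⟩

theorem EJ.conj (h : EJ p k x y) : EJ p k ((starRingEnd ℂ) x) ((starRingEnd ℂ) y) :=
  ⟨conj_mem h.1, conj_mem h.2.1, by rw [← map_sub]; exact h.2.2.conj⟩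

/-- `x` is a unit of `OO` -/
def V (p : ℕ) [Fact p.Prime] (x : ℂ) : Prop := x ≠ 0 ∧ x ∈ OO p ∧ x⁻¹ ∈ OO p

theorem V.one : V p 1 := ⟨one_ne_zero, one_mem _, by rw [inv_one]; exact one_mem _⟩

theorem V.mul (hx : V p x) (hy : V p y) : V p (x * y) :=
  ⟨mul_ne_zero hx.1 hy.1, mul_mem hx.2.1 hy.2.1, by rw [mul_inv]; exact mul_mem hx.2.2 hy.2.2⟩

theorem V.inv (hx : V p x) : V p x⁻¹ :=
  ⟨inv_ne_zero hx.1, hx.2.2, by rw [inv_inv]; exact hx.2.1⟩

theorem V.neg (hx : V p x) : V p (-x) :=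
  ⟨neg_ne_zero.2 hx.1, neg_mem hx.2.1, by rw [inv_neg]; exact neg_mem hx.2.2⟩

theorem V.pow (hx : V p x) (k : ℕ) : V p (x ^ k) := by
  induction k with
  | zero => rw [pow_zero]; exact V.one
  | succ k ih => rw [pow_succ]; exact ih.mul hx

theorem V_of_U {a : ℚ} (h : U p a) : V p (a : ℂ) :=
  ⟨by exact_mod_cast h.1, q_mem h.2.1, by
    have := q_mem h.2.2
    push_cast at this
    exact this⟩

theorem V.cancel (hx : V p x) (h : J p k (x * y)) : J p k y := by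
  have := h.mulL hx.2.2
  rwa [← mul_assoc, inv_mul_cancel₀ hx.1, one_mul] at this

theorem V.of_mul (hx : x ∈ OO p) (hy : y ∈ OO p) (h : V p (x * y)) : V p x :=
  ⟨left_ne_zero_of_mul h.1, hx, by
    have h2 := mul_mem hy h.2.2
    have hx0 := left_ne_zero_of_mul h.1
    have hy0 := right_ne_zero_of_mul h.1
    have : y * (x * y)⁻¹ = x⁻¹ := by field_simp
    rwa [this] at h2⟩

end Pool.Agent.L7h22.D8
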