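import Mathlib

/-!
# Hypergeometric polynomials, their differential equation, and pull-backs
-/

set_option autoImplicit false

namespace Pool.Agent.L7h22.D8

open Polynomial Finset

/-- coefficients of the hypergeometric series `F(a,b;c;x)` -/
def hg (a b c : ℚ) (k : ℕ) : ℚ := ∏ i ∈ range k, ((a + i) * (b + i) / ((c + i) * (i + 1)))

theorem hg_zero (a b c : ℚ) : hg a b c 0 = 1 := by simp [hg]

theorem hg_succ (a b c : ℚ) (k : ℕ) :
    hg a b c (k + 1) = hg a b c k * ((a + k) * (b + k) / ((c + k) * (k + 1))) := by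
  unfold hg
  rw [prod_range_succ]

theorem hg_swap (a b c : ℚ) (k : ℕ) : hg a b c k = hg b a c k := by
  unfold hg
  exact prod_congr rfl fun i _ => by rw [mul_comm (a + i : ℚ)]

theorem hg_big {a b c : ℚ} {N k : ℕ} (h : (a + N) * (b + N) = 0) (hk : N < k) : hg a b c k = 0 := by
  unfold hg
  apply prod_eq_zero (mem_range.2 hk)
  rw [h, zero_div]

theorem hg_rec (a b c : ℚ) (k : ℕ) (hc : c + k ≠ 0) :
    ((k : ℚ) + 1) * (c + k) * hg a b c (k + 1) = (a + k) * (b + k) * hg a b c k := by
  rw [hg_succ]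
  have : (k : ℚ) + 1 ≠ 0 := by positivity
  field_simp

/-- the hypergeometric operator -/
noncomputable def L (a b c : ℚ) (y : ℚ[X]) : ℚ[X] :=
  X * (1 - X) * derivative (derivative y) + (C c - C (a + b + 1) * X) * derivative y - C (a * b) * y

theorem L_add (a b c : ℚ) (y z : ℚ[X]) : L a b c (y + z) = L a b c y + L a b c z := by
  unfold L
  rw [derivative_add, derivative_add]
  ring

theorem L_zero (a b c : ℚ) : L a b c 0 = 0 := by
  unfold L; simp

theorem L_C_mul (a b c r : ℚ) (y : ℚ[X]) : L a b c (C r * y) = C r * L a b c y := by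
  unfold L
  rw [derivative_C_mul, derivative_C_mul]
  ring

theorem L_coeff (a b c : ℚ) (y : ℚ[X]) (k : ℕ) : (L a b c y).coeff k =
    ((k : ℚ) + 1) * (c + k) * y.coeff (k + 1) - (a + k) * (b + k) * y.coeff k := by
  have e : L a b c y = X * derivative (derivative y) - X * (X * derivative (derivative y))
      + C c * derivative y - C (a + b + 1) * (X * derivative y) - C (a * b) * y := by
    unfold L; ring
  rw [e]
  simp only [coeff_sub, coeff_add, coeff_C_mul]
  rcases k with _ | _ | k
  · simp [coeff_derivative]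
  · simp [coeff_derivative, coeff_X_mul]
    ring
  · simp only [coeff_derivative, coeff_X_mul]
    push_cast
    ring

theorem L_unique {a b c : ℚ} (hc : ∀ k : ℕ, c + k ≠ 0) {y : ℚ[X]} (h : L a b c y = 0) (k : ℕ) :
    y.coeff k = y.coeff 0 * hg a b c k := by
  induction k with
  | zero => rw [hg_zero, mul_one]
  | succ k ih =>
    have h1 := L_coeff a b c y k
    rw [h, coeff_zero, ih] at h1
    have h2 := hg_rec a b c k (hc k)
    have h3 : ((k : ℚ) + 1) * (c + k) ≠ 0 := mul_ne_zero (by positivity) (hc k)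
    apply mul_left_cancel₀ h3
    linear_combination -h1 - y.coeff 0 * h2

/-- the polynomial `F(a,b;c;x)` -/
noncomputable def hp (a b c : ℚ) (N : ℕ) : ℚ[X] := ∑ k ∈ range (N + 1), C (hg a b c k) * X ^ k

theorem hp_coeff {a b c : ℚ} {N : ℕ} (h : (a + N) * (b + N) = 0) (k : ℕ) :
    (hp a b c N).coeff k = hg a b c k := by
  unfold hp
  rw [finsetSum_coeff]
  simp only [coeff_C_mul_X_pow]
  rw [sum_ite_eq]
  split_ifs with hk
  · rfl
  · rw [hg_big h (by simpa using hk)]

theorem L_hp {a b c : ℚ} (hc : ∀ k : ℕ, c + k ≠ 0) {N : ℕ} (h : (a + N) * (b + N) = 0) :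
    L a b c (hp a b c N) = 0 := by
  ext k
  rw [L_coeff, hp_coeff h, hp_coeff h, hg_rec a b c k (hc k), coeff_zero]
  ring

theorem eq_hp {a b c : ℚ} (hc : ∀ k : ℕ, c + k ≠ 0) {N : ℕ} (h : (a + N) * (b + N) = 0)
    {y : ℚ[X]} (hy : L a b c y = 0) : y = C (y.coeff 0) * hp a b c N := by
  ext k
  rw [coeff_C_mul, hp_coeff h, L_unique hc hy k]

/-- mirror -/
theorem L_mirror (a b c : ℚ) (y : ℚ[X]) :
    L a b c (y.comp (1 - X)) = (L a b (a + b + 1 - c) y).comp (1 - X) := by
  unfold L
  simp only [derivative_comp, derivative_sub, derivative_one, derivative_X, derivative_mul,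
    sub_comp, add_comp, mul_comp, C_comp, X_comp, one_comp, C_add, C_sub, C_1, derivative_zero]
  ring

theorem mirror {a b c : ℚ} (hc : ∀ k : ℕ, c + k ≠ 0) (hc' : ∀ k : ℕ, a + b + 1 - c + k ≠ 0)
    {N : ℕ} (h : (a + N) * (b + N) = 0) :
    (hp a b (a + b + 1 - c) N).comp (1 - X) =
      C ((hp a b (a + b + 1 - c) N).eval 1) * hp a b c N := by
  have h1 : L a b c ((hp a b (a + b + 1 - c) N).comp (1 - X)) = 0 := by
    rw [L_mirror, L_hp hc' h, zero_comp]
  have h2 := eq_hp hc h h1
  have h3 : ((hp a b (a + b + 1 - c) N).comp (1 - X)).coeff 0 =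
      (hp a b (a + b + 1 - c) N).eval 1 := by
    rw [coeff_zero_eq_eval_zero, eval_comp]
    simp
  rw [h3] at h2
  exact h2

/-- logarithmic derivative -/
def LD (E l T : ℚ[X]) : Prop := E * derivative T = l * T

theorem LD.mul {E l m T S : ℚ[X]} (h : LD E l T) (h' : LD E m S) : LD E (l + m) (T * S) := by
  unfold LD at *
  rw [derivative_mul]
  linear_combination S * h + T * h'

theorem LD.C {E : ℚ[X]} (r : ℚ) : LD E 0 (C r) := by
  unfold LD
  rw [derivative_C]
  ring

theorem LD.pow {E l T : ℚ[X]} (h : LD E l T) (k : ℕ) : LD E (Polynomial.C (k : ℚ) * l) (T ^ k) := by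
  unfold LD at *
  induction k with
  | zero => simp
  | succ k ih =>
    rw [pow_succ, derivative_mul]
    push_cast
    rw [C_add, C_1]
    linear_combination T * ih + T ^ k * h

theorem LD.L {E l T : ℚ[X]} (h : LD E l T) (a b c : ℚ) : E ^ 2 * L a b c T =
    (X * (1 - X) * (E * derivative l + l ^ 2 - derivative E * l)
      + (Polynomial.C c - Polynomial.C (a + b + 1) * X) * E * l - Polynomial.C (a * b) * E ^ 2) * T := by
  unfold LD at h
  have h2 := congrArg derivative h
  rw [derivative_mul, derivative_mul] at h2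
  unfold D8.L
  linear_combination (X * (1 - X) * E) * h2 + (X * (1 - X) * (l - derivative E)
    + (Polynomial.C c - Polynomial.C (a + b + 1) * X) * E) * h

/-- pull-back of a hypergeometric polynomial -/
theorem hub {a b c a' b' e : ℚ} (J : ℕ) (E W B Z : ℚ[X]) (l T : ℕ → ℚ[X]) (hE0 : E ≠ 0)
    (hE : ∀ j ≤ J, LD E (l j) (T j))
    (hR : ∀ j ≤ J, X * (1 - X) * (E * derivative (l j) + l j ^ 2 - derivative E * l j)
      + (C c - C (a + b + 1) * X) * E * l j - C (a * b) * E ^ 2 =
      W * (C ((j : ℚ) * (j - e)) * B - C ((j + a') * (j + b')) * Z))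
    (hT : ∀ j < J, B * T (j + 1) = Z * T j) (hJ : ((J : ℚ) + a') * (J + b') = 0)
    (he : ∀ j : ℕ, 1 - e + j ≠ 0) :
    L a b c (∑ j ∈ range (J + 1), C (hg a' b' (1 - e) j) * T j) = 0 := by
  have key : ∀ N ≤ J, E ^ 2 * L a b c (∑ j ∈ range (N + 1), C (hg a' b' (1 - e) j) * T j) =
      -(W * C (hg a' b' (1 - e) N * ((N + a') * (N + b'))) * Z * T N) := by
    intro N
    induction N with
    | zero =>
      intro h0
      rw [zero_add, sum_range_one, L_C_mul, hg_zero]
      have h1 := (hE 0 h0).L a b c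
      rw [hR 0 h0] at h1
      rw [mul_left_comm, h1]
      simp only [Nat.cast_zero, zero_mul, C_0, zero_sub, zero_add, one_mul, C_1]
      ring
    | succ N ih =>
      intro h0
      have ih := ih (by omega)
      have e1 : E ^ 2 * (C (hg a' b' (1 - e) (N + 1)) * L a b c (T (N + 1))) =
        C (hg a' b' (1 - e) (N + 1)) * (E ^ 2 * L a b c (T (N + 1))) := by ring
      rw [sum_range_succ, L_add, mul_add, ih, L_C_mul, e1, (hE (N + 1) h0).L a b c, hR (N + 1) h0]
      have h2 := hT N (by omega)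
      have h3 := hg_rec a' b' (1 - e) N (he N)
      have h4 : hg a' b' (1 - e) (N + 1) * (((N + 1 : ℕ) : ℚ) * (((N + 1 : ℕ) : ℚ) - e)) =
          hg a' b' (1 - e) N * ((N + a') * (N + b')) := by
        push_cast
        linear_combination h3
      have h5 := congrArg (Polynomial.C : ℚ → ℚ[X]) h4
      rw [C_mul (a := hg a' b' (1 - e) (N + 1))] at h5
      rw [C_mul (a := hg a' b' (1 - e) (N + 1))
        (b := (((N + 1 : ℕ) : ℚ) + a') * (((N + 1 : ℕ) : ℚ) + b'))]
      linear_combination (W * B * T (N + 1)) * h5 +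
        (W * C (hg a' b' (1 - e) N * ((N + a') * (N + b')))) * h2
  have h := key J le_rfl
  rw [hJ, mul_zero, C_0, mul_zero, zero_mul, zero_mul, neg_zero] at h
  exact (mul_eq_zero.1 h).resolve_left (pow_ne_zero 2 hE0)

end Pool.Agent.L7h22.D8
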