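import Mathlib
import Pool.Agent.L7h22.D8.Ode

/-!
# Pull-backs of the level one hypergeometric polynomial to levels three and two
-/

set_option autoImplicit false

namespace Pool.Agent.L7h22.D8

open Polynomial Finset

theorem one_sub_ne {p : ℕ} (h : p % 2 = 1) (j : ℕ) : 1 - (p : ℚ) / 6 + j ≠ 0 := by
  intro h0
  have h1 : (p : ℚ) = ((6 * (j + 1) : ℕ) : ℚ) := by push_cast; linarith
  have h2 : p = 6 * (j + 1) := by exact_mod_cast h1
  omega

theorem sum_zero {J : ℕ} {u : ℕ → ℚ} {T : ℕ → ℚ[X]} (hu : u 0 = 1) (h0 : (T 0).eval 0 = 1)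
    (h : ∀ j, (T (j + 1)).eval 0 = 0) : (∑ j ∈ range (J + 1), C (u j) * T j).coeff 0 = 1 := by
  rw [coeff_zero_eq_eval_zero, eval_finsetSum, sum_range_succ', eval_mul, h0, hu]
  rw [sum_eq_zero fun j _ => by rw [eval_mul, h, mul_zero]]
  simp

/-- level three, `p ≡ 1 mod 4` -/
theorem T3a {p M J N : ℕ} (hM : p = 4 * M + 1) (hJ : M = 3 * J ∨ M = 3 * J + 1)
    (hN : p = 3 * N + 1 ∨ p = 3 * N + 2) :
    ∑ j ∈ range (J + 1), C (hg ((1 - p) / 12) ((5 - p) / 12) (1 - p / 6) j) *
      (C (64 ^ j) * X ^ j * (1 - X) ^ (3 * j) * (1 + 8 * X) ^ (M - 3 * j)) =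
    hp ((1 - p) / 3) ((2 - p) / 3) (1 - p / 6) N := by
  have hc := one_sub_ne (p := p) (by omega)
  have hMq : (p : ℚ) = 4 * M + 1 := by rw [hM]; push_cast; ring
  have h := hub (a := (1 - p) / 3) (b := (2 - p) / 3) (c := 1 - p / 6) (a' := (1 - p) / 12)
    (b' := (5 - p) / 12) (e := p / 6) J (X * (1 - X) * (1 + 8 * X)) (X * (1 - X)) ((1 + 8 * X) ^ 3)
    (64 * X * (1 - X) ^ 3)
    (fun j => C (j : ℚ) * ((1 - X) * (1 + 8 * X)) + C (3 * j : ℚ) * (-(X * (1 + 8 * X))) +
      C ((M : ℚ) - 3 * j) * (8 * X * (1 - X)))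
    (fun j => C (64 ^ j) * X ^ j * (1 - X) ^ (3 * j) * (1 + 8 * X) ^ (M - 3 * j))
    (by
      intro h0
      have := congrArg (eval 2) h0
      norm_num at this)
    (by
      intro j hj
      have l1 : LD (X * (1 - X) * (1 + 8 * X)) ((1 - X) * (1 + 8 * X)) X := by
        unfold LD; rw [derivative_X]; ring
      have l2 : LD (X * (1 - X) * (1 + 8 * X)) (-(X * (1 + 8 * X))) (1 - X) := by
        unfold LD; rw [derivative_sub, derivative_X, derivative_one]; ring
      have l3 : LD (X * (1 - X) * (1 + 8 * X)) (8 * X * (1 - X)) (1 + 8 * X) := by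
        unfold LD
        rw [derivative_add, derivative_mul, derivative_X, derivative_one]
        simp only [derivative_ofNat]
        ring
      have l4 := (((LD.C (64 ^ j)).mul (l1.pow j)).mul (l2.pow (3 * j))).mul (l3.pow (M - 3 * j))
      have e : ((M - 3 * j : ℕ) : ℚ) = (M : ℚ) - 3 * j := by
        rw [Nat.cast_sub (by omega)]; push_cast; ring
      rw [e] at l4
      push_cast at l4
      rw [zero_add] at l4
      exact l4)
    (by
      intro j hj
      apply Polynomial.funext
      intro x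
      simp only [eval_add, eval_mul, eval_sub, eval_pow, eval_X, eval_C, eval_one, eval_ofNat,
        derivative_add, derivative_sub, derivative_mul, derivative_X, derivative_one, derivative_C,
        derivative_ofNat, derivative_neg, eval_neg, eval_zero]
      rw [hMq]
      ring)
    (by
      intro j hj
      have e : M - 3 * j = M - 3 * (j + 1) + 3 := by omega
      rw [e, pow_add (1 + 8 * X : ℚ[X]), show 3 * (j + 1) = 3 * j + 3 by ring, pow_succ (64 : ℚ), C_mul,
        show (C (64 : ℚ) : ℚ[X]) = 64 from rfl]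
      ring)
    (by
      rw [hMq]
      rcases hJ with h | h
      · rw [h]; push_cast; ring
      · rw [h]; push_cast; ring)
    hc
  have h2 : ((1 - (p : ℚ)) / 3 + N) * ((2 - p) / 3 + N) = 0 := by
    rcases hN with h | h
    · rw [h]; push_cast; ring
    · rw [h]; push_cast; ring
  have h3 := eq_hp hc h2 h
  rw [h3, sum_zero (hg_zero _ _ _) (by simp) (by intro j; simp), C_1, one_mul]

/-- level three, `p ≡ 3 mod 4` -/
theorem T3b {p M J N : ℕ} (hM : p = 4 * M + 7) (hJ : M = 3 * J ∨ M = 3 * J + 1)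
    (hN : p = 3 * N + 1 ∨ p = 3 * N + 2) :
    ∑ j ∈ range (J + 1), C (hg ((7 - p) / 12) ((11 - p) / 12) (1 - p / 6) j) *
      ((1 - 20 * X - 8 * X ^ 2) *
      (C (64 ^ j) * X ^ j * (1 - X) ^ (3 * j) * (1 + 8 * X) ^ (M - 3 * j))) =
    hp ((1 - p) / 3) ((2 - p) / 3) (1 - p / 6) N := by
  have hc := one_sub_ne (p := p) (by omega)
  have hMq : (p : ℚ) = 4 * M + 7 := by rw [hM]; push_cast; ring
  have h := hub (a := (1 - p) / 3) (b := (2 - p) / 3) (c := 1 - p / 6) (a' := (7 - p) / 12)
    (b' := (11 - p) / 12) (e := p / 6) J (X * (1 - X) * (1 + 8 * X) * (1 - 20 * X - 8 * X ^ 2))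
    (X * (1 - X) * (1 - 20 * X - 8 * X ^ 2) ^ 2) ((1 + 8 * X) ^ 3)
    (64 * X * (1 - X) ^ 3)
    (fun j => (-20 - 16 * X) * (X * (1 - X) * (1 + 8 * X)) +
      (C (j : ℚ) * ((1 - X) * (1 + 8 * X) * (1 - 20 * X - 8 * X ^ 2)) +
      C (3 * j : ℚ) * (-(X * (1 + 8 * X) * (1 - 20 * X - 8 * X ^ 2))) +
      C ((M : ℚ) - 3 * j) * (8 * X * (1 - X) * (1 - 20 * X - 8 * X ^ 2))))
    (fun j => (1 - 20 * X - 8 * X ^ 2) *
      (C (64 ^ j) * X ^ j * (1 - X) ^ (3 * j) * (1 + 8 * X) ^ (M - 3 * j)))
    (by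
      intro h0
      have := congrArg (eval 2) h0
      norm_num at this)
    (by
      intro j hj
      have l0 : LD (X * (1 - X) * (1 + 8 * X) * (1 - 20 * X - 8 * X ^ 2))
          ((-20 - 16 * X) * (X * (1 - X) * (1 + 8 * X))) (1 - 20 * X - 8 * X ^ 2) := by
        unfold LD
        simp only [pow_two, derivative_sub, derivative_mul, derivative_X, derivative_one,
          derivative_ofNat]
        ring
      have l1 : LD (X * (1 - X) * (1 + 8 * X) * (1 - 20 * X - 8 * X ^ 2))
          ((1 - X) * (1 + 8 * X) * (1 - 20 * X - 8 * X ^ 2)) X := by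
        unfold LD; rw [derivative_X]; ring
      have l2 : LD (X * (1 - X) * (1 + 8 * X) * (1 - 20 * X - 8 * X ^ 2))
          (-(X * (1 + 8 * X) * (1 - 20 * X - 8 * X ^ 2))) (1 - X) := by
        unfold LD; rw [derivative_sub, derivative_X, derivative_one]; ring
      have l3 : LD (X * (1 - X) * (1 + 8 * X) * (1 - 20 * X - 8 * X ^ 2))
          (8 * X * (1 - X) * (1 - 20 * X - 8 * X ^ 2)) (1 + 8 * X) := by
        unfold LD
        rw [derivative_add, derivative_mul, derivative_X, derivative_one]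
        simp only [derivative_ofNat]
        ring
      have l4 := l0.mul ((((LD.C (64 ^ j)).mul (l1.pow j)).mul (l2.pow (3 * j))).mul
        (l3.pow (M - 3 * j)))
      have e : ((M - 3 * j : ℕ) : ℚ) = (M : ℚ) - 3 * j := by
        rw [Nat.cast_sub (by omega)]; push_cast; ring
      rw [e] at l4
      push_cast at l4
      rw [zero_add] at l4
      exact l4)
    (by
      intro j hj
      apply Polynomial.funext
      intro x
      simp only [eval_add, eval_mul, eval_sub, eval_pow, eval_X, eval_C, eval_one, eval_ofNat,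
        derivative_add, derivative_sub, derivative_mul, derivative_X, derivative_one, derivative_C,
        derivative_ofNat, derivative_neg, eval_neg, eval_zero, derivative_X_pow]
      rw [hMq]
      push_cast
      ring)
    (by
      intro j hj
      have e : M - 3 * j = M - 3 * (j + 1) + 3 := by omega
      rw [e, pow_add (1 + 8 * X : ℚ[X]), show 3 * (j + 1) = 3 * j + 3 by ring, pow_succ (64 : ℚ), C_mul,
        show (C (64 : ℚ) : ℚ[X]) = 64 from rfl]
      ring)
    (by
      rw [hMq]
      rcases hJ with h | h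
      · rw [h]; push_cast; ring
      · rw [h]; push_cast; ring)
    hc
  have h2 : ((1 - (p : ℚ)) / 3 + N) * ((2 - p) / 3 + N) = 0 := by
    rcases hN with h | h
    · rw [h]; push_cast; ring
    · rw [h]; push_cast; ring
  have h3 := eq_hp hc h2 h
  rw [h3, sum_zero (hg_zero _ _ _) (by simp) (by intro j; simp), C_1, one_mul]

/-- level two, `p ≡ 1 mod 4` -/
theorem T2a {p M J : ℕ} (hM : p = 4 * M + 1) (hJ : M = 3 * J ∨ M = 3 * J + 1) :
    ∑ j ∈ range (J + 1), C (hg ((1 - p) / 12) ((5 - p) / 12) (1 - p / 6) j) *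
      (C ((-27) ^ j) * X ^ j * (1 - 4 * X) ^ (M - 3 * j)) =
    hp ((1 - p) / 4) ((3 + p) / 12) (1 - p / 6) M := by
  have hc := one_sub_ne (p := p) (by omega)
  have hMq : (p : ℚ) = 4 * M + 1 := by rw [hM]; push_cast; ring
  have h := hub (a := (1 - p) / 4) (b := (3 + p) / 12) (c := 1 - p / 6) (a' := (1 - p) / 12)
    (b' := (5 - p) / 12) (e := p / 6) J (X * (1 - 4 * X)) X ((1 - 4 * X) ^ 3)
    (-27 * X)
    (fun j => C (j : ℚ) * (1 - 4 * X) + C ((M : ℚ) - 3 * j) * (-4 * X))
    (fun j => C ((-27) ^ j) * X ^ j * (1 - 4 * X) ^ (M - 3 * j))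
    (by
      intro h0
      have := congrArg (eval 2) h0
      norm_num at this)
    (by
      intro j hj
      have l1 : LD (X * (1 - 4 * X)) (1 - 4 * X) X := by
        unfold LD; rw [derivative_X]; ring
      have l3 : LD (X * (1 - 4 * X)) (-4 * X) (1 - 4 * X) := by
        unfold LD
        rw [derivative_sub, derivative_mul, derivative_X, derivative_one]
        simp only [derivative_ofNat]
        ring
      have l4 := ((LD.C ((-27) ^ j)).mul (l1.pow j)).mul (l3.pow (M - 3 * j))
      have e : ((M - 3 * j : ℕ) : ℚ) = (M : ℚ) - 3 * j := by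
        rw [Nat.cast_sub (by omega)]; push_cast; ring
      rw [e] at l4
      rw [zero_add] at l4
      exact l4)
    (by
      intro j hj
      apply Polynomial.funext
      intro x
      simp only [eval_add, eval_mul, eval_sub, eval_pow, eval_X, eval_C, eval_one, eval_ofNat,
        derivative_add, derivative_sub, derivative_mul, derivative_X, derivative_one, derivative_C,
        derivative_ofNat, derivative_neg, eval_neg, eval_zero]
      rw [hMq]
      ring)
    (by
      intro j hj
      have e : M - 3 * j = M - 3 * (j + 1) + 3 := by omega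
      rw [e, pow_add (1 - 4 * X : ℚ[X]), pow_succ (-27 : ℚ), C_mul,
        show (C (-27 : ℚ) : ℚ[X]) = -27 by rw [C_neg]; rfl]
      ring)
    (by
      rw [hMq]
      rcases hJ with h | h
      · rw [h]; push_cast; ring
      · rw [h]; push_cast; ring)
    hc
  have h2 : ((1 - (p : ℚ)) / 4 + M) * ((3 + p) / 12 + M) = 0 := by
    rw [hM]; push_cast; ring
  have h3 := eq_hp hc h2 h
  rw [h3, sum_zero (hg_zero _ _ _) (by simp) (by intro j; simp), C_1, one_mul]

/-- level two, `p ≡ 3 mod 4` -/
theorem T2b {p M J : ℕ} (hM : p = 4 * M + 7) (hJ : M = 3 * J ∨ M = 3 * J + 1) :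
    ∑ j ∈ range (J + 1), C (hg ((7 - p) / 12) ((11 - p) / 12) (1 - p / 6) j) *
      ((1 + 8 * X) * (C ((-27) ^ j) * X ^ j * (1 - 4 * X) ^ (M - 3 * j))) =
    hp ((3 - p) / 4) ((9 + p) / 12) (1 - p / 6) (M + 1) := by
  have hc := one_sub_ne (p := p) (by omega)
  have hMq : (p : ℚ) = 4 * M + 7 := by rw [hM]; push_cast; ring
  have h := hub (a := (3 - p) / 4) (b := (9 + p) / 12) (c := 1 - p / 6) (a' := (7 - p) / 12)
    (b' := (11 - p) / 12) (e := p / 6) J (X * (1 - 4 * X) * (1 + 8 * X)) (X * (1 + 8 * X) ^ 2)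
    ((1 - 4 * X) ^ 3) (-27 * X)
    (fun j => 8 * (X * (1 - 4 * X)) + (C (j : ℚ) * ((1 - 4 * X) * (1 + 8 * X)) +
      C ((M : ℚ) - 3 * j) * (-4 * X * (1 + 8 * X))))
    (fun j => (1 + 8 * X) * (C ((-27) ^ j) * X ^ j * (1 - 4 * X) ^ (M - 3 * j)))
    (by
      intro h0
      have := congrArg (eval 2) h0
      norm_num at this)
    (by
      intro j hj
      have l0 : LD (X * (1 - 4 * X) * (1 + 8 * X)) (8 * (X * (1 - 4 * X))) (1 + 8 * X) := by
        unfold LD
        rw [derivative_add, derivative_mul, derivative_X, derivative_one]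
        simp only [derivative_ofNat]
        ring
      have l1 : LD (X * (1 - 4 * X) * (1 + 8 * X)) ((1 - 4 * X) * (1 + 8 * X)) X := by
        unfold LD; rw [derivative_X]; ring
      have l3 : LD (X * (1 - 4 * X) * (1 + 8 * X)) (-4 * X * (1 + 8 * X)) (1 - 4 * X) := by
        unfold LD
        rw [derivative_sub, derivative_mul, derivative_X, derivative_one]
        simp only [derivative_ofNat]
        ring
      have l4 := l0.mul (((LD.C ((-27) ^ j)).mul (l1.pow j)).mul (l3.pow (M - 3 * j)))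
      have e : ((M - 3 * j : ℕ) : ℚ) = (M : ℚ) - 3 * j := by
        rw [Nat.cast_sub (by omega)]; push_cast; ring
      rw [e] at l4
      rw [zero_add] at l4
      exact l4)
    (by
      intro j hj
      apply Polynomial.funext
      intro x
      simp only [eval_add, eval_mul, eval_sub, eval_pow, eval_X, eval_C, eval_one, eval_ofNat,
        derivative_add, derivative_sub, derivative_mul, derivative_X, derivative_one, derivative_C,
        derivative_ofNat, derivative_neg, eval_neg, eval_zero]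
      rw [hMq]
      ring)
    (by
      intro j hj
      have e : M - 3 * j = M - 3 * (j + 1) + 3 := by omega
      rw [e, pow_add (1 - 4 * X : ℚ[X]), pow_succ (-27 : ℚ), C_mul,
        show (C (-27 : ℚ) : ℚ[X]) = -27 by rw [C_neg]; rfl]
      ring)
    (by
      rw [hMq]
      rcases hJ with h | h
      · rw [h]; push_cast; ring
      · rw [h]; push_cast; ring)
    hc
  have h2 : ((3 - (p : ℚ)) / 4 + ((M + 1 : ℕ) : ℚ)) * ((9 + p) / 12 + ((M + 1 : ℕ) : ℚ)) = 0 := by
    rw [hM]; push_cast; ring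
  have h3 := eq_hp hc h2 h
  rw [h3, sum_zero (hg_zero _ _ _) (by simp) (by intro j; simp), C_1, one_mul]

end Pool.Agent.L7h22.D8
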