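import Mathlib
import Pool.Agent.R488.Cub.Defs
import Pool.Agent.L7h22.C42.Comb

/-!
# Exact identities for `c(n,k) = (-1)^k C(n,k) C(n+k,k)`
-/

set_option autoImplicit false

namespace Pool.Agent.L7h22.D8

open Finset Pool.Agent.L7h22.C42
open Pool.Agent.R488.Cub (H)

theorem H_succ (n : ℕ) : H (n + 1) = H n + 1 / ((n : ℚ) + 1) := by
  unfold H
  rw [sum_range_succ]

theorem H_zero : H 0 = 0 := by simp [H]

theorem c_rec (n k : ℕ) : ((k : ℚ) + 1) ^ 2 * c n (k + 1) = ((k : ℚ) - n) * (k + n + 1) * c n k := by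
  have h := c_j n k
  linear_combination (1 / 4) * h

/-- `∑_{i<k} c(n,i)/(k-i)` -/
def TT (n k : ℕ) : ℚ := ∑ i ∈ range k, c n i / ((k : ℚ) - i)

/-- `∑_{i>k} c(n,i)/(i-k)` -/
def UT (n k : ℕ) : ℚ := ∑ i ∈ Ico (k + 1) (n + 1), c n i / ((i : ℚ) - k)

theorem TT_rec (n k : ℕ) : ((k : ℚ) + 1) ^ 2 * TT n (k + 1) =
    ((k : ℚ) - n) * (k + n + 1) * TT n k + (2 * k + 1) * c n k := by
  have h1 : ((k : ℚ) + 1) ^ 2 * TT n (k + 1) = ∑ i ∈ range (k + 1), c n i * ((k : ℚ) + 1 + i) +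
      ∑ i ∈ range (k + 1), c n i * (i : ℚ) ^ 2 / ((k : ℚ) + 1 - i) := by
    unfold TT
    rw [mul_sum, ← sum_add_distrib]
    refine sum_congr rfl fun i hi => ?_
    have hi' : (i : ℚ) < k + 1 := by exact_mod_cast mem_range.1 hi
    have h0 : (k : ℚ) + 1 - i ≠ 0 := by linarith
    push_cast
    field_simp
    ring
  have h2 : ∑ i ∈ range (k + 1), c n i * (i : ℚ) ^ 2 / ((k : ℚ) + 1 - i) =
      ∑ i ∈ range k, (((i : ℚ) - n) * (i + n + 1) * c n i) / ((k : ℚ) - i) := by
    rw [sum_range_succ']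
    simp only [Nat.cast_zero, ne_eq, OfNat.ofNat_ne_zero, not_false_eq_true, zero_pow, mul_zero,
      zero_div, add_zero]
    refine sum_congr rfl fun i _ => ?_
    rw [← c_rec]
    push_cast
    congr 1
    · ring
    · ring
  have h3 : ∑ i ∈ range k, (((i : ℚ) - n) * (i + n + 1) * c n i) / ((k : ℚ) - i) =
      ((k : ℚ) - n) * (k + n + 1) * TT n k - ∑ i ∈ range k, c n i * ((k : ℚ) + i + 1) := by
    unfold TT
    rw [mul_sum, ← sum_sub_distrib]
    refine sum_congr rfl fun i hi => ?_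
    have hi' : (i : ℚ) < k := by exact_mod_cast mem_range.1 hi
    have h0 : (k : ℚ) - i ≠ 0 := by linarith
    field_simp
    ring
  rw [h1, h2, h3, sum_range_succ]
  have h4 : ∑ i ∈ range k, c n i * ((k : ℚ) + 1 + i) = ∑ i ∈ range k, c n i * ((k : ℚ) + i + 1) :=
    sum_congr rfl fun i _ => by ring
  rw [h4]
  ring

theorem TT_zero (n : ℕ) : TT n 0 = 0 := by simp [TT]

/-- first order term of the coefficients -/
def ee (n k : ℕ) : ℚ := TT n k - 2 * (c n k * (H (n + k) - H n))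

theorem ee_zero (n : ℕ) : ee n 0 = 0 := by simp [ee, TT_zero]

theorem ee_rec (n k : ℕ) : ((k : ℚ) + 1) ^ 2 * ee n (k + 1) =
    ((k : ℚ) - n) * (k + n + 1) * ee n k + (2 * n + 1) * c n k := by
  have h1 := TT_rec n k
  have h2 := c_rec n k
  have h3 : H (n + (k + 1)) = H (n + k) + 1 / ((n : ℚ) + k + 1) := by
    rw [show n + (k + 1) = n + k + 1 by ring, H_succ]
    push_cast
    ring
  have h4 : ((k : ℚ) + n + 1) * (1 / ((n : ℚ) + k + 1)) = 1 := by
    have : (n : ℚ) + k + 1 ≠ 0 := by positivity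
    field_simp
    ring
  unfold ee
  rw [h3]
  linear_combination h1 - 2 * (H (n + k) + 1 / ((n : ℚ) + k + 1) - H n) * h2
    - 2 * ((k : ℚ) - n) * c n k * h4

theorem UT_rec (n k : ℕ) (hk : k < n) : ((k : ℚ) + 1) ^ 2 * UT n (k + 1) =
    ((k : ℚ) - n) * (k + n + 1) * UT n k + 2 * (k + 1) * c n (k + 1) := by
  have e1 : ∑ i ∈ Ico (k + 1) (n + 1), c n i / ((i : ℚ) - k) =
      ∑ i ∈ range (n + 1), (if k < i then c n i / ((i : ℚ) - k) else 0) := by
    rw [← sum_filter]
    refine sum_congr ?_ fun _ _ => rfl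
    ext i; simp only [mem_Ico, mem_filter, mem_range]; omega
  have e2 : ∑ i ∈ Ico (k + 1 + 1) (n + 1), c n i / ((i : ℚ) - ((k + 1 : ℕ) : ℚ)) =
      ∑ i ∈ range (n + 1), (if k < i then c n (i + 1) / ((i : ℚ) - k) else 0) := by
    rw [← sum_filter]
    have : ∑ i ∈ range (n + 1) with k < i, c n (i + 1) / ((i : ℚ) - k) =
        ∑ i ∈ Ico (k + 1) (n + 1), c n (i + 1) / ((i : ℚ) - k) := by
      refine sum_congr ?_ fun _ _ => rfl
      ext i; simp only [mem_Ico, mem_filter, mem_range]; omega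
    have h5 : ∑ i ∈ Ico (k + 1) (n + 1), c n (i + 1) / ((i : ℚ) - k) =
        ∑ i ∈ Ico (k + 1) n, c n (i + 1) / ((i : ℚ) - k) := by
      rw [sum_Ico_succ_top (by omega), c_big (by omega : n < n + 1), zero_div, add_zero]
    rw [this, h5, ← sum_Ico_add' (fun i => c n i / ((i : ℚ) - ((k + 1 : ℕ) : ℚ))) (k + 1) n 1]
    refine sum_congr rfl fun i _ => ?_
    push_cast
    congr 1
    ring
  unfold UT
  rw [e1, e2, mul_sum, mul_sum]
  have e3 : ∀ i ∈ range (n + 1), ((k : ℚ) + 1) ^ 2 * (if k < i then c n (i + 1) / ((i : ℚ) - k) else 0) -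
      ((k : ℚ) - n) * (k + n + 1) * (if k < i then c n i / ((i : ℚ) - k) else 0) =
      if k < i then (((i : ℚ) + k + 1) * c n i - ((i : ℚ) + 1 + (k + 1)) * c n (i + 1)) else 0 := by
    intro i _
    split_ifs with h
    · have h0 : (i : ℚ) - k ≠ 0 := by
        have : (k : ℚ) < i := by exact_mod_cast h
        linarith
      have h1 := c_rec n i
      field_simp
      linear_combination h1
    · ring
  have e4 : ∀ m, k ≤ m → ∑ i ∈ range (m + 1), (if k < i then (((i : ℚ) + k + 1) * c n i -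
      ((i : ℚ) + 1 + (k + 1)) * c n (i + 1)) else 0) =
      2 * (k + 1) * c n (k + 1) - ((m : ℚ) + 1 + (k + 1)) * c n (m + 1) := by
    intro m hm
    induction m, hm using Nat.le_induction with
    | base =>
      rw [sum_eq_zero]
      · ring
      · intro i hi
        rw [if_neg]
        have := mem_range.1 hi
        omega
    | succ m hm ih =>
      rw [sum_range_succ, ih, if_pos (by omega)]
      push_cast
      ring
  have e5 := e4 n hk.le
  rw [c_big (by omega : n < n + 1), mul_zero, sub_zero, ← sum_congr rfl e3, sum_sub_distrib] at e5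
  linear_combination e5

theorem UT_closed (n k : ℕ) (hk : k ≤ n) : UT n k = 2 * (c n k * (H k - H n)) := by
  induction k with
  | zero =>
    have h := c_harm n
    unfold UT
    rw [← sum_Ico_add' (fun i => c n i / ((i : ℚ) - ((0 : ℕ) : ℚ))) 0 n 1, H_zero, c_zero]
    rw [← range_eq_Ico]
    have : ∑ x ∈ range n, c n (x + 1) / (((x + 1 : ℕ) : ℚ) - ((0 : ℕ) : ℚ)) =
        ∑ j ∈ range n, c n (j + 1) / ((j : ℚ) + 1) := sum_congr rfl fun i _ => by push_cast; ring_nf
    rw [this, h]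
    unfold H
    ring
  | succ k ih =>
    have h1 := UT_rec n k (by omega)
    rw [ih (by omega)] at h1
    have h2 := c_rec n k
    have h3 : ((k : ℚ) + 1) ^ 2 ≠ 0 := by positivity
    apply mul_left_cancel₀ h3
    rw [h1, H_succ]
    have h4 : ((k : ℚ) + 1) * (1 / ((k : ℚ) + 1)) = 1 := by
      have : (k : ℚ) + 1 ≠ 0 := by positivity
      field_simp
    linear_combination (-2 * (H k - H n)) * h2 - 2 * ((k : ℚ) + 1) * c n (k + 1) * h4

end Pool.Agent.L7h22.D8
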