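import Mathlib
import Pool.Agent.K1H59.SC.B
import Pool.Agent.L7h22.D8.Exact
import Pool.Agent.L7h22.D8.Ode

/-!
# First order perturbations modulo `p^2`
-/

set_option autoImplicit false

namespace Pool.Agent.L7h22.D8

open Finset Pool.Agent.R439.PL Pool.Agent.L7h22.C42 Pool.Agent.K1H59.SC
open Pool.Agent.R488.Cub (H)

variable {p : ℕ} [hp : Fact p.Prime]

/-- `x = g (1 + p d)` modulo `p^2` -/
def P2 (p : ℕ) [Fact p.Prime] (x g d : ℚ) : Prop :=
  x ∈ Zp p ∧ g ∈ Zp p ∧ d ∈ Zp p ∧ I p 2 (x - g * (1 + p * d))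

variable {x y g g' d d' : ℚ}

theorem P2.const (hx : x ∈ Zp p) : P2 p x x 0 := ⟨hx, hx, zero_mem _, by
  have : x - x * (1 + p * 0) = 0 := by ring
  rw [this]; exact I.zero⟩

theorem P2.lin {a : ℚ} (hg : U p g) (ha : a ∈ Zp p) : P2 p (g + p * a) g (a / g) := by
  refine ⟨add_mem hg.2.1 (mul_mem p_mem ha), hg.2.1, ?_, ?_⟩
  · rw [div_eq_mul_inv]; exact mul_mem ha hg.2.2
  · have h0 := hg.1
    have : g + p * a - g * (1 + p * (a / g)) = 0 := by field_simp; ring
    rw [this]; exact I.zero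

theorem P2.mul (h : P2 p x g d) (h' : P2 p y g' d') : P2 p (x * y) (g * g') (d + d') := by
  obtain ⟨hx, hg, hd, h⟩ := h
  obtain ⟨hy, hg', hd', h'⟩ := h'
  refine ⟨mul_mem hx hy, mul_mem hg hg', add_mem hd hd', ?_⟩
  have e : x * y - g * g' * (1 + p * (d + d')) = (x - g * (1 + p * d)) * y +
      g * (1 + p * d) * (y - g' * (1 + p * d')) + (p : ℚ) ^ 2 * (g * g' * d * d') := by ring
  rw [e]
  refine ((h.mulR hy).add (h'.mulL ?_)).add ⟨_, ?_, rfl⟩
  · exact mul_mem hg (add_mem (one_mem _) (mul_mem p_mem hd))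
  · exact mul_mem (mul_mem (mul_mem hg hg') hd) hd'

theorem P2.unit (h : P2 p x g d) (hg : U p g) : U p x := by
  apply U_of_not_I h.1
  intro hI
  apply hg.not_I one_pos
  have e : g = x - (x - g * (1 + p * d)) - p * (g * d) := by ring
  rw [e]
  exact (hI.sub (h.2.2.2.mono (by norm_num))).sub ((I_p (p := p)).mulR (mul_mem h.2.1 h.2.2.1))

theorem P2.inv (h : P2 p x g d) (hg : U p g) : P2 p x⁻¹ g⁻¹ (-d) := by
  have hx := h.unit hg
  obtain ⟨-, -, hd, h⟩ := h
  refine ⟨hx.2.2, hg.2.2, neg_mem hd, ?_⟩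
  have h0 := hx.1
  have h1 := hg.1
  have e : x⁻¹ - g⁻¹ * (1 + p * -d) = -(x⁻¹ * g⁻¹ * (1 - p * d)) * (x - g * (1 + p * d)) +
      (p : ℚ) ^ 2 * (x⁻¹ * d ^ 2) := by
    field_simp
    ring
  rw [e]
  refine (h.mulL (neg_mem (mul_mem (mul_mem hx.2.2 hg.2.2) (sub_mem (one_mem _)
    (mul_mem p_mem hd))))).add ⟨_, mul_mem hx.2.2 (pow_mem hd 2), rfl⟩

theorem P2.div (h : P2 p x g d) (h' : P2 p y g' d') (hg' : U p g') :
    P2 p (x / y) (g / g') (d - d') := by
  rw [div_eq_mul_inv, div_eq_mul_inv, sub_eq_add_neg]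
  exact h.mul (h'.inv hg')

theorem P2.pow (h : P2 p x g d) (k : ℕ) : P2 p (x ^ k) (g ^ k) (k * d) := by
  induction k with
  | zero => rw [pow_zero, pow_zero, Nat.cast_zero, zero_mul]; exact P2.const (one_mem _)
  | succ k ih =>
    rw [pow_succ, pow_succ]
    have := ih.mul h
    have e : (k : ℚ) * d + d = ((k + 1 : ℕ) : ℚ) * d := by push_cast; ring
    rwa [e] at this

theorem P2.eq2 (h : P2 p x g d) : EQ p 2 x (g * (1 + p * d)) :=
  ⟨h.1, mul_mem h.2.1 (add_mem (one_mem _) (mul_mem p_mem h.2.2.1)), h.2.2.2⟩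

theorem P2.eq1 (h : P2 p x g d) : EQ p 1 x g := by
  refine (h.eq2.mono (by norm_num)).trans ⟨h.eq2.2.1, h.2.1, ?_⟩
  have : g * (1 + p * d) - g = p * (g * d) := by ring
  rw [this]
  exact (I_p (p := p)).mulR (mul_mem h.2.1 h.2.2.1)

theorem P2.of_EQ (hg : g ∈ Zp p) (hd : d ∈ Zp p) (h : EQ p 2 x (g * (1 + p * d))) :
    P2 p x g d := ⟨h.1, hg, hd, h.2.2⟩

theorem P2.congr (h : P2 p x g d) (h' : EQ p 1 d d') : P2 p x g d' := by
  obtain ⟨hx, hg, hd, h⟩ := h
  refine ⟨hx, hg, h'.2.1, ?_⟩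
  have e : x - g * (1 + p * d') = x - g * (1 + p * d) + g * (p * (d - d')) := by ring
  rw [e]
  exact h.add (((I_p (p := p)).mul h'.2.2).mulL hg)

theorem P2.trans (h : P2 p x g d) (h' : P2 p g g' d') : P2 p x g' (d + d') := by
  obtain ⟨hx, hg, hd, h⟩ := h
  obtain ⟨-, hg', hd', h'⟩ := h'
  refine ⟨hx, hg', add_mem hd hd', ?_⟩
  have e : x - g' * (1 + p * (d + d')) = (x - g * (1 + p * d)) +
      (1 + p * d) * (g - g' * (1 + p * d')) + (p : ℚ) ^ 2 * (g' * d * d') := by ring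
  rw [e]
  refine (h.add (h'.mulL (add_mem (one_mem _) (mul_mem p_mem hd)))).add ⟨_, ?_, rfl⟩
  exact mul_mem (mul_mem hg' hd) hd'

theorem c_mem (n k : ℕ) : c n k ∈ Zp p := by
  unfold c
  exact mul_mem (mul_mem (pow_mem (neg_mem (one_mem _)) _) (nat_mem _)) (nat_mem _)

theorem ee_mem (n k : ℕ) (hk : k < p) : ee n k ∈ Zp p := by
  induction k with
  | zero => rw [ee_zero]; exact zero_mem _
  | succ k ih =>
    have h := ee_rec n k
    have hu : U p (((k + 1 : ℕ) : ℚ)) := Unat (by omega) hk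
    have hu2 := hu.pow 2
    push_cast at hu2
    have e : ee n (k + 1) = (((k : ℚ) - n) * (k + n + 1) * ee n k + (2 * n + 1) * c n k) *
        (((k : ℚ) + 1) ^ 2)⁻¹ := by
      rw [eq_mul_inv_iff_mul_eq₀ hu2.1, mul_comm, h]
    rw [e]
    refine mul_mem (add_mem (mul_mem (mul_mem (sub_mem (nat_mem _) (nat_mem _)) ?_)
      (ih (by omega))) (mul_mem ?_ (c_mem n k))) hu2.2.2
    · have := nat_mem (p := p) (k + n + 1)
      push_cast at this; exact this
    · have := nat_mem (p := p) (2 * n + 1)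
      push_cast at this; exact this

/-- sequences with a perturbed recursion -/
theorem A_eq {n : ℕ} {t : ℚ} (ht : t ∈ Zp p) {A : ℕ → ℚ} (h0 : A 0 = 1)
    (hA : ∀ k : ℕ, ((k : ℚ) + 1) ^ 2 * A (k + 1) = ((k : ℚ) - n + p * t) * (k + n + 1 - p * t) * A k)
    (k : ℕ) (hk : k < p) : EQ p 2 (A k) (c n k + p * (t * ee n k)) := by
  induction k with
  | zero =>
    rw [h0, c_zero, ee_zero, mul_zero, mul_zero, add_zero]
    exact EQ.refl (one_mem _)
  | succ k ih =>
    have ih := ih (by omega)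
    have hu : U p (((k + 1 : ℕ) : ℚ)) := Unat (by omega) hk
    have hu2 := hu.pow 2
    push_cast at hu2
    have mR : c n (k + 1) + p * (t * ee n (k + 1)) ∈ Zp p :=
      add_mem (c_mem _ _) (mul_mem p_mem (mul_mem ht (ee_mem _ _ hk)))
    have mk : ((k : ℚ) - n + p * t) * (k + n + 1 - p * t) ∈ Zp p :=
      mul_mem (add_mem (sub_mem (nat_mem _) (nat_mem _)) (mul_mem p_mem ht))
        (sub_mem (add_mem (add_mem (nat_mem _) (nat_mem _)) (one_mem _)) (mul_mem p_mem ht))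
    have me := ee_mem (p := p) n k (by omega)
    have mc := c_mem (p := p) n k
    have hI : I p 2 (A (k + 1) - (c n (k + 1) + p * (t * ee n (k + 1)))) := by
      apply hu2.cancel
      have h1 := hA k
      have h2 := c_rec n k
      have h3 := ee_rec n k
      have e : ((k : ℚ) + 1) ^ 2 * (A (k + 1) - (c n (k + 1) + p * (t * ee n (k + 1)))) =
          ((k : ℚ) - n + p * t) * (k + n + 1 - p * t) * (A k - (c n k + p * (t * ee n k))) +
          (p : ℚ) ^ 2 * (t ^ 2 * ((2 * n + 1) * ee n k - c n k - p * (t * ee n k))) := by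
        linear_combination h1 - h2 - p * t * h3
      rw [e]
      refine (ih.2.2.mulL mk).add ⟨_, ?_, rfl⟩
      refine mul_mem (pow_mem ht 2) (sub_mem (sub_mem (mul_mem ?_ me) mc)
        (mul_mem p_mem (mul_mem ht me)))
      have := nat_mem (p := p) (2 * n + 1)
      push_cast at this; exact this
    refine ⟨?_, mR, hI⟩
    have : A (k + 1) = (A (k + 1) - (c n (k + 1) + p * (t * ee n (k + 1)))) +
      (c n (k + 1) + p * (t * ee n (k + 1))) := by ring
    rw [this]
    exact add_mem hI.mem mR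

theorem H_mem' {r : ℕ} (hr : r < p) : H r ∈ Zp p := H_mem hr

/-- coefficients of the deformed polynomials -/
theorem v_P2 {n : ℕ} (hn : 2 * n < p) {b e : ℚ} (hb : b ∈ Zp p) (he : e ∈ Zp p) (k : ℕ)
    (hk : k ≤ n) : P2 p (hg (-n) (n + 1 - p * b) (1 - p * e) k) (c n k)
      (-(b * (H (n + k) - H n)) + e * H k) := by
  induction k with
  | zero =>
    rw [hg_zero, c_zero, add_zero, sub_self, mul_zero, neg_zero, H_zero, mul_zero, add_zero]
    exact P2.const (one_mem _)
  | succ k ih =>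
    have ih := ih (by omega)
    rw [hg_succ]
    have u1 : U p (((n + 1 + k : ℕ) : ℚ)) := Unat (by omega) (by omega)
    have u2 : U p (((k + 1 : ℕ) : ℚ)) := Unat (by omega) (by omega)
    have m1 : (-(n : ℚ) + k) ∈ Zp p := add_mem (neg_mem (nat_mem _)) (nat_mem _)
    have q1 := (P2.const m1).mul (P2.lin (a := -b) u1 (neg_mem hb))
    have q2 := (P2.lin (a := -e) u2 (neg_mem he)).mul (P2.const u2.2.1)
    have q3 := ih.mul (q1.div q2 (u2.mul u2))
    have e1 : (-(n : ℚ) + k) * (((n + 1 + k : ℕ) : ℚ) + p * -b) / ((((k + 1 : ℕ) : ℚ) + p * -e) *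
        ((k + 1 : ℕ) : ℚ)) = (-(n : ℚ) + k) * (n + 1 - p * b + k) / ((1 - p * e + k) * (k + 1)) := by
      push_cast
      congr 1
      · ring
      · ring
    have e2 : c n k * ((-(n : ℚ) + k) * ((n + 1 + k : ℕ) : ℚ) / (((k + 1 : ℕ) : ℚ) * ((k + 1 : ℕ) : ℚ))) =
        c n (k + 1) := by
      have h2 := c_rec n k
      have h3 : ((k : ℚ) + 1) ≠ 0 := by positivity
      push_cast
      field_simp
      linear_combination -h2
    have e3 : -(b * (H (n + k) - H n)) + e * H k + (0 + -b / ((n + 1 + k : ℕ) : ℚ) -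
        (-e / ((k + 1 : ℕ) : ℚ) + 0)) = -(b * (H (n + (k + 1)) - H n)) + e * H (k + 1) := by
      rw [show n + (k + 1) = n + k + 1 by ring, H_succ, H_succ]
      push_cast
      have h3 : ((k : ℚ) + 1) ≠ 0 := by positivity
      have h4 : ((n : ℚ) + 1 + k) ≠ 0 := by positivity
      have h5 : ((n : ℚ) + k + 1) ≠ 0 := by positivity
      field_simp
      ring
    rw [e1, e2, e3] at q3
    exact q3

/-- perturbed binomial coefficients -/
theorem R_P2 {m : ℕ} (hm : m < p) {a e : ℚ} (ha : a ∈ Zp p) (he : e ∈ Zp p) (k : ℕ) (hk : k ≤ m) :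
    P2 p (∏ i ∈ range k, ((-(m : ℚ) + p * a + i) / (1 - p * e + i))) ((-1) ^ k * (m.choose k : ℚ))
      (-(a * (H m - H (m - k))) + e * H k) := by
  induction k with
  | zero =>
    rw [range_zero, prod_empty, pow_zero, Nat.choose_zero_right, Nat.sub_zero, sub_self, mul_zero,
      neg_zero, H_zero, mul_zero, add_zero, Nat.cast_one, mul_one]
    exact P2.const (one_mem _)
  | succ k ih =>
    have ih := ih (by omega)
    rw [prod_range_succ]
    have u1 : U p (((m - k : ℕ) : ℚ)) := Unat (by omega) (by omega)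
    have u1' : U p (((-1 : ℤ) : ℚ)) := Uint (by norm_num) (by have := hp.out.pos; omega)
      (by have := hp.out.one_lt; omega)
    have u2 : U p (((k + 1 : ℕ) : ℚ)) := Unat (by omega) (by omega)
    have q1 := P2.lin (a := a) (u1'.mul u1) ha
    have q2 := P2.lin (a := -e) u2 (neg_mem he)
    have q3 := ih.mul (q1.div q2 u2)
    have hk' : ((m - k : ℕ) : ℚ) = (m : ℚ) - k := by rw [Nat.cast_sub (by omega)]
    have hmk : ((m : ℚ) - k) ≠ 0 := by rw [← hk']; exact u1.1
    have h3 : ((k : ℚ) + 1) ≠ 0 := by positivity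
    have e1 : (((-1 : ℤ) : ℚ) * ((m - k : ℕ) : ℚ) + p * a) / (((k + 1 : ℕ) : ℚ) + p * -e) =
        (-(m : ℚ) + p * a + k) / (1 - p * e + k) := by
      rw [hk']
      push_cast
      congr 1
      · ring
      · ring
    have e2 : (-1) ^ k * (m.choose k : ℚ) * (((-1 : ℤ) : ℚ) * ((m - k : ℕ) : ℚ) / ((k + 1 : ℕ) : ℚ)) =
        (-1) ^ (k + 1) * (m.choose (k + 1) : ℚ) := by
      have h2 := Nat.choose_succ_right_eq m k
      have h2' : (m.choose (k + 1) : ℚ) * (k + 1) = m.choose k * ((m - k : ℕ) : ℚ) := by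
        exact_mod_cast h2
      push_cast
      field_simp
      rw [pow_succ]
      linear_combination (-1) ^ k * h2'
    have e3 : -(a * (H m - H (m - k))) + e * H k + (a / (((-1 : ℤ) : ℚ) * ((m - k : ℕ) : ℚ)) -
        -e / ((k + 1 : ℕ) : ℚ)) = -(a * (H m - H (m - (k + 1)))) + e * H (k + 1) := by
      rw [show m - k = m - (k + 1) + 1 by omega, H_succ, H_succ]
      have h5 : ((m - (k + 1) + 1 : ℕ) : ℚ) = (m : ℚ) - k := by
        rw [show m - (k + 1) + 1 = m - k by omega, hk']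
      have h6 : ((m - (k + 1) : ℕ) : ℚ) + 1 = (m : ℚ) - k := by
        rw [← h5]; push_cast; ring
      rw [h5, h6]
      push_cast
      field_simp
      ring
    rw [e1, e2, e3] at q3
    exact q3

end Pool.Agent.L7h22.D8
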