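import Mathlib
import Pool.Agent.R488.Cub.Harm
import Pool.Agent.L7h22.D8.Per

/-!
# Harmonic numbers of `p/2`, `p/3`, `p/4` modulo `p`, and powers of `2` and `3` modulo `p^2`
-/

set_option autoImplicit false

namespace Pool.Agent.L7h22.D8

open Finset Pool.Agent.R439.PL Pool.Agent.K1H59.SC
open Pool.Agent.R488.Cub (H)

variable {p : ℕ} [hp : Fact p.Prime]

/-! ### the power of two -/

def ev (K N : ℕ) : ℚ := ∑ i ∈ range K, (N.choose (2 * i) : ℚ)
def od (K N : ℕ) : ℚ := ∑ i ∈ range K, (N.choose (2 * i + 1) : ℚ)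

theorem od_succ (K N : ℕ) : od K (N + 1) = ev K N + od K N := by
  unfold ev od
  rw [← sum_add_distrib]
  exact sum_congr rfl fun i _ => by rw [Nat.choose_succ_succ]; push_cast; ring

theorem ev_succ (K N : ℕ) (h : N < 2 * K - 1) (hK : 0 < K) : ev K (N + 1) = ev K N + od K N := by
  obtain ⟨k, rfl⟩ : ∃ k, K = k + 1 := ⟨K - 1, by omega⟩
  unfold ev od
  rw [sum_range_succ', sum_range_succ' (fun i => (N.choose (2 * i) : ℚ)), sum_range_succ
    (fun i => (N.choose (2 * i + 1) : ℚ)), Nat.choose_eq_zero_of_lt (show N < 2 * k + 1 by omega)]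
  have : ∀ i ∈ range k, ((N + 1).choose (2 * (i + 1)) : ℚ) =
      (N.choose (2 * i + 1) : ℚ) + (N.choose (2 * (i + 1)) : ℚ) := by
    intro i _
    rw [show 2 * (i + 1) = 2 * i + 1 + 1 by ring, Nat.choose_succ_succ]
    push_cast; ring
  rw [sum_congr rfl this, sum_add_distrib]
  simp
  ring

theorem ev_od (K N : ℕ) (hK : 0 < K) (h : N ≤ 2 * K - 1) : ev K N + od K N = 2 ^ N := by
  induction N with
  | zero =>
    obtain ⟨k, rfl⟩ : ∃ k, K = k + 1 := ⟨K - 1, by omega⟩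
    unfold ev od
    rw [sum_range_succ']
    simp [Nat.choose_eq_zero_of_lt]
  | succ N ih =>
    rw [ev_succ K N (by omega) hK, od_succ, ih (by omega), pow_succ]
    ring

theorem two_pow {h : ℕ} (hh : p = 2 * h + 1) : P2 p (2 ^ (2 * h)) 1 (-(1 / 2 * H h)) := by
  have h2 : p ≠ 2 := by omega
  have g := Pool.Agent.R488.Cub.HarmP.gen (p := p) 2 h (by norm_num) (by omega) (fun _ => 1) (by
    intro i
    rw [pow_add, pow_mul]; norm_num)
  have e : ∑ i ∈ range h, (((fun _ => 1 : ℕ → ℤ) i : ℤ) : ℚ) * (p.choose (2 * (i + 1)) : ℚ) =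
      2 ^ (2 * h) - 1 := by
    simp only [Int.cast_one, one_mul]
    have h3 := ev_succ (h + 1) (2 * h) (by omega) (by omega)
    rw [ev_od (h + 1) (2 * h) (by omega) (by omega), ← hh] at h3
    unfold ev at h3
    rw [sum_range_succ'] at h3
    simp only [mul_zero, Nat.choose_zero_right, Nat.cast_one] at h3
    linarith
  rw [e] at g
  have m := H_mem (p := p) (r := h) (by omega)
  have hm := half_mem (p := p) h2
  refine ⟨pow_mem ?_ _, one_mem _, neg_mem (mul_mem hm m), ?_⟩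
  · have := nat_mem (p := p) 2
    exact_mod_cast this
  · have e2 : (2 : ℚ) ^ (2 * h) - 1 * (1 + p * -(1 / 2 * H h)) =
        (1 / 2) * (p * H h - -((2 : ℕ) : ℚ) * (2 ^ (2 * h) - 1)) := by push_cast; ring
    rw [e2]
    exact g.2.2.mulL hm

/-! ### the power of three -/

def ta (K N : ℕ) : ℚ := ∑ i ∈ range K, (-1) ^ i * (N.choose (3 * i) : ℚ)
def tb (K N : ℕ) : ℚ := ∑ i ∈ range K, (-1) ^ i * (N.choose (3 * i + 1) : ℚ)
def tc (K N : ℕ) : ℚ := ∑ i ∈ range K, (-1) ^ i * (N.choose (3 * i + 2) : ℚ)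

theorem tb_succ (K N : ℕ) : tb K (N + 1) = tb K N + ta K N := by
  unfold ta tb
  rw [← sum_add_distrib]
  exact sum_congr rfl fun i _ => by rw [Nat.choose_succ_succ]; push_cast; ring

theorem tc_succ (K N : ℕ) : tc K (N + 1) = tc K N + tb K N := by
  unfold tc tb
  rw [← sum_add_distrib]
  exact sum_congr rfl fun i _ => by
    rw [show 3 * i + 2 = 3 * i + 1 + 1 by ring, Nat.choose_succ_succ]; push_cast; ring

theorem ta_succ (K N : ℕ) (h : N < 3 * K - 1) (hK : 0 < K) : ta K (N + 1) = ta K N - tc K N := by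
  obtain ⟨k, rfl⟩ : ∃ k, K = k + 1 := ⟨K - 1, by omega⟩
  unfold ta tc
  rw [sum_range_succ', sum_range_succ' (fun i => (-1) ^ i * (N.choose (3 * i) : ℚ)), sum_range_succ
    (fun i => (-1) ^ i * (N.choose (3 * i + 2) : ℚ)),
    Nat.choose_eq_zero_of_lt (show N < 3 * k + 2 by omega)]
  have : ∀ i ∈ range k, (-1) ^ (i + 1) * ((N + 1).choose (3 * (i + 1)) : ℚ) =
      -((-1) ^ i * (N.choose (3 * i + 2) : ℚ)) + (-1) ^ (i + 1) * (N.choose (3 * (i + 1)) : ℚ) := by
    intro i _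
    rw [show 3 * (i + 1) = 3 * i + 2 + 1 by ring, Nat.choose_succ_succ]
    push_cast; ring
  rw [sum_congr rfl this, sum_add_distrib, sum_neg_distrib]
  simp
  ring

theorem t_plane (K N : ℕ) (h : N < 3 * K - 1) (hK : 0 < K) :
    ta K (N + 1) - tb K (N + 1) + tc K (N + 1) = 0 := by
  rw [ta_succ K N h hK, tb_succ, tc_succ]; ring

theorem ta_six (K N : ℕ) (h : N + 6 < 3 * K - 1) (hK : 0 < K) :
    ta K (N + 7) = -27 * ta K (N + 1) := by
  have a1 := t_plane K N (by omega) hK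
  have a2 := t_plane K (N + 1) (by omega) hK
  have e2 := ta_succ K (N + 1) (by omega) hK
  have e3 := ta_succ K (N + 2) (by omega) hK
  have e4 := ta_succ K (N + 3) (by omega) hK
  have e5 := ta_succ K (N + 4) (by omega) hK
  have e6 := ta_succ K (N + 5) (by omega) hK
  have e7 := ta_succ K (N + 6) (by omega) hK
  have b2 := tb_succ K (N + 1)
  have b3 := tb_succ K (N + 2)
  have b4 := tb_succ K (N + 3)
  have b5 := tb_succ K (N + 4)
  have b6 := tb_succ K (N + 5)
  have c2 := tc_succ K (N + 1)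
  have c3 := tc_succ K (N + 2)
  have c4 := tc_succ K (N + 3)
  have c5 := tc_succ K (N + 4)
  have c6 := tc_succ K (N + 5)
  simp only [show N + 1 + 1 = N + 2 by ring, show N + 2 + 1 = N + 3 by ring,
    show N + 3 + 1 = N + 4 by ring, show N + 4 + 1 = N + 5 by ring, show N + 5 + 1 = N + 6 by ring,
    show N + 6 + 1 = N + 7 by ring] at *
  linarith

theorem t_zero (K : ℕ) (hK : 0 < K) : ta K 0 = 1 ∧ tb K 0 = 0 ∧ tc K 0 = 0 := by
  obtain ⟨k, rfl⟩ : ∃ k, K = k + 1 := ⟨K - 1, by omega⟩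
  refine ⟨?_, ?_, ?_⟩
  · unfold ta; rw [sum_range_succ']; simp [Nat.choose_eq_zero_of_lt]
  · unfold tb; simp [Nat.choose_eq_zero_of_lt]
  · unfold tc; simp [Nat.choose_eq_zero_of_lt]

theorem ta_one (K j : ℕ) (h : 6 * j < 3 * K - 1) (hK : 0 < K) : ta K (6 * j + 1) = (-27) ^ j := by
  induction j with
  | zero =>
    obtain ⟨h1, h2, h3⟩ := t_zero K hK
    rw [mul_zero, ta_succ K 0 (by omega) hK, h1, h3]; norm_num
  | succ j ih =>
    have := ta_six K (6 * j) (by omega) hK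
    rw [show 6 * (j + 1) + 1 = 6 * j + 7 by ring, this, ih (by omega), pow_succ]
    ring

theorem ta_five (K j : ℕ) (h : 6 * j + 4 < 3 * K - 1) (hK : 0 < K) :
    ta K (6 * j + 5) = -9 * (-27) ^ j := by
  induction j with
  | zero =>
    obtain ⟨h1, h2, h3⟩ := t_zero K hK
    have e1 := ta_succ K 0 (by omega) hK
    have e2 := ta_succ K 1 (by omega) hK
    have e3 := ta_succ K 2 (by omega) hK
    have e4 := ta_succ K 3 (by omega) hK
    have e5 := ta_succ K 4 (by omega) hK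
    have b1 := tb_succ K 0
    have b2 := tb_succ K 1
    have b3 := tb_succ K 2
    have b4 := tb_succ K 3
    have c1 := tc_succ K 0
    have c2 := tc_succ K 1
    have c3 := tc_succ K 2
    have c4 := tc_succ K 3
    norm_num at *
    linarith
  | succ j ih =>
    have := ta_six K (6 * j + 4) (by omega) hK
    rw [show 6 * (j + 1) + 5 = 6 * j + 4 + 7 by ring, this, show 6 * j + 4 + 1 = 6 * j + 5 by ring,
      ih (by omega), pow_succ]
    ring

theorem third_mem (h3 : p ≠ 3) : (1 / 3 : ℚ) ∈ Zp p := by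
  have : U p ((3 : ℤ) : ℚ) := U_int fun h => by
    have h4 : p ∣ 3 := by exact_mod_cast h
    exact h3 ((Nat.prime_dvd_prime_iff_eq hp.out Nat.prime_three).1 h4)
  have h5 := this.2.2
  rw [one_div]
  exact_mod_cast h5

theorem three_P2 {n : ℕ} (h3 : p ≠ 3) (hn : p = 3 * n + 1 ∨ p = 3 * n + 2) :
    P2 p (ta (n + 1) p) 1 (-(1 / 3 * H n)) := by
  have g := Pool.Agent.R488.Cub.HarmP.gen (p := p) 3 n (by norm_num) (by omega)
    (fun i => (-1) ^ (i + 1)) (by
      intro i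
      push_cast
      rw [← pow_add]
      have : i + 1 + (3 * i + (3 - 1)) = 2 * (2 * i + 1) + 1 := by omega
      rw [this, pow_succ, pow_mul]; norm_num)
  have e : ∑ i ∈ range n, (((fun i => (-1) ^ (i + 1) : ℕ → ℤ) i : ℤ) : ℚ) *
      (p.choose (3 * (i + 1)) : ℚ) = ta (n + 1) p - 1 := by
    unfold ta
    rw [sum_range_succ']
    push_cast
    simp
  rw [e] at g
  have m := H_mem (p := p) (r := n) (by omega)
  have hm := third_mem (p := p) h3
  have mt : ta (n + 1) p ∈ Zp p := by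
    unfold ta
    exact sum_mem fun i _ => mul_mem (pow_mem (neg_mem (one_mem _)) _) (nat_mem _)
  refine ⟨mt, one_mem _, neg_mem (mul_mem hm m), ?_⟩
  have e2 : ta (n + 1) p - 1 * (1 + p * -(1 / 3 * H n)) =
      (1 / 3) * (p * H n - -((3 : ℕ) : ℚ) * (ta (n + 1) p - 1)) := by push_cast; ring
  rw [e2]
  exact g.2.2.mulL hm

/-- the power of three with its sign -/
theorem rho_P2 {n h : ℕ} (h3 : p ≠ 3) (hh : p = 2 * h + 1) (hn : p = 3 * n + 1 ∨ p = 3 * n + 2) :
    P2 p ((-1) ^ n * 3 ^ h) ((-1) ^ h) (-(1 / 3 * H n)) := by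
  have h1 := three_P2 h3 hn
  have u1 : ((-1 : ℚ)) ^ h ∈ Zp p := pow_mem (neg_mem (one_mem _)) _
  have h4 := (P2.const u1).mul h1
  rw [mul_one, zero_add] at h4
  have e : (-1) ^ h * ta (n + 1) p = (-1) ^ n * 3 ^ h := by
    rcases hn with hn | hn
    · obtain ⟨j, hj⟩ : ∃ j, n = 2 * j := ⟨n / 2, by omega⟩
      have hp' : p = 6 * j + 1 := by omega
      have hh' : h = 3 * j := by omega
      rw [hp', ta_one _ _ (by omega) (by omega), hh', hj, pow_mul, pow_mul (-1 : ℚ) 2 j,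
        pow_mul (3 : ℚ) 3 j, ← mul_pow, ← mul_pow]
      norm_num
    · obtain ⟨j, hj⟩ : ∃ j, n = 2 * j + 1 := ⟨n / 2, by omega⟩
      have hp' : p = 6 * j + 5 := by omega
      have hh' : h = 3 * j + 2 := by omega
      have e1 : ((-27 : ℚ)) ^ j = (-1) ^ j * 27 ^ j := by rw [← mul_pow]; norm_num
      have e2 : ((-1 : ℚ)) ^ j * (-1) ^ j = 1 := by rw [← mul_pow]; norm_num
      have e3 : ((-1 : ℚ)) ^ (2 * j + 1) = -1 := by rw [pow_succ, pow_mul]; norm_num
      have e4 : ((-1 : ℚ)) ^ (3 * j + 2) = (-1) ^ j := by rw [pow_add, pow_mul]; norm_num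
      have e5 : (3 : ℚ) ^ (3 * j + 2) = 9 * 27 ^ j := by rw [pow_add, pow_mul]; norm_num; ring
      rw [hp', ta_five _ _ (by omega) (by omega), hh', hj, e1, e3, e4, e5]
      linear_combination (-(9 : ℚ) * 27 ^ j) * e2
  rw [e] at h4
  exact h4

/-! ### duplication -/

theorem H_two (r : ℕ) : H (2 * r) = 1 / 2 * H r + O r := by
  induction r with
  | zero => simp [H_zero, O]
  | succ r ih =>
    rw [show 2 * (r + 1) = 2 * r + 1 + 1 by ring, H_succ, H_succ, H_succ, ih, O, O, sum_range_succ]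
    push_cast
    have h1 : (r : ℚ) + 1 ≠ 0 := by positivity
    have h2 : 2 * (r : ℚ) + 1 ≠ 0 := by positivity
    have h3 : 2 * (r : ℚ) + 1 + 1 ≠ 0 := by positivity
    field_simp
    ring

theorem dup {h r : ℕ} (hh : p = 2 * h + 1) (hr : r ≤ h) :
    EQ p 1 (2 * H (2 * r)) (H r + H (h - r) - H h) := by
  have h1 := O_eq hh hr
  have h2 := U2 (p := p) (by omega)
  have h3 := (EQ.refl (p := p) (k := 1) (H_mem (r := r) (by omega))).add
    ((EQ.refl (p := p) (k := 1) h2.2.1).mul h1)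
  have e1 : H r + 2 * O r = 2 * H (2 * r) := by rw [H_two]; ring
  have e2 : H r + 2 * (-(1 / 2) * (H h - H (h - r))) = H r + H (h - r) - H h := by ring
  rw [e1, e2] at h3
  exact h3

theorem H_quarter {h m : ℕ} (hh : p = 2 * h + 1) (hm : h = 2 * m ∨ h = 2 * m + 1) :
    EQ p 1 (2 * H m) (3 * H h) := by
  have mh := H_mem (p := p) (r := h) (by omega)
  have mm := H_mem (p := p) (r := m) (by omega)
  have m2 : (2 : ℚ) ∈ Zp p := by exact_mod_cast nat_mem (p := p) 2
  have m3 : (3 : ℚ) ∈ Zp p := by exact_mod_cast nat_mem (p := p) 3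
  refine ⟨mul_mem m2 mm, mul_mem m3 mh, ?_⟩
  rcases hm with hm | hm
  · have h1 := dup (r := m) hh (by omega)
    rw [← hm, show h - m = m by omega] at h1
    have e : 2 * H m - 3 * H h = -(2 * H h - (H m + H m - H h)) := by ring
    rw [e]
    exact h1.2.2.neg
  · have h1 := dup (r := m) hh (by omega)
    rw [show h - m = m + 1 by omega, H_succ] at h1
    have h2 : H h = H (2 * m) + 1 / ((2 * m : ℕ) + 1 : ℚ) := by rw [hm, H_succ]
    have u1 : U p (((m + 1 : ℕ) : ℚ)) := Unat (by omega) (by omega)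
    have u2 : U p (((2 * m + 1 : ℕ) : ℚ)) := Unat (by omega) (by omega)
    have e : 2 * H m - 3 * H h = -(2 * H (2 * m) - (H m + (H m + 1 / ((m : ℚ) + 1)) - H h)) -
        p * ((((m + 1 : ℕ) : ℚ))⁻¹ * (((2 * m + 1 : ℕ) : ℚ))⁻¹) := by
      have hpq : (p : ℚ) = 4 * m + 3 := by rw [hh, hm]; push_cast; ring
      have h3 : H (2 * m) = H h - 1 / ((2 * m : ℕ) + 1 : ℚ) := by rw [h2]; ring
      rw [h3, hpq]
      push_cast
      have h4 : (m : ℚ) + 1 ≠ 0 := by positivity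
      have h5 : 2 * (m : ℚ) + 1 ≠ 0 := by positivity
      field_simp
      ring
    rw [e]
    exact h1.2.2.neg.sub ((I_p (p := p)).mulR (mul_mem u1.2.2 u2.2.2))

/-- square roots -/
theorem P2.sqrt {x σ d : ℚ} (h2 : p ≠ 2) (hσ : σ ^ 2 = 1) (h1 : EQ p 1 x σ) (h : P2 p (x ^ 2) 1 d) :
    P2 p x σ (d / 2) := by
  have hm := half_mem (p := p) h2
  have md : d / 2 ∈ Zp p := by
    rw [div_eq_mul_one_div]; exact mul_mem h.2.2.1 hm
  refine ⟨h1.1, h1.2.1, md, ?_⟩
  have hσu : U p σ := by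
    have h0 : σ ≠ 0 := by rintro rfl; norm_num at hσ
    refine ⟨h0, h1.2.1, ?_⟩
    have : σ⁻¹ = σ := by
      field_simp
      linear_combination -hσ
    rw [this]; exact h1.2.1
  have hu : U p (x + σ * (1 + p * (d / 2))) := by
    have h3 : EQ p 1 (2 * σ) (x + σ * (1 + p * (d / 2))) := by
      refine ⟨mul_mem (U2 h2).2.1 h1.2.1, add_mem h1.1 (mul_mem h1.2.1 (add_mem (one_mem _)
        (mul_mem p_mem md))), ?_⟩
      have e : 2 * σ - (x + σ * (1 + p * (d / 2))) = -(x - σ) - p * (σ * (d / 2)) := by ring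
      rw [e]
      exact h1.2.2.neg.sub ((I_p (p := p)).mulR (mul_mem h1.2.1 md))
    exact h3.unit one_pos ((U2 h2).mul hσu)
  apply hu.cancel
  have e : (x + σ * (1 + p * (d / 2))) * (x - σ * (1 + p * (d / 2))) =
      (x ^ 2 - 1 * (1 + p * d)) - (p : ℚ) ^ 2 * (d / 2) ^ 2 := by
    linear_combination (-(1 + p * (d / 2)) ^ 2) * hσ
  rw [e]
  exact h.2.2.2.sub ⟨_, pow_mem md 2, rfl⟩

/-- Euler's criterion -/
theorem euler {h : ℕ} (hh : p = 2 * h + 1) (a : ℤ) : EQ p 1 ((a : ℚ) ^ h) ((legendreSym p a : ℤ) : ℚ) := by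
  refine ⟨pow_mem (int_mem a) _, int_mem _, ?_⟩
  have h1 := legendreSym.eq_pow p a
  rw [show p / 2 = h by omega] at h1
  have h2 : (p : ℤ) ∣ legendreSym p a - a ^ h := by
    rw [← ZMod.intCast_eq_intCast_iff_dvd_sub]
    push_cast
    exact h1.symm
  obtain ⟨c, hc⟩ := h2
  refine ⟨-c, neg_mem (int_mem c), ?_⟩
  have h3 : ((legendreSym p a : ℤ) : ℚ) - (a : ℚ) ^ h = p * c := by exact_mod_cast hc
  linear_combination -h3

theorem leg_two {r : ℕ} (hr : p = 8 * r + 1 ∨ p = 8 * r + 3) {h : ℕ} (hh : p = 2 * h + 1) :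
    legendreSym p 2 = (-1) ^ h := by
  rw [legendreSym.at_two (by omega), ZMod.χ₈_nat_eq_if_mod_eight]
  rcases hr with hr | hr
  · rw [if_neg (by omega), if_pos (by omega)]
    have : h = 2 * (2 * r) := by omega
    rw [this, pow_mul]; norm_num
  · rw [if_neg (by omega), if_neg (by omega)]
    have : h = 2 * (2 * r) + 1 := by omega
    rw [this, pow_succ, pow_mul]; norm_num

theorem two_h_P2 {r : ℕ} (hr : p = 8 * r + 1 ∨ p = 8 * r + 3) {h : ℕ} (hh : p = 2 * h + 1) :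
    P2 p (2 ^ h) ((-1) ^ h) (-(1 / 4 * H h)) := by
  have h1 := two_pow hh
  have h2 := euler hh 2
  rw [leg_two hr hh] at h2
  push_cast at h2
  rw [mul_comm 2 h, pow_mul] at h1
  have h3 := P2.sqrt (by omega) (by rw [← pow_mul, mul_comm, pow_mul]; norm_num) h2 h1
  have e : -(1 / 2 * H h) / 2 = -(1 / 4 * H h) := by ring
  rwa [e] at h3

end Pool.Agent.L7h22.D8
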