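import Mathlib
import Pool.Agent.L7h22.D8.Har

/-!
# The value of the level two polynomial at `-1` modulo `p^2`
-/

set_option autoImplicit false

namespace Pool.Agent.L7h22.D8

open Finset Pool.Agent.R439.PL Pool.Agent.K1H59.SC
open Pool.Agent.R488.Cub (H)

section exact
open Polynomial

theorem coeff_neg (N k : ℕ) : ((1 - X : ℚ[X]) ^ N).coeff k = (-1) ^ k * (N.choose k : ℚ) := by
  have h : (1 - X : ℚ[X]) ^ N = ((1 + X : ℚ[X]) ^ N).comp (C (-1) * X) := by
    rw [pow_comp, add_comp, one_comp, X_comp]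
    congr 1
    rw [C_neg, C_1]; ring
  rw [h, comp_C_mul_X_coeff, coeff_one_add_X_pow]
  ring

theorem altsum_even (N r : ℕ) : ∑ k ∈ range (2 * r + 1), (-1) ^ k * (N.choose k : ℚ) *
    (N.choose (2 * r - k) : ℚ) = (-1) ^ r * (N.choose r : ℚ) := by
  have h : ((1 - X : ℚ[X]) ^ N * (1 + X) ^ N) = expand ℚ 2 ((1 - X : ℚ[X]) ^ N) := by
    rw [← mul_pow, map_pow, map_sub, map_one, expand_X]
    congr 1
    ring
  have h2 : ((1 - X : ℚ[X]) ^ N * (1 + X) ^ N).coeff (2 * r) =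
      (expand ℚ 2 ((1 - X : ℚ[X]) ^ N)).coeff (2 * r) := by rw [h]
  rw [coeff_mul, mul_comm 2 r, coeff_expand_mul (by norm_num), coeff_neg,
    Finset.Nat.sum_antidiagonal_eq_sum_range_succ_mk] at h2
  simp only [coeff_neg, coeff_one_add_X_pow] at h2
  rw [mul_comm 2 r]
  exact h2

end exact

variable {p : ℕ} [hp : Fact p.Prime]

/-- the value -/
def gv (p m : ℕ) : ℚ := ∑ k ∈ range (m + 1), hg (-m) (-m + p * (1 / 3)) (1 - p * (1 / 6)) k * (-1) ^ k

theorem sixth_mem (h2 : p ≠ 2) (h3 : p ≠ 3) : (1 / 6 : ℚ) ∈ Zp p := by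
  have := mul_mem (half_mem (p := p) h2) (third_mem h3)
  norm_num at this ⊢
  exact this

theorem gcoef (h2 : p ≠ 2) (h3 : p ≠ 3) {m : ℕ} (hm : m < p) (k : ℕ) (hk : k ≤ m) :
    P2 p (hg (-m) (-m + p * (1 / 3)) (1 - p * (1 / 6)) k) ((m.choose k : ℚ) ^ 2)
      (-(1 / 3 * (H m - H (m - k))) + 1 / 6 * H k) := by
  have q1 := R_P2 (p := p) hm (a := 0) (e := 0) (zero_mem _) (zero_mem _) k hk
  have q2 := R_P2 (p := p) hm (third_mem h3) (sixth_mem h2 h3) k hk
  have q3 := q1.mul q2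
  rw [← prod_mul_distrib] at q3
  have e1 : (∏ i ∈ range k, ((-(m : ℚ) + p * 0 + i) / (1 - p * 0 + i) *
      ((-(m : ℚ) + p * (1 / 3) + i) / (1 - p * (1 / 6) + i)))) =
      hg (-m) (-m + p * (1 / 3)) (1 - p * (1 / 6)) k := by
    unfold hg
    refine prod_congr rfl fun i _ => ?_
    rw [div_mul_div_comm]
    congr 1
    · ring
    · ring
  have e2 : (-1) ^ k * (m.choose k : ℚ) * ((-1) ^ k * (m.choose k : ℚ)) = (m.choose k : ℚ) ^ 2 := by
    have : ((-1 : ℚ)) ^ k * (-1) ^ k = 1 := by rw [← mul_pow]; norm_num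
    linear_combination (m.choose k : ℚ) ^ 2 * this
  have e3 : -(0 * (H m - H (m - k))) + 0 * H k + (-(1 / 3 * (H m - H (m - k))) + 1 / 6 * H k) =
      -(1 / 3 * (H m - H (m - k))) + 1 / 6 * H k := by ring
  rw [e1, e2, e3] at q3
  exact q3

omit hp in
theorem chooseP (m : ℕ) (k : ℕ) : ((m + p).choose k : ℚ) =
    (-1) ^ k * ∏ i ∈ range k, ((-(m : ℚ) + p * (-1) + i) / (1 - p * 0 + i)) := by
  induction k with
  | zero => simp
  | succ k ih =>
    rw [prod_range_succ, pow_succ]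
    have h := Nat.choose_succ_right_eq (m + p) k
    have h3 : ((k : ℚ) + 1) ≠ 0 := by positivity
    have h1 : ((m + p).choose (k + 1) : ℚ) * (k + 1) = ((m + p).choose k : ℚ) * ((m : ℚ) + p - k) := by
      rcases Nat.lt_or_ge (m + p) k with h4 | h4
      · rw [Nat.choose_eq_zero_of_lt (by omega), Nat.choose_eq_zero_of_lt h4]; simp
      · have h5 : (((m + p).choose (k + 1) * (k + 1) : ℕ) : ℚ) = (((m + p).choose k * (m + p - k) : ℕ) : ℚ) := by
          rw [h]
        rw [Nat.cast_mul, Nat.cast_mul, Nat.cast_sub h4] at h5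
        push_cast at h5
        exact h5
    have h6 : ((m + p).choose (k + 1) : ℚ) = ((m + p).choose k : ℚ) * (((m : ℚ) + p - k) / (k + 1)) := by
      rw [mul_div_assoc', eq_div_iff h3, h1]
    rw [h6, ih]
    have h7 : (1 - (p : ℚ) * 0 + k) = k + 1 := by ring
    rw [h7]
    field_simp
    ring

theorem choose_P2 {m : ℕ} (hm : m < p) (k : ℕ) (hk : k ≤ m) :
    P2 p ((m + p).choose k : ℚ) (m.choose k : ℚ) (H m - H (m - k)) := by
  have q1 := R_P2 (p := p) hm (a := -1) (e := 0) (neg_mem (one_mem _)) (zero_mem _) k hk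
  have q2 := (P2.const (p := p) (x := (-1) ^ k) (pow_mem (neg_mem (one_mem _)) _)).mul q1
  rw [← chooseP] at q2
  have e2 : (-1) ^ k * ((-1) ^ k * (m.choose k : ℚ)) = (m.choose k : ℚ) := by
    have : ((-1 : ℚ)) ^ k * (-1) ^ k = 1 := by rw [← mul_pow]; norm_num
    linear_combination (m.choose k : ℚ) * this
  have e3 : 0 + (-(-1 * (H m - H (m - k))) + 0 * H k) = H m - H (m - k) := by ring
  rw [e2, e3] at q2
  exact q2

/-- the even case -/
theorem g_even (h2 : p ≠ 2) (h3 : p ≠ 3) {r : ℕ} (hm : 2 * r < p) :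
    P2 p (gv p (2 * r)) ((-1) ^ r * ((2 * r).choose r : ℚ)) (-(1 / 12 * H (2 * r)) + 1 / 4 * H r) := by
  set m := 2 * r with hmr
  have hH : ∀ k, k ≤ m → H k ∈ Zp p := fun k hk => H_mem (by omega)
  have mh := half_mem (p := p) h2
  have m3 := third_mem (p := p) h3
  have m4 : (1 / 4 : ℚ) ∈ Zp p := by
    have := mul_mem mh mh
    norm_num at this ⊢
    exact this
  have m12 : (1 / 12 : ℚ) ∈ Zp p := by
    have := mul_mem m4 m3
    norm_num at this ⊢
    exact this
  obtain ⟨Q, hQ⟩ : ∃ Q : ℕ → ℚ, Q = fun k => (-1) ^ k * (m.choose k : ℚ) ^ 2 := ⟨_, rfl⟩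
  have hQm : ∀ k, Q k ∈ Zp p := fun k => by
    rw [hQ]; exact mul_mem (pow_mem (neg_mem (one_mem _)) _) (pow_mem (nat_mem _) _)
  obtain ⟨C0, hC0⟩ : ∃ C0 : ℚ, C0 = (-1) ^ r * ((2 * r).choose r : ℚ) := ⟨_, rfl⟩
  have hC0m : C0 ∈ Zp p := by
    rw [hC0]; exact mul_mem (pow_mem (neg_mem (one_mem _)) _) (nat_mem _)
  have s0 : ∑ k ∈ range (m + 1), Q k = C0 := by
    rw [hC0, ← altsum_even, ← hmr]
    refine sum_congr rfl fun k hk => ?_
    have hk' : k ≤ m := by have := mem_range.1 hk; omega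
    rw [hQ, Nat.choose_symm hk']
    ring
  have hrefl : ∑ k ∈ range (m + 1), Q k * H (m - k) = ∑ k ∈ range (m + 1), Q k * H k := by
    rw [← sum_range_reflect]
    refine sum_congr rfl fun k hk => ?_
    have hk' : k ≤ m := by have := mem_range.1 hk; omega
    rw [show m + 1 - 1 - k = m - k by omega, show m - (m - k) = k by omega, hQ]
    simp only
    rw [Nat.choose_symm hk']
    congr 2
    have : ((-1 : ℚ)) ^ (m - k) * (-1) ^ k * (-1) ^ k = (-1) ^ k := by
      rw [← pow_add, Nat.sub_add_cancel hk', hmr, pow_mul]; norm_num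
    have h5 : ((-1 : ℚ)) ^ k * (-1) ^ k = 1 := by rw [← mul_pow]; norm_num
    rw [mul_assoc, h5, mul_one] at this
    exact this
  obtain ⟨T, hT⟩ : ∃ T : ℚ, T = ∑ k ∈ range (m + 1), Q k * H k := ⟨_, rfl⟩
  rw [← hT] at hrefl
  have hTm : T ∈ Zp p := by
    rw [hT]
    exact sum_mem fun k hk => mul_mem (hQm k) (hH k (by have := mem_range.1 hk; omega))
  -- the value of `g`
  have g1 : EQ p 2 (gv p m) (C0 * (1 - p * (1 / 3) * H m) + p * (1 / 2) * T) := by
    have h5 : EQ p 2 (gv p m) (∑ k ∈ range (m + 1),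
        ((m.choose k : ℚ) ^ 2 * (1 + p * (-(1 / 3 * (H m - H (m - k))) + 1 / 6 * H k))) * (-1) ^ k) := by
      unfold gv
      refine EQ.sum fun k hk => ?_
      have hk' : k ≤ m := by have := mem_range.1 hk; omega
      exact (gcoef h2 h3 hm k hk').eq2.mul (EQ.refl (pow_mem (neg_mem (one_mem _)) _))
    have h6 : ∑ k ∈ range (m + 1),
        ((m.choose k : ℚ) ^ 2 * (1 + p * (-(1 / 3 * (H m - H (m - k))) + 1 / 6 * H k))) * (-1) ^ k =
        (1 - p * (1 / 3) * H m) * ∑ k ∈ range (m + 1), Q k + p * (1 / 3) *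
        ∑ k ∈ range (m + 1), Q k * H (m - k) + p * (1 / 6) * ∑ k ∈ range (m + 1), Q k * H k := by
      rw [mul_sum, mul_sum, mul_sum, ← sum_add_distrib, ← sum_add_distrib]
      refine sum_congr rfl fun k _ => ?_
      rw [hQ]
      ring
    rw [h6, s0, hrefl, ← hT] at h5
    have h7 : (1 - p * (1 / 3) * H m) * C0 + p * (1 / 3) * T + p * (1 / 6) * T =
        C0 * (1 - p * (1 / 3) * H m) + p * (1 / 2) * T := by ring
    rwa [h7] at h5
  -- the alternating sum
  have a1 := altsum_even (m + p) r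
  rw [← hmr] at a1
  have a2 : EQ p 2 (∑ k ∈ range (m + 1), (-1) ^ k * ((m + p).choose k : ℚ) *
      ((m + p).choose (m - k) : ℚ)) (C0 * (1 + 2 * p * H m) - 2 * p * T) := by
    have h5 : EQ p 2 (∑ k ∈ range (m + 1), (-1) ^ k * ((m + p).choose k : ℚ) *
      ((m + p).choose (m - k) : ℚ)) (∑ k ∈ range (m + 1), Q k * (1 + p * ((H m - H (m - k)) + (H m - H k)))) := by
      refine EQ.sum fun k hk => ?_
      have hk' : k ≤ m := by have := mem_range.1 hk; omega
      have q1 := choose_P2 (p := p) hm k hk'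
      have q2 := choose_P2 (p := p) hm (m - k) (by omega)
      rw [show m - (m - k) = k by omega, Nat.choose_symm hk'] at q2
      have q3 := ((P2.const (p := p) (x := (-1) ^ k) (pow_mem (neg_mem (one_mem _)) _)).mul q1).mul q2
      have q4 := q3.eq2
      have e : (-1) ^ k * (m.choose k : ℚ) * (m.choose k : ℚ) * (1 + p * (0 + (H m - H (m - k)) +
          (H m - H k))) = Q k * (1 + p * ((H m - H (m - k)) + (H m - H k))) := by
        rw [hQ]; ring
      rw [e] at q4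
      exact q4
    have h6 : ∑ k ∈ range (m + 1), Q k * (1 + p * ((H m - H (m - k)) + (H m - H k))) =
        (1 + 2 * p * H m) * ∑ k ∈ range (m + 1), Q k - p * ∑ k ∈ range (m + 1), Q k * H (m - k) -
        p * ∑ k ∈ range (m + 1), Q k * H k := by
      rw [mul_sum, mul_sum, mul_sum, ← sum_sub_distrib, ← sum_sub_distrib]
      exact sum_congr rfl fun k _ => by ring
    rw [h6, s0, hrefl, ← hT] at h5
    have h7 : (1 + 2 * p * H m) * C0 - p * T - p * T = C0 * (1 + 2 * p * H m) - 2 * p * T := by ring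
    rwa [h7] at h5
  rw [a1] at a2
  have a3 : EQ p 2 ((-1) ^ r * ((m + p).choose r : ℚ)) (C0 * (1 + p * (H m - H r))) := by
    have q1 := (P2.const (p := p) (x := (-1) ^ r) (pow_mem (neg_mem (one_mem _)) _)).mul
      (choose_P2 (p := p) hm r (by omega))
    rw [show m - r = r by omega, ← hC0] at q1
    have q2 := q1.eq2
    have e : C0 * (1 + p * (0 + (H m - H r))) = C0 * (1 + p * (H m - H r)) := by ring
    rwa [e] at q2
  have a4 := a2.symm.trans a3
  refine P2.of_EQ (by rw [← hC0]; exact hC0m) (add_mem (neg_mem (mul_mem m12 (hH m le_rfl)))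
    (mul_mem m4 (hH r (by omega)))) ⟨g1.1, ?_, ?_⟩
  · rw [← hC0]
    exact mul_mem hC0m (add_mem (one_mem _) (mul_mem p_mem
      (add_mem (neg_mem (mul_mem m12 (hH m le_rfl))) (mul_mem m4 (hH r (by omega))))))
  · rw [← hC0]
    have e : gv p m - C0 * (1 + p * (-(1 / 12 * H m) + 1 / 4 * H r)) =
        (gv p m - (C0 * (1 - p * (1 / 3) * H m) + p * (1 / 2) * T)) -
        1 / 4 * (C0 * (1 + 2 * p * H m) - 2 * p * T - C0 * (1 + p * (H m - H r))) := by ring
    rw [e]
    exact g1.2.2.sub (a4.2.2.mulL m4)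

/-- the odd case -/
theorem g_odd (h2 : p ≠ 2) (h3 : p ≠ 3) {r : ℕ} (hm : 2 * r + 1 < p) : I p 1 (gv p (2 * r + 1)) := by
  set m := 2 * r + 1 with hmr
  have h5 : EQ p 1 (gv p m) (∑ k ∈ range (m + 1), (m.choose k : ℚ) ^ 2 * (-1) ^ k) := by
    unfold gv
    refine EQ.sum fun k hk => ?_
    have hk' : k ≤ m := by have := mem_range.1 hk; omega
    exact (gcoef h2 h3 hm k hk').eq1.mul (EQ.refl (pow_mem (neg_mem (one_mem _)) _))
  have h6 : ∑ k ∈ range (m + 1), (m.choose k : ℚ) ^ 2 * (-1) ^ k =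
      -∑ k ∈ range (m + 1), (m.choose k : ℚ) ^ 2 * (-1) ^ k := by
    conv_lhs => rw [← sum_range_reflect]
    rw [← sum_neg_distrib]
    refine sum_congr rfl fun k hk => ?_
    have hk' : k ≤ m := by have := mem_range.1 hk; omega
    rw [show m + 1 - 1 - k = m - k by omega, Nat.choose_symm hk']
    have : ((-1 : ℚ)) ^ (m - k) * (-1) ^ k * (-1) ^ k = -(-1) ^ k := by
      rw [← pow_add, Nat.sub_add_cancel hk', hmr, pow_succ, pow_mul]; norm_num
    have h5 : ((-1 : ℚ)) ^ k * (-1) ^ k = 1 := by rw [← mul_pow]; norm_num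
    rw [mul_assoc, h5, mul_one] at this
    rw [this]
    ring
  have h7 : ∑ k ∈ range (m + 1), (m.choose k : ℚ) ^ 2 * (-1) ^ k = 0 := by linarith
  rw [h7] at h5
  simpa using h5.2.2

end Pool.Agent.L7h22.D8
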