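import Mathlib
import Pool.Agent.L7h22.D8.Base
import Pool.Agent.L7h22.D8.Hub
import Pool.Agent.L7h22.D8.Kum

/-!
# Evaluation of the level three polynomial at the CM point
-/

set_option autoImplicit false

namespace Pool.Agent.L7h22.D8

open Finset Polynomial

/-- `1 + 2√-2` -/
noncomputable def zz : ℂ := 1 + 2 * s

/-- the CM point -/
noncomputable def x0 : ℂ := (2 + 5 * s) / 4

theorem x0_a : 1 + 8 * x0 = 5 * zz := by
  unfold x0 zz; ring

theorem x0_b : 64 * x0 * (1 - x0) ^ 3 = 27 * zz ^ 3 := by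
  unfold x0 zz
  linear_combination (-(23 : ℂ) / 2 - 91 * s - 625 / 4 * s ^ 2) * s_sq

theorem x0_c : 1 - 20 * x0 - 8 * x0 ^ 2 = 7 * (2 - 5 * s) := by
  unfold x0
  linear_combination (-(25 : ℂ) / 2) * s_sq

theorem x0_d : x0 * (1 - x0) = 27 / 8 := by
  unfold x0
  linear_combination (-(25 : ℂ) / 16) * s_sq

theorem x0_e : x0 ^ 2 = (1 - 2 * s) ^ 3 / 8 := by
  unfold x0
  linear_combination ((1 : ℂ) / 16 + s) * s_sq

theorem conj_x0 : (starRingEnd ℂ) x0 = 1 - x0 := by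
  unfold x0
  rw [map_div₀, map_add, map_mul, conj_s]
  simp only [map_ofNat]
  ring

theorem conj_zz : (starRingEnd ℂ) zz = 1 - 2 * s := by
  unfold zz
  rw [map_add, map_mul, conj_s, map_one]
  simp only [map_ofNat]
  ring

theorem aeval_hp (a b c : ℚ) (N : ℕ) (x : ℂ) : aeval x (hp a b c N) =
    ∑ k ∈ range (N + 1), (hg a b c k : ℂ) * x ^ k := by
  unfold hp
  rw [map_sum]
  refine sum_congr rfl fun k _ => ?_
  rw [map_mul, map_pow, aeval_X, aeval_C]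
  rfl

theorem eval_hp (a b c : ℚ) (N : ℕ) (x : ℚ) : (hp a b c N).eval x =
    ∑ k ∈ range (N + 1), hg a b c k * x ^ k := by
  unfold hp
  rw [eval_finsetSum]
  refine sum_congr rfl fun k _ => ?_
  rw [eval_mul, eval_pow, eval_X, eval_C]

theorem V_a {p M J N : ℕ} (hM : p = 4 * M + 1) (hJ : M = 3 * J ∨ M = 3 * J + 1)
    (hN : p = 3 * N + 1 ∨ p = 3 * N + 2) :
    aeval x0 (hp ((1 - p) / 3) ((2 - p) / 3) (1 - p / 6) N) = zz ^ M * (gv p M : ℂ) := by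
  have h1 := congrArg (aeval x0) (T3a hM hJ hN)
  have h2 := congrArg (eval (-1)) (T2a hM hJ)
  have hMq : (p : ℚ) = 4 * M + 1 := by rw [hM]; push_cast; ring
  have h3 : (hp ((1 - (p : ℚ)) / 4) ((3 + p) / 12) (1 - p / 6) M).eval (-1) = gv p M := by
    rw [eval_hp, gv]
    refine sum_congr rfl fun k _ => ?_
    have e1 : (1 - (p : ℚ)) / 4 = -M := by rw [hMq]; ring
    have e2 : (3 + (p : ℚ)) / 12 = -M + p * (1 / 3) := by rw [hMq]; ring
    have e3 : 1 - (p : ℚ) / 6 = 1 - p * (1 / 6) := by ring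
    rw [e1, e2, e3]
  rw [h3] at h2
  rw [← h1, ← h2, map_sum, eval_finsetSum]
  push_cast
  rw [mul_sum]
  refine sum_congr rfl fun j hj => ?_
  have hj' : 3 * j ≤ M := by have := mem_range.1 hj; omega
  have e1 : aeval x0 (C (hg ((1 - (p : ℚ)) / 12) ((5 - p) / 12) (1 - p / 6) j) *
      (C (64 ^ j) * X ^ j * (1 - X) ^ (3 * j) * (1 + 8 * X) ^ (M - 3 * j))) =
      (hg ((1 - (p : ℚ)) / 12) ((5 - p) / 12) (1 - p / 6) j : ℂ) *
      ((64 * x0 * (1 - x0) ^ 3) ^ j * (1 + 8 * x0) ^ (M - 3 * j)) := by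
    simp only [map_mul, map_pow, map_sub, map_add, aeval_X, aeval_C, map_one, map_ofNat]
    rw [pow_mul, mul_pow, mul_pow, eq_ratCast]
  have e2 : (C (hg ((1 - (p : ℚ)) / 12) ((5 - p) / 12) (1 - p / 6) j) *
      (C ((-27) ^ j) * X ^ j * (1 - 4 * X) ^ (M - 3 * j))).eval (-1) =
      hg ((1 - (p : ℚ)) / 12) ((5 - p) / 12) (1 - p / 6) j * (27 ^ j * 5 ^ (M - 3 * j)) := by
    simp only [eval_mul, eval_pow, eval_sub, eval_X, eval_C, eval_one, eval_ofNat]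
    rw [← mul_pow]
    norm_num
  rw [e1, e2, x0_a, x0_b]
  have e3 : zz ^ M = (zz ^ 3) ^ j * zz ^ (M - 3 * j) := by
    rw [← pow_mul, ← pow_add]; congr 1; omega
  rw [e3]
  push_cast
  ring

theorem V_b {p M J N : ℕ} (hM : p = 4 * M + 7) (hJ : M = 3 * J ∨ M = 3 * J + 1)
    (hN : p = 3 * N + 1 ∨ p = 3 * N + 2) :
    aeval x0 (hp ((1 - p) / 3) ((2 - p) / 3) (1 - p / 6) N) =
      -(2 - 5 * s) * zz ^ M * (gv p (M + 1) : ℂ) := by
  have h1 := congrArg (aeval x0) (T3b hM hJ hN)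
  have h2 := congrArg (eval (-1)) (T2b hM hJ)
  have hMq : (p : ℚ) = 4 * M + 7 := by rw [hM]; push_cast; ring
  have h3 : (hp ((3 - (p : ℚ)) / 4) ((9 + p) / 12) (1 - p / 6) (M + 1)).eval (-1) = gv p (M + 1) := by
    rw [eval_hp, gv]
    refine sum_congr rfl fun k _ => ?_
    have e1 : (3 - (p : ℚ)) / 4 = -((M + 1 : ℕ) : ℚ) := by rw [hMq]; push_cast; ring
    have e2 : (9 + (p : ℚ)) / 12 = -((M + 1 : ℕ) : ℚ) + p * (1 / 3) := by rw [hMq]; push_cast; ring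
    have e3 : 1 - (p : ℚ) / 6 = 1 - p * (1 / 6) := by ring
    rw [e1, e2, e3]
  rw [h3] at h2
  rw [← h1, ← h2, map_sum, eval_finsetSum]
  push_cast
  rw [mul_sum]
  refine sum_congr rfl fun j hj => ?_
  have hj' : 3 * j ≤ M := by have := mem_range.1 hj; omega
  have e1 : aeval x0 (C (hg ((7 - (p : ℚ)) / 12) ((11 - p) / 12) (1 - p / 6) j) *
      ((1 - 20 * X - 8 * X ^ 2) *
      (C (64 ^ j) * X ^ j * (1 - X) ^ (3 * j) * (1 + 8 * X) ^ (M - 3 * j)))) =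
      (hg ((7 - (p : ℚ)) / 12) ((11 - p) / 12) (1 - p / 6) j : ℂ) *
      ((1 - 20 * x0 - 8 * x0 ^ 2) *
      ((64 * x0 * (1 - x0) ^ 3) ^ j * (1 + 8 * x0) ^ (M - 3 * j))) := by
    simp only [map_mul, map_pow, map_sub, map_add, aeval_X, aeval_C, map_one, map_ofNat]
    rw [pow_mul, mul_pow, mul_pow, eq_ratCast]
  have e2 : (C (hg ((7 - (p : ℚ)) / 12) ((11 - p) / 12) (1 - p / 6) j) *
      ((1 + 8 * X) * (C ((-27) ^ j) * X ^ j * (1 - 4 * X) ^ (M - 3 * j)))).eval (-1) =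
      hg ((7 - (p : ℚ)) / 12) ((11 - p) / 12) (1 - p / 6) j * (-7 * (27 ^ j * 5 ^ (M - 3 * j))) := by
    simp only [eval_mul, eval_pow, eval_sub, eval_add, eval_X, eval_C, eval_one, eval_ofNat]
    rw [← mul_pow]
    norm_num
  rw [e1, e2, x0_a, x0_b, x0_c]
  have e3 : zz ^ M = (zz ^ 3) ^ j * zz ^ (M - 3 * j) := by
    rw [← pow_mul, ← pow_add]; congr 1; omega
  rw [e3]
  push_cast
  ring

end Pool.Agent.L7h22.D8
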