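import Mathlib
import Pool.Agent.R443.CL1
import Pool.Agent.L7h22.D8.Ev

/-!
# The truncated series modulo `p^2`
-/

set_option autoImplicit false

namespace Pool.Agent.L7h22.D8

open Finset Pool.Agent.R439.PL Pool.Agent.L7h22.C42 Pool.Agent.K1H59.SC
open Pool.Agent.R488.Cub (H)

/-- the truncated sum of the problem -/
noncomputable def Ssum (p : ℕ) : ℚ :=
  ∑ k ∈ range p, ((Nat.choose (2 * k) k : ℚ) ^ 2 * (Nat.choose (3 * k) k : ℚ)) / (8 : ℚ) ^ k

theorem hg_third (k : ℕ) : (Nat.choose (2 * k) k : ℚ) * (Nat.choose (3 * k) k : ℚ) =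
    27 ^ k * hg (1 / 3) (2 / 3) 1 k := by
  have key : ∀ k : ℕ, (Nat.choose (2 * k) k : ℚ) * (Nat.choose (3 * k) k : ℚ) * (k.factorial : ℚ) ^ 3 =
      ((3 * k).factorial : ℚ) := by
    intro k
    have h1 := Nat.choose_mul_factorial_mul_factorial (show k ≤ 3 * k by omega)
    have h2 := Nat.choose_mul_factorial_mul_factorial (show k ≤ 2 * k by omega)
    rw [show 3 * k - k = 2 * k by omega] at h1
    rw [show 2 * k - k = k by omega] at h2
    have h1' : ((3 * k).choose k : ℚ) * (k.factorial : ℚ) * ((2 * k).factorial : ℚ) =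
        ((3 * k).factorial : ℚ) := by exact_mod_cast h1
    have h2' : ((2 * k).choose k : ℚ) * (k.factorial : ℚ) * (k.factorial : ℚ) =
        ((2 * k).factorial : ℚ) := by exact_mod_cast h2
    rw [← h1', ← h2']
    ring
  have h0 : ∀ k : ℕ, 27 ^ k * hg (1 / 3) (2 / 3) 1 k * (k.factorial : ℚ) ^ 3 =
      ((3 * k).factorial : ℚ) := by
    intro k
    induction k with
    | zero => simp [hg_zero]
    | succ k ih =>
      have e1 : ((3 * (k + 1)).factorial : ℚ) = (3 * k + 3) * (3 * k + 2) * (3 * k + 1) *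
          ((3 * k).factorial : ℚ) := by
        rw [show 3 * (k + 1) = 3 * k + 1 + 1 + 1 by ring, Nat.factorial_succ, Nat.factorial_succ,
          Nat.factorial_succ]
        push_cast
        ring
      rw [e1, ← ih, hg_succ, Nat.factorial_succ]
      have h3 : (k : ℚ) + 1 ≠ 0 := by positivity
      have h4 : 1 + (k : ℚ) ≠ 0 := by positivity
      push_cast
      field_simp
      ring
  have hf : (k.factorial : ℚ) ^ 3 ≠ 0 := by positivity
  apply mul_right_cancel₀ hf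
  rw [key, h0]

/-- Clausen's identity -/
theorem clausen_c (N : ℕ) (x : ℂ) : (∑ k ∈ range (N + 1), (c N k : ℂ) * x ^ k) ^ 2 =
    ∑ k ∈ range (N + 1), (Nat.choose (2 * k) k : ℂ) * (c N k : ℂ) * (x * (1 - x)) ^ k := by
  have h := Pool.Agent.R443.CL.clausen N (-x)
  have e1 : ∀ k, (c N k : ℂ) * x ^ k = ((Pool.Agent.R443.CL.e N k * Pool.Agent.R443.CL.b k : ℤ) : ℂ) *
      (-x) ^ k := by
    intro k
    unfold c Pool.Agent.R443.CL.e Pool.Agent.R443.CL.b Nat.centralBinom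
    rw [neg_pow x k]
    push_cast
    ring
  have e2 : ∀ k, (Nat.choose (2 * k) k : ℂ) * (c N k : ℂ) * (x * (1 - x)) ^ k =
      ((Pool.Agent.R443.CL.e N k * Pool.Agent.R443.CL.b k ^ 2 : ℤ) : ℂ) * ((-x) ^ 2 + (-x)) ^ k := by
    intro k
    unfold c Pool.Agent.R443.CL.e Pool.Agent.R443.CL.b Nat.centralBinom
    rw [show (-x) ^ 2 + -x = -(x * (1 - x)) by ring, neg_pow (x * (1 - x)) k]
    push_cast
    ring
  rw [sum_congr rfl fun k _ => e1 k, h, sum_congr rfl fun k _ => e2 k]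

theorem ext_c {N q : ℕ} (h : N < q) (g : ℕ → ℂ) : ∑ k ∈ range q, g k * (c N k : ℂ) =
    ∑ k ∈ range (N + 1), g k * (c N k : ℂ) := by
  symm
  apply sum_subset
  · intro k hk; rw [mem_range] at *; omega
  · intro k _ hk
    rw [mem_range, not_lt] at hk
    rw [c_big (by omega)]
    push_cast; ring

variable {p : ℕ} [hp : Fact p.Prime]

/-- the sequence `(1/3)_k (2/3)_k / k!^2` -/
theorem rec_third {n : ℕ} (hn : p = 3 * n + 1 ∨ p = 3 * n + 2) (k : ℕ) :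
    ((k : ℚ) + 1) ^ 2 * hg (1 / 3) (2 / 3) 1 (k + 1) =
    ((k : ℚ) - n + p * (1 / 3)) * (k + n + 1 - p * (1 / 3)) * hg (1 / 3) (2 / 3) 1 k := by
  rw [hg_succ]
  have h3 : (k : ℚ) + 1 ≠ 0 := by positivity
  have h4 : 1 + (k : ℚ) ≠ 0 := by positivity
  rcases hn with h | h
  · rw [h]; push_cast; field_simp; ring
  · rw [h]; push_cast; field_simp; ring

theorem rec_m {n : ℕ} (hn : n < p) (k : ℕ) :
    ((k : ℚ) + 1) ^ 2 * c (p - 1 - n) (k + 1) =
    ((k : ℚ) - n + p * 1) * (k + n + 1 - p * 1) * c (p - 1 - n) k := by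
  rw [c_rec]
  have : ((p - 1 - n : ℕ) : ℚ) = p - 1 - n := by
    rw [Nat.sub_sub, Nat.cast_sub (by omega)]; push_cast; ring
  rw [this]
  ring

theorem a_third {n : ℕ} (h3 : p ≠ 3) (hn : p = 3 * n + 1 ∨ p = 3 * n + 2) {k : ℕ} (hk : k < p) :
    EQ p 2 (hg (1 / 3) (2 / 3) 1 k) (c n k + p * (1 / 3 * ee n k)) :=
  A_eq (third_mem h3) (hg_zero _ _ _) (rec_third hn) k hk

theorem a_m {n : ℕ} (hn : n < p) {k : ℕ} (hk : k < p) :
    EQ p 2 (c (p - 1 - n) k) (c n k + p * (1 * ee n k)) :=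
  A_eq (one_mem _) (c_zero _) (rec_m hn) k hk

/-- the truncated hypergeometric function -/
noncomputable def fS (p : ℕ) (x : ℂ) : ℂ := ∑ k ∈ range p, (hg (1 / 3) (2 / 3) 1 k : ℂ) * x ^ k

/-- the polynomial `∑ c(n,k) x^k` -/
noncomputable def PP (n : ℕ) (x : ℂ) : ℂ := ∑ k ∈ range (n + 1), (c n k : ℂ) * x ^ k

theorem x0_mem (h2 : p ≠ 2) : x0 ∈ OO p := by
  have h : (1 / 2 : ℚ) ∈ Zp p := half_mem h2
  have h4 : (1 / 4 : ℚ) ∈ Zp p := by
    have := mul_mem h h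
    norm_num at this ⊢
    exact this
  refine ⟨1 / 2, h, 5 * (1 / 4), mul_mem ?_ h4, ?_⟩
  · exact_mod_cast nat_mem (p := p) 5
  · unfold x0; push_cast; ring

theorem PP_mem {x : ℂ} (hx : x ∈ OO p) (n : ℕ) : PP n x ∈ OO p :=
  sum_mem fun k _ => mul_mem (q_mem (c_mem n k)) (pow_mem hx k)

theorem PP_m {n : ℕ} (hn : n < p) {x : ℂ} (hx : x ∈ OO p) : EJ p 1 (PP (p - 1 - n) x) (PP n x) := by
  have e1 : PP (p - 1 - n) x = ∑ k ∈ range p, x ^ k * (c (p - 1 - n) k : ℂ) := by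
    rw [ext_c (by omega)]
    exact sum_congr rfl fun k _ => by ring
  have e2 : PP n x = ∑ k ∈ range p, x ^ k * (c n k : ℂ) := by
    rw [ext_c hn]
    exact sum_congr rfl fun k _ => by ring
  rw [e1, e2]
  refine EJ.sum fun k hk => ?_
  have hk' := mem_range.1 hk
  refine (EJ.refl (pow_mem hx k)).mul (EJ_of_EQ ?_)
  refine ((a_m hn hk').mono (by norm_num)).trans ⟨(a_m hn hk').2.1, c_mem _ _, ?_⟩
  rw [add_sub_cancel_left]
  exact (I_p (p := p)).mulR (mul_mem (one_mem _) (ee_mem _ _ hk'))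

/-- the two-third one-third combination -/
theorem third_eq {n : ℕ} (h3 : p ≠ 3) (hn : p = 3 * n + 1 ∨ p = 3 * n + 2) {k : ℕ} (hk : k < p) :
    EQ p 2 (hg (1 / 3) (2 / 3) 1 k) (2 * (1 / 3) * c n k + 1 / 3 * c (p - 1 - n) k) := by
  have h1 := a_third h3 hn hk
  have h2 := a_m (p := p) (n := n) (by omega) hk
  have m3 := third_mem (p := p) h3
  have m2 : (2 : ℚ) ∈ Zp p := by exact_mod_cast nat_mem (p := p) 2
  have h4 := (EQ.refl (p := p) (k := 2) (mul_mem (mul_mem m2 m3) (c_mem n k))).add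
    ((EQ.refl (p := p) (k := 2) m3).mul h2)
  have e : 2 * (1 / 3) * c n k + 1 / 3 * (c n k + p * (1 * ee n k)) =
      c n k + p * (1 / 3 * ee n k) := by ring
  rw [e] at h4
  exact h1.trans h4.symm

theorem S_PP {n : ℕ} (h2 : p ≠ 2) (h3 : p ≠ 3) (hn : p = 3 * n + 1 ∨ p = 3 * n + 2) :
    EJ p 2 (Ssum p : ℂ) (2 * (1 / 3) * PP n x0 ^ 2 + 1 / 3 * PP (p - 1 - n) x0 ^ 2) := by
  have h8 : (27 / 8 : ℚ) ∈ Zp p := by
    have h := half_mem (p := p) h2
    have h27 := nat_mem (p := p) 27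
    have := mul_mem h27 (mul_mem h (mul_mem h h))
    norm_num at this ⊢
    exact this
  have e0 : Ssum p = ∑ k ∈ range p, (Nat.choose (2 * k) k : ℚ) * (27 / 8) ^ k * hg (1 / 3) (2 / 3) 1 k := by
    unfold Ssum
    refine sum_congr rfl fun k _ => ?_
    have := hg_third k
    rw [div_pow]
    have h8k : (8 : ℚ) ^ k ≠ 0 := by positivity
    field_simp
    linear_combination (Nat.choose (2 * k) k : ℚ) * this
  have e1 : EQ p 2 (Ssum p) (∑ k ∈ range p, (Nat.choose (2 * k) k : ℚ) * (27 / 8) ^ k *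
      (2 * (1 / 3) * c n k + 1 / 3 * c (p - 1 - n) k)) := by
    rw [e0]
    refine EQ.sum fun k hk => ?_
    exact (EQ.refl (mul_mem (nat_mem _) (pow_mem h8 k))).mul (third_eq h3 hn (mem_range.1 hk))
  have e2 := EJ_of_EQ e1
  have e3 : ((∑ k ∈ range p, (Nat.choose (2 * k) k : ℚ) * (27 / 8) ^ k *
      (2 * (1 / 3) * c n k + 1 / 3 * c (p - 1 - n) k) : ℚ) : ℂ) =
      2 * (1 / 3) * PP n x0 ^ 2 + 1 / 3 * PP (p - 1 - n) x0 ^ 2 := by
    unfold PP
    rw [clausen_c, clausen_c, x0_d]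
    have a1 := ext_c (N := n) (q := p) (by omega) (fun k => (Nat.choose (2 * k) k : ℂ) * (27 / 8) ^ k)
    have a2 := ext_c (N := p - 1 - n) (q := p) (by have := hp.out.pos; omega)
      (fun k => (Nat.choose (2 * k) k : ℂ) * (27 / 8) ^ k)
    have b1 : ∑ k ∈ range (n + 1), (Nat.choose (2 * k) k : ℂ) * (c n k : ℂ) * (27 / 8) ^ k =
        ∑ k ∈ range p, (Nat.choose (2 * k) k : ℂ) * (27 / 8) ^ k * (c n k : ℂ) := by
      rw [a1]; exact sum_congr rfl fun k _ => by ring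
    have b2 : ∑ k ∈ range (p - 1 - n + 1), (Nat.choose (2 * k) k : ℂ) * (c (p - 1 - n) k : ℂ) * (27 / 8) ^ k =
        ∑ k ∈ range p, (Nat.choose (2 * k) k : ℂ) * (27 / 8) ^ k * (c (p - 1 - n) k : ℂ) := by
      rw [a2]; exact sum_congr rfl fun k _ => by ring
    rw [b1, b2, mul_sum, mul_sum, ← sum_add_distrib]
    push_cast
    exact sum_congr rfl fun k _ => by ring
  rw [e3] at e2
  exact e2

theorem f_PP {n : ℕ} (h3 : p ≠ 3) (hn : p = 3 * n + 1 ∨ p = 3 * n + 2) {x : ℂ} (hx : x ∈ OO p) :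
    EJ p 2 (fS p x) (2 * (1 / 3) * PP n x + 1 / 3 * PP (p - 1 - n) x) := by
  have e1 : PP (p - 1 - n) x = ∑ k ∈ range p, x ^ k * (c (p - 1 - n) k : ℂ) := by
    rw [ext_c (by have := hp.out.pos; omega)]
    exact sum_congr rfl fun k _ => by ring
  have e2 : PP n x = ∑ k ∈ range p, x ^ k * (c n k : ℂ) := by
    rw [ext_c (by omega)]
    exact sum_congr rfl fun k _ => by ring
  have e3 : 2 * (1 / 3) * PP n x + 1 / 3 * PP (p - 1 - n) x =
      ∑ k ∈ range p, ((2 * (1 / 3) * c n k + 1 / 3 * c (p - 1 - n) k : ℚ) : ℂ) * x ^ k := by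
    rw [e1, e2, mul_sum, mul_sum, ← sum_add_distrib]
    push_cast
    exact sum_congr rfl fun k _ => by ring
  rw [e3]
  unfold fS
  refine EJ.sum fun k hk => ?_
  exact (EJ_of_EQ (third_eq h3 hn (mem_range.1 hk))).mul (EJ.refl (pow_mem hx k))

theorem third_memC (h3 : p ≠ 3) : (1 / 3 : ℂ) ∈ OO p := by
  have := q_mem (third_mem (p := p) h3)
  push_cast at this
  exact this

theorem half_memC (h2 : p ≠ 2) : (1 / 2 : ℂ) ∈ OO p := by
  have := q_mem (half_mem (p := p) h2)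
  push_cast at this
  exact this

/-- `S = f(x0)^2` modulo `p^2` -/
theorem S_sq {n : ℕ} (h2 : p ≠ 2) (h3 : p ≠ 3) (hn : p = 3 * n + 1 ∨ p = 3 * n + 2) :
    EJ p 2 (Ssum p : ℂ) (fS p x0 ^ 2) := by
  have hx := x0_mem (p := p) h2
  have h1 := S_PP h2 h3 hn
  have h4 := f_PP h3 hn hx
  refine h1.trans (EJ.trans ?_ (h4.pow 2).symm)
  have m3 := third_memC (p := p) h3
  refine ⟨h1.2.1, (h4.pow 2).2.1, ?_⟩
  have h5 := PP_m (p := p) (n := n) (by omega) hx
  have h6 := (h5.2.2.mul h5.2.2)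
  have e : 2 * (1 / 3) * PP n x0 ^ 2 + 1 / 3 * PP (p - 1 - n) x0 ^ 2 -
      (2 * (1 / 3) * PP n x0 + 1 / 3 * PP (p - 1 - n) x0) ^ 2 =
      (2 * ((1 / 3) * (1 / 3))) * ((PP (p - 1 - n) x0 - PP n x0) * (PP (p - 1 - n) x0 - PP n x0)) := by
    ring
  rw [e]
  exact h6.mulL (mul_mem (n_mem 2) (mul_mem m3 m3))

/-- the supersingular case -/
theorem S_super {n : ℕ} (h2 : p ≠ 2) (h3 : p ≠ 3) (hn : p = 3 * n + 1 ∨ p = 3 * n + 2)
    (h : J p 1 (PP n x0)) : I p 2 (Ssum p) := by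
  have hx := x0_mem (p := p) h2
  have h1 := S_PP h2 h3 hn
  have h5 := PP_m (p := p) (n := n) (by omega) hx
  have h6 : J p 1 (PP (p - 1 - n) x0) := by
    have e : PP (p - 1 - n) x0 = (PP (p - 1 - n) x0 - PP n x0) + PP n x0 := by ring
    rw [e]; exact h5.2.2.add h
  have m3 := third_memC (p := p) h3
  apply I_of_J
  have e : (Ssum p : ℂ) = ((Ssum p : ℂ) - (2 * (1 / 3) * PP n x0 ^ 2 + 1 / 3 * PP (p - 1 - n) x0 ^ 2)) +
      (2 * (1 / 3) * (PP n x0 * PP n x0) + 1 / 3 * (PP (p - 1 - n) x0 * PP (p - 1 - n) x0)) := by ring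
  rw [e]
  exact h1.2.2.add (((h.mul h).mulL (mul_mem (n_mem 2) m3)).add ((h6.mul h6).mulL m3))

end Pool.Agent.L7h22.D8
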