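import Mathlib
import Pool.Agent.L7h22.D8.An

/-!
# The truncated series in terms of the deformed polynomials
-/

set_option autoImplicit false

namespace Pool.Agent.L7h22.D8

open Finset Pool.Agent.R439.PL Pool.Agent.L7h22.C42 Pool.Agent.K1H59.SC
open Pool.Agent.R488.Cub (H)

/-- `∑_{0<j<p} x^j/j` -/
noncomputable def Lt (p : ℕ) (x : ℂ) : ℂ := ∑ j ∈ Ico 1 p, ((1 / (j : ℚ) : ℚ) : ℂ) * x ^ j

theorem Lt_shift {p i : ℕ} (hi : i < p) (x : ℂ) : x ^ i * Lt p x =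
    ∑ k ∈ Ico (i + 1) p, ((1 / ((k : ℚ) - i) : ℚ) : ℂ) * x ^ k +
      x ^ p * ∑ k ∈ Ico 0 i, ((1 / ((p : ℚ) + k - i) : ℚ) : ℂ) * x ^ k := by
  unfold Lt
  rw [← sum_Ico_consecutive _ (show 1 ≤ p - i by omega) (show p - i ≤ p by omega), mul_add, mul_sum,
    mul_sum, mul_sum]
  congr 1
  · have h := sum_Ico_add' (fun k : ℕ => ((1 / ((k : ℚ) - i) : ℚ) : ℂ) * x ^ k) 1 (p - i) i
    rw [show 1 + i = i + 1 by ring, show p - i + i = p by omega] at h
    rw [← h]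
    refine sum_congr rfl fun j _ => ?_
    have e : (((j + i : ℕ) : ℚ) - i) = j := by push_cast; ring
    rw [e, pow_add]
    ring
  · have h := sum_Ico_add' (fun k : ℕ => x ^ i * (((1 / (k : ℚ) : ℚ) : ℂ) * x ^ k)) 0 i (p - i)
    rw [zero_add, show i + (p - i) = p by omega] at h
    rw [← h]
    refine sum_congr rfl fun j _ => ?_
    have e : ((j + (p - i) : ℕ) : ℚ) = (p : ℚ) + j - i := by
      rw [Nat.cast_add, Nat.cast_sub hi.le]; ring
    rw [e]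
    have e2 : x ^ p * x ^ j = x ^ i * x ^ (j + (p - i)) := by
      rw [← pow_add, ← pow_add]; congr 1; omega
    linear_combination (-((1 / ((p : ℚ) + j - i) : ℚ) : ℂ)) * e2

variable {p : ℕ} [hp : Fact p.Prime]

theorem TT_sum {n : ℕ} (hn : n < p) {x : ℂ} (hx : x ∈ OO p) :
    J p 1 (∑ k ∈ range p, (TT n k : ℂ) * x ^ k -
      (Lt p x * PP n x + x ^ p * ∑ k ∈ range (n + 1), (UT n k : ℂ) * x ^ k)) := by
  have e1 : Lt p x * PP n x = ∑ k ∈ range p, (TT n k : ℂ) * x ^ k +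
      x ^ p * ∑ k ∈ range (n + 1), (∑ i ∈ Ico (k + 1) (n + 1), c n i / ((p : ℚ) + k - i) : ℚ) * x ^ k := by
    have h1 : Lt p x * PP n x = ∑ i ∈ Ico 0 (n + 1), ∑ k ∈ Ico (i + 1) p,
        (c n i : ℂ) * (((1 / ((k : ℚ) - i) : ℚ) : ℂ) * x ^ k) +
        x ^ p * ∑ i ∈ Ico 0 (n + 1), ∑ k ∈ Ico 0 i,
        (c n i : ℂ) * (((1 / ((p : ℚ) + k - i) : ℚ) : ℂ) * x ^ k) := by
      unfold PP
      rw [mul_sum, range_eq_Ico, mul_sum, ← sum_add_distrib]
      refine sum_congr rfl fun i hi => ?_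
      have hi' : i < p := by have := (mem_Ico.1 hi).2; omega
      have h2 := Lt_shift hi' x
      rw [← mul_sum, ← mul_sum]
      linear_combination (c n i : ℂ) * h2
    have h3 : ∑ i ∈ Ico 0 (n + 1), ∑ k ∈ Ico (i + 1) p,
        (c n i : ℂ) * (((1 / ((k : ℚ) - i) : ℚ) : ℂ) * x ^ k) = ∑ i ∈ Ico 0 p, ∑ k ∈ Ico (i + 1) p,
        (c n i : ℂ) * (((1 / ((k : ℚ) - i) : ℚ) : ℂ) * x ^ k) := by
      apply sum_subset
      · intro k hk; rw [mem_Ico] at *; omega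
      · intro k hk hk'
        rw [mem_Ico] at hk hk'
        rw [c_big (by omega)]
        simp
    rw [h1, h3, sum_Ico_Ico_comm', ← sum_Ico_Ico_comm' 0 (n + 1), ← range_eq_Ico, ← range_eq_Ico]
    congr 1
    · refine sum_congr rfl fun k _ => ?_
      unfold TT
      push_cast
      rw [sum_mul, range_eq_Ico]
      exact sum_congr rfl fun i _ => by ring
    · congr 1
      refine sum_congr rfl fun k _ => ?_
      push_cast
      rw [sum_mul]
      exact sum_congr rfl fun i _ => by ring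
  rw [e1]
  have e2 : ∑ k ∈ range p, (TT n k : ℂ) * x ^ k - (∑ k ∈ range p, (TT n k : ℂ) * x ^ k +
      x ^ p * ∑ k ∈ range (n + 1), (∑ i ∈ Ico (k + 1) (n + 1), c n i / ((p : ℚ) + k - i) : ℚ) * x ^ k +
      x ^ p * ∑ k ∈ range (n + 1), (UT n k : ℂ) * x ^ k) =
      -(x ^ p * ∑ k ∈ range (n + 1), ((∑ i ∈ Ico (k + 1) (n + 1), c n i / ((p : ℚ) + k - i) +
        UT n k : ℚ) : ℂ) * x ^ k) := by
    have h4 : ∑ k ∈ range (n + 1), ((∑ i ∈ Ico (k + 1) (n + 1), c n i / ((p : ℚ) + k - i) +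
        UT n k : ℚ) : ℂ) * x ^ k =
        ∑ k ∈ range (n + 1), (∑ i ∈ Ico (k + 1) (n + 1), c n i / ((p : ℚ) + k - i) : ℚ) * x ^ k +
        ∑ k ∈ range (n + 1), (UT n k : ℂ) * x ^ k := by
      rw [← sum_add_distrib]
      refine sum_congr rfl fun k _ => ?_
      rw [Rat.cast_add]
      ring
    rw [h4]
    ring
  rw [e2]
  refine (J.mulL (pow_mem hx p) (J.sum fun k hk => ?_)).neg
  refine J.mulR (J_of_I ?_) (pow_mem hx k)
  unfold UT
  rw [← sum_add_distrib]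
  refine I.sum fun i hi => ?_
  obtain ⟨h1, h2⟩ := mem_Ico.1 hi
  have u1 : U p (((i - k : ℕ) : ℚ)) := Unat (by omega) (by omega)
  have u2 : U p (((p - (i - k) : ℕ) : ℚ)) := Unat (by omega) (by omega)
  have e3 : ((i - k : ℕ) : ℚ) = (i : ℚ) - k := by rw [Nat.cast_sub (by omega)]
  have e4 : ((p - (i - k) : ℕ) : ℚ) = (p : ℚ) + k - i := by
    rw [Nat.cast_sub (by omega), e3]; ring
  rw [e3] at u1
  rw [e4] at u2
  have h5 := u1.1
  have h6 := u2.1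
  have e5 : c n i / ((p : ℚ) + k - i) + c n i / ((i : ℚ) - k) =
      p * (c n i * (((p : ℚ) + k - i)⁻¹ * ((i : ℚ) - k)⁻¹)) := by
    field_simp
    ring
  rw [e5]
  exact (I_p (p := p)).mulR (mul_mem (c_mem n i) (mul_mem u2.2.2 u1.2.2))

theorem Lt_mem {x : ℂ} (hx : x ∈ OO p) : Lt p x ∈ OO p := by
  unfold Lt
  refine sum_mem fun j hj => mul_mem (q_mem ?_) (pow_mem hx j)
  obtain ⟨h1, h2⟩ := mem_Ico.1 hj
  rw [one_div]
  exact (Unat (p := p) (n := j) (by omega) h2).2.2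

theorem pLt (h2 : p ≠ 2) {x : ℂ} (hx : x ∈ OO p) :
    J p 2 (1 - x ^ p - (1 - x) ^ p - p * Lt p x) := by
  have hodd : Odd p := hp.out.odd_of_ne_two h2
  have e1 : (1 - x) ^ p = 1 + ∑ j ∈ Ico 1 p, (p.choose j : ℂ) * (-x) ^ j - x ^ p := by
    rw [show (1 : ℂ) - x = -x + 1 by ring, add_pow, sum_range_succ, range_eq_Ico,
      sum_eq_sum_Ico_succ_bot hp.out.pos, hodd.neg_pow]
    simp only [pow_zero, one_pow, mul_one, Nat.sub_zero, Nat.choose_zero_right, Nat.cast_one,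
      Nat.choose_self, zero_add]
    have : ∑ k ∈ Ico 1 p, (-x) ^ k * (p.choose k : ℂ) = ∑ j ∈ Ico 1 p, (p.choose j : ℂ) * (-x) ^ j :=
      sum_congr rfl fun k _ => by ring
    rw [this]
    ring
  have e2 : 1 - x ^ p - (1 - x) ^ p - p * Lt p x = -∑ j ∈ Ico 1 p,
      (((p.choose j : ℚ) * (-1) ^ j + p * (1 / (j : ℚ)) : ℚ) : ℂ) * x ^ j := by
    rw [e1]
    unfold Lt
    rw [mul_sum, ← sum_neg_distrib]
    have : 1 - x ^ p - (1 + ∑ j ∈ Ico 1 p, (p.choose j : ℂ) * (-x) ^ j - x ^ p) =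
        ∑ j ∈ Ico 1 p, -((p.choose j : ℂ) * (-x) ^ j) := by rw [sum_neg_distrib]; ring
    rw [this, ← sum_sub_distrib]
    refine sum_congr rfl fun j _ => ?_
    rw [neg_pow x j]
    push_cast
    ring
  rw [e2]
  refine (J.sum fun j hj => J.mulR (J_of_I ?_) (pow_mem hx j)).neg
  obtain ⟨h3, h4⟩ := mem_Ico.1 hj
  obtain ⟨r, rfl⟩ : ∃ r, j = r + 1 := ⟨j - 1, by omega⟩
  have h5 := (Pool.Agent.R488.Cub.HarmP.term (p := p) r h4).2.2
  have e3 : (p.choose (r + 1) : ℚ) * (-1) ^ (r + 1) + p * (1 / ((r + 1 : ℕ) : ℚ)) =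
      (-1) ^ (r + 1) * ((p.choose (r + 1) : ℚ) - (-1) ^ r * (p * (1 / ((r : ℚ) + 1)))) := by
    have h6 : ((-1 : ℚ)) ^ r * (-1) ^ r = 1 := by rw [← mul_pow]; norm_num
    rw [pow_succ]
    push_cast
    linear_combination (-(p * (1 / ((r : ℚ) + 1)))) * h6
  rw [e3]
  exact h5.mulL (pow_mem (neg_mem (one_mem _)) _)

/-- the deformed polynomials -/
noncomputable def VV (p n : ℕ) (e : ℚ) (x : ℂ) : ℂ :=
  ∑ k ∈ range (n + 1), (hg (-n) (n + 1 - p * (2 / 3)) (1 - p * e) k : ℂ) * x ^ k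

theorem VV_eq {n : ℕ} {e : ℚ} (h3 : p ≠ 3) (hn : 2 * n < p) (he : e ∈ Zp p) {x : ℂ} (hx : x ∈ OO p) :
    EJ p 2 (VV p n e x) (PP n x - p * (2 / 3) *
      ∑ k ∈ range (n + 1), ((c n k * (H (n + k) - H n) : ℚ) : ℂ) * x ^ k +
      p * e * ∑ k ∈ range (n + 1), ((c n k * H k : ℚ) : ℂ) * x ^ k) := by
  have m23 : (2 / 3 : ℚ) ∈ Zp p := by
    have := mul_mem (nat_mem (p := p) 2) (third_mem h3)
    norm_num at this ⊢
    exact this
  have e1 : PP n x - p * (2 / 3) *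
      ∑ k ∈ range (n + 1), ((c n k * (H (n + k) - H n) : ℚ) : ℂ) * x ^ k +
      p * e * ∑ k ∈ range (n + 1), ((c n k * H k : ℚ) : ℂ) * x ^ k =
      ∑ k ∈ range (n + 1), ((c n k * (1 + p * (-(2 / 3 * (H (n + k) - H n)) + e * H k)) : ℚ) : ℂ) * x ^ k := by
    unfold PP
    rw [mul_sum, mul_sum, ← sum_sub_distrib, ← sum_add_distrib]
    refine sum_congr rfl fun k _ => ?_
    push_cast
    ring
  rw [e1]
  unfold VV
  refine EJ.sum fun k hk => (EJ_of_EQ ?_).mul (EJ.refl (pow_mem hx k))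
  exact (v_P2 hn m23 he k (by have := mem_range.1 hk; omega)).eq2

/-- the main expansion -/
theorem f_main {n : ℕ} (h2 : p ≠ 2) (h3 : p ≠ 3) (hn : p = 3 * n + 1 ∨ p = 3 * n + 2) {x : ℂ}
    (hx : x ∈ OO p) :
    J p 2 (fS p x - (VV p n (1 / 6) x * (1 + p * (1 / 3) * (Lt p x - 2 * (H n : ℂ) * x ^ p)) +
      (1 - 4 * x ^ p) * (1 / 2) * (VV p n (1 / 6) x - VV p n (1 / 2) x))) := by
  have hn2 : 2 * n < p := by omega
  have m3 := third_memC (p := p) h3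
  have m2 := half_memC (p := p) h2
  have m6 := sixth_mem (p := p) h2 h3
  have mH : (H n : ℂ) ∈ OO p := q_mem (H_mem (by omega))
  have mL := Lt_mem (p := p) hx
  have h4 := VV_eq (n := n) h3 hn2 m6 hx
  have h5 := VV_eq (n := n) h3 hn2 (half_mem h2) hx
  obtain ⟨A, hA⟩ : ∃ A : ℂ, A = ∑ k ∈ range (n + 1), ((c n k * (H (n + k) - H n) : ℚ) : ℂ) * x ^ k :=
    ⟨_, rfl⟩
  obtain ⟨B, hB⟩ : ∃ B : ℂ, B = ∑ k ∈ range (n + 1), ((c n k * H k : ℚ) : ℂ) * x ^ k := ⟨_, rfl⟩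
  rw [← hA, ← hB] at h4 h5
  have mA : A ∈ OO p := by
    rw [hA]
    refine sum_mem fun k hk => mul_mem (q_mem (mul_mem (c_mem n k) (sub_mem ?_ ?_))) (pow_mem hx k)
    · exact H_mem (by have := mem_range.1 hk; omega)
    · exact H_mem (by omega)
  have mB : B ∈ OO p := by
    rw [hB]
    refine sum_mem fun k hk => mul_mem (q_mem (mul_mem (c_mem n k) ?_)) (pow_mem hx k)
    exact H_mem (by have := mem_range.1 hk; omega)
  have hT := TT_sum (n := n) (by omega) hx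
  obtain ⟨T, hTd⟩ : ∃ T : ℂ, T = ∑ k ∈ range p, (TT n k : ℂ) * x ^ k := ⟨_, rfl⟩
  have hU : ∑ k ∈ range (n + 1), (UT n k : ℂ) * x ^ k = 2 * B - 2 * (H n : ℂ) * PP n x := by
    rw [hB]
    unfold PP
    rw [mul_sum, mul_sum, ← sum_sub_distrib]
    refine sum_congr rfl fun k hk => ?_
    rw [UT_closed n k (by have := mem_range.1 hk; omega)]
    push_cast
    ring
  rw [hU, ← hTd] at hT
  have hf : EJ p 2 (fS p x) (PP n x - p * (2 / 3) * A + p * (1 / 3) * T) := by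
    have e1 : PP n x - p * (2 / 3) * A + p * (1 / 3) * T =
        ∑ k ∈ range p, ((c n k + p * (1 / 3 * ee n k) : ℚ) : ℂ) * x ^ k := by
      have e2 : PP n x = ∑ k ∈ range p, x ^ k * (c n k : ℂ) := by
        rw [ext_c (by omega)]
        exact sum_congr rfl fun k _ => by ring
      have e3 : A = ∑ k ∈ range p, (((H (n + k) - H n : ℚ) : ℂ) * x ^ k) * (c n k : ℂ) := by
        rw [ext_c (by omega), hA]
        refine sum_congr rfl fun k _ => ?_
        push_cast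
        ring
      rw [e2, e3, hTd, mul_sum, mul_sum, ← sum_sub_distrib, ← sum_add_distrib]
      refine sum_congr rfl fun k _ => ?_
      unfold ee
      push_cast
      ring
    rw [e1]
    unfold fS
    refine EJ.sum fun k hk => (EJ_of_EQ (a_third h3 hn (mem_range.1 hk))).mul (EJ.refl (pow_mem hx k))
  have e : fS p x - (VV p n (1 / 6) x * (1 + p * (1 / 3) * (Lt p x - 2 * (H n : ℂ) * x ^ p)) +
      (1 - 4 * x ^ p) * (1 / 2) * (VV p n (1 / 6) x - VV p n (1 / 2) x)) =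
      (fS p x - (PP n x - p * (2 / 3) * A + p * (1 / 3) * T)) +
      (1 / 3) * (p * (T - (Lt p x * PP n x + x ^ p * (2 * B - 2 * (H n : ℂ) * PP n x)))) -
      (1 + p * (1 / 3) * (Lt p x - 2 * (H n : ℂ) * x ^ p) + (1 - 4 * x ^ p) * (1 / 2)) *
        (VV p n (1 / 6) x - (PP n x - p * (2 / 3) * A + p * ((1 / 6 : ℚ) : ℂ) * B)) +
      (1 - 4 * x ^ p) * (1 / 2) * (VV p n (1 / 2) x - (PP n x - p * (2 / 3) * A + p * ((1 / 2 : ℚ) : ℂ) * B)) +
      (p : ℂ) ^ 2 * ((1 / 3) * (Lt p x - 2 * (H n : ℂ) * x ^ p) * (2 * (1 / 3) * A - (1 / 2) * (1 / 3) * B)) := by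
    push_cast
    ring
  rw [e]
  have m1 : (1 - 4 * x ^ p) * (1 / 2) ∈ OO p :=
    mul_mem (sub_mem (one_mem _) (mul_mem (n_mem 4) (pow_mem hx p))) m2
  have mLH : Lt p x - 2 * (H n : ℂ) * x ^ p ∈ OO p :=
    sub_mem mL (mul_mem (mul_mem (n_mem 2) mH) (pow_mem hx p))
  refine (((hf.2.2.add ((J_p_mul hT).mulL m3)).sub (h4.2.2.mulL ?_)).add (h5.2.2.mulL m1)).add
    ⟨_, ?_, rfl⟩
  · exact add_mem (add_mem (one_mem _) (mul_mem (mul_mem pc_mem m3) mLH)) m1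
  · exact mul_mem (mul_mem m3 mLH) (sub_mem (mul_mem (mul_mem (n_mem 2) m3) mA)
      (mul_mem (mul_mem m2 m3) mB))

/-- `V - V'` is divisible by `p` -/
theorem V_sub {n : ℕ} (h2 : p ≠ 2) (h3 : p ≠ 3) (hn : 2 * n < p) {x : ℂ} (hx : x ∈ OO p) :
    J p 1 (VV p n (1 / 6) x - PP n x) ∧ J p 1 (VV p n (1 / 2) x - PP n x) := by
  have m6 := sixth_mem (p := p) h2 h3
  have m23 : (2 / 3 : ℂ) ∈ OO p := by
    have := q_mem (mul_mem (nat_mem (p := p) 2) (third_mem h3))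
    push_cast at this
    norm_num at this ⊢
    exact this
  have key : ∀ e : ℚ, e ∈ Zp p → J p 1 (VV p n e x - PP n x) := by
    intro e he
    have h4 := VV_eq (n := n) h3 hn he hx
    obtain ⟨A, hA⟩ : ∃ A : ℂ, A = ∑ k ∈ range (n + 1), ((c n k * (H (n + k) - H n) : ℚ) : ℂ) * x ^ k :=
      ⟨_, rfl⟩
    obtain ⟨B, hB⟩ : ∃ B : ℂ, B = ∑ k ∈ range (n + 1), ((c n k * H k : ℚ) : ℂ) * x ^ k := ⟨_, rfl⟩
    rw [← hA, ← hB] at h4
    have mA : A ∈ OO p := by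
      rw [hA]
      refine sum_mem fun k hk => mul_mem (q_mem (mul_mem (c_mem n k) (sub_mem ?_ ?_))) (pow_mem hx k)
      · exact H_mem (by have := mem_range.1 hk; omega)
      · exact H_mem (by omega)
    have mB : B ∈ OO p := by
      rw [hB]
      refine sum_mem fun k hk => mul_mem (q_mem (mul_mem (c_mem n k) ?_)) (pow_mem hx k)
      exact H_mem (by have := mem_range.1 hk; omega)
    have e1 : VV p n e x - PP n x = (VV p n e x - (PP n x - p * (2 / 3) * A + p * (e : ℂ) * B)) +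
        p * ((e : ℂ) * B - 2 / 3 * A) := by ring
    rw [e1]
    exact (h4.2.2.mono (by norm_num)).add ((J_p (p := p)).mulR
      (sub_mem (mul_mem (q_mem he) mB) (mul_mem m23 mA)))
  exact ⟨key _ m6, key _ (half_mem h2)⟩

end Pool.Agent.L7h22.D8
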