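import Mathlib
import Pool.Agent.Helper857.W3
import Pool.Agent.L7h22.D8.Mid

/-!
# The mirror relation and the CM data
-/

set_option autoImplicit false

namespace Pool.Agent.L7h22.D8

open Finset Pool.Agent.R439.PL Pool.Agent.L7h22.C42 Pool.Agent.K1H59.SC
open Pool.Agent.R488.Cub (H)

variable {p : ℕ} [hp : Fact p.Prime]

theorem VV_aeval (p n : ℕ) (e : ℚ) (x : ℂ) : VV p n e x =
    Polynomial.aeval x (D8.hp (-n) (n + 1 - p * (2 / 3)) (1 - p * e) n) := by
  rw [aeval_hp]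
  rfl

theorem VV_std {p n : ℕ} (hn : p = 3 * n + 1 ∨ p = 3 * n + 2) (x : ℂ) : VV p n (1 / 6) x =
    Polynomial.aeval x (D8.hp ((1 - p) / 3) ((2 - p) / 3) (1 - p / 6) n) := by
  rw [aeval_hp]
  unfold VV
  refine sum_congr rfl fun k _ => ?_
  congr 2
  have e3 : 1 - (p : ℚ) * (1 / 6) = 1 - p / 6 := by ring
  rw [e3]
  rcases hn with h | h
  · have e1 : (1 - (p : ℚ)) / 3 = -n := by rw [h]; push_cast; ring
    have e2 : (2 - (p : ℚ)) / 3 = n + 1 - p * (2 / 3) := by rw [h]; push_cast; ring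
    rw [e1, e2]
  · have e1 : (2 - (p : ℚ)) / 3 = -n := by rw [h]; push_cast; ring
    have e2 : (1 - (p : ℚ)) / 3 = n + 1 - p * (2 / 3) := by rw [h]; push_cast; ring
    rw [e1, e2, hg_swap]

/-- the mirror constant -/
def kap (p n : ℕ) : ℚ := ∏ i ∈ range n, ((-(n : ℚ) + p * (1 / 6) + i) / (1 - p * (1 / 2) + i))

theorem half_ne {p : ℕ} (h : p % 2 = 1) (k : ℕ) : 1 - (p : ℚ) * (1 / 2) + k ≠ 0 := by
  intro h0
  have h1 : (p : ℚ) = ((2 * (k + 1) : ℕ) : ℚ) := by push_cast; linarith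
  have h2 : p = 2 * (k + 1) := by exact_mod_cast h1
  omega

theorem kap_eq {p : ℕ} (hodd : p % 2 = 1) (n : ℕ) :
    (D8.hp (-n) (n + 1 - p * (2 / 3)) (1 - p * (1 / 2)) n).eval 1 = kap p n := by
  have h := Pool.Agent.Helper857.W.cv n (n + 1 - p * (2 / 3)) (1 - p * (1 / 2)) (half_ne hodd)
  rw [eval_hp]
  unfold kap
  rw [prod_div_distrib]
  have e1 : ∏ i ∈ range n, (-(n : ℚ) + p * (1 / 6) + i) =
      ∏ i ∈ range n, (1 - (p : ℚ) * (1 / 2) - (n + 1 - p * (2 / 3)) + i) :=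
    prod_congr rfl fun i _ => by ring
  rw [e1, ← h]
  refine sum_congr rfl fun k _ => ?_
  rw [one_pow, mul_one]
  have key : ∀ k : ℕ, hg (-n) (n + 1 - p * (2 / 3)) (1 - p * (1 / 2)) k =
      (-1) ^ k * (n.choose k : ℚ) * ((∏ i ∈ range k, ((n : ℚ) + 1 - p * (2 / 3) + i)) /
        ∏ i ∈ range k, (1 - (p : ℚ) * (1 / 2) + i)) := by
    intro k
    induction k with
    | zero => simp [hg_zero]
    | succ k ih =>
      rw [hg_succ, ih, prod_range_succ, prod_range_succ]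
      have h3 : ((k : ℚ) + 1) ≠ 0 := by positivity
      have h4 := half_ne hodd k
      have h5 : ∏ i ∈ range k, (1 - (p : ℚ) * (1 / 2) + i) ≠ 0 :=
        prod_ne_zero_iff.2 fun i _ => half_ne hodd i
      have h6 : (n.choose (k + 1) : ℚ) = (n.choose k : ℚ) * (((n : ℚ) - k) / (k + 1)) := by
        rw [mul_div_assoc', eq_div_iff h3]
        rcases Nat.lt_or_ge n k with h7 | h7
        · rw [Nat.choose_eq_zero_of_lt (by omega), Nat.choose_eq_zero_of_lt h7]; simp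
        · have h8 := Nat.choose_succ_right_eq n k
          have h9 : ((n.choose (k + 1) * (k + 1) : ℕ) : ℚ) = ((n.choose k * (n - k) : ℕ) : ℚ) := by
            rw [h8]
          rw [Nat.cast_mul, Nat.cast_mul, Nat.cast_sub h7] at h9
          push_cast at h9
          exact h9
      rw [h6, pow_succ]
      field_simp
      ring
  exact key k

theorem kap_P2 (h2 : p ≠ 2) (h3 : p ≠ 3) {n : ℕ} (hn : n < p) :
    P2 p (kap p n) ((-1) ^ n) (1 / 3 * H n) := by
  have h := R_P2 (p := p) hn (sixth_mem h2 h3) (half_mem h2) n le_rfl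
  rw [Nat.choose_self, Nat.sub_self, H_zero, Nat.cast_one, mul_one] at h
  have e : -(1 / 6 * (H n - 0)) + 1 / 2 * H n = 1 / 3 * H n := by ring
  rw [e] at h
  exact h

/-- mirror -/
theorem VV_mirror {p : ℕ} (hodd : p % 2 = 1) (n : ℕ) (x : ℂ) :
    VV p n (1 / 2) x = (kap p n : ℂ) * VV p n (1 / 6) (1 - x) := by
  have hc : ∀ k : ℕ, 1 - (p : ℚ) * (1 / 6) + k ≠ 0 := by
    intro k
    have := one_sub_ne hodd k
    have e : 1 - (p : ℚ) * (1 / 6) + k = 1 - p / 6 + k := by ring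
    rwa [e]
  have e1 : (-(n : ℚ) + (n + 1 - p * (2 / 3)) + 1 - (1 - p * (1 / 6))) = 1 - p * (1 / 2) := by ring
  have h := mirror (a := -n) (b := n + 1 - p * (2 / 3)) (c := 1 - p * (1 / 6)) hc
    (by intro k; rw [e1]; exact half_ne hodd k) (N := n) (by ring)
  rw [e1, kap_eq hodd] at h
  have h2 := congrArg (Polynomial.aeval (1 - x)) h
  rw [map_mul, Polynomial.aeval_C, Polynomial.aeval_comp] at h2
  simp only [map_sub, map_one, Polynomial.aeval_X, sub_sub_cancel] at h2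
  rw [VV_aeval, VV_aeval, h2]
  rfl

theorem VV_conj (p n : ℕ) (e : ℚ) (x : ℂ) :
    VV p n e ((starRingEnd ℂ) x) = (starRingEnd ℂ) (VV p n e x) := by
  unfold VV
  rw [map_sum]
  refine sum_congr rfl fun k _ => ?_
  rw [map_mul, map_pow, map_ratCast]

theorem x0_pow {h : ℕ} (hh : p = 2 * h + 1) : 8 ^ h * x0 ^ p = x0 * ((1 - 2 * s) ^ h) ^ 3 := by
  rw [hh, pow_succ, pow_mul, x0_e, div_pow, ← pow_mul, ← pow_mul, mul_comm 3 h]
  have : (8 : ℂ) ^ h ≠ 0 := pow_ne_zero _ (by norm_num)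
  field_simp

end Pool.Agent.L7h22.D8
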