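import Mathlib
import Pool.Agent.L7h22.D8.Fin1

/-!
# The ordinary case modulo `p^2`
-/

set_option autoImplicit false

namespace Pool.Agent.L7h22.D8

open Finset Pool.Agent.R439.PL Pool.Agent.L7h22.C42 Pool.Agent.K1H59.SC
open Pool.Agent.R488.Cub (H)

variable {p : ℕ} [hp : Fact p.Prime]

theorem V.cancelR {x y : ℂ} {k : ℕ} (hx : V p x) (h : J p k (y * x)) : J p k y := by
  rw [mul_comm] at h; exact hx.cancel h

/-- first half: `6 · 8^h S` in terms of rational quantities -/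
theorem S_ord1 {n h : ℕ} (h2 : p ≠ 2) (h3 : p ≠ 3) (hn : p = 3 * n + 1 ∨ p = 3 * n + 2)
    (hh : p = 2 * h + 1) {r : ℕ} (hr : p = 8 * r + 1 ∨ p = 8 * r + 3) {θ : ℂ} {κ : ℕ} {g : ℚ}
    (hθm : θ ∈ OO p) (hg : U p g) (hκ : U p (κ : ℚ)) (hV : VV p n (1 / 6) x0 = θ * (g : ℂ))
    (hθ2 : θ ^ 2 = κ * zz ^ h) (hN : θ * (starRingEnd ℂ) θ = κ * 3 ^ h) :
    I p 2 (6 * 8 ^ h * Ssum p - κ * g ^ 2 * (10 * 8 ^ h * ((-1) ^ n * 3 ^ h) -
      4 * ((-1) ^ n * 3 ^ h) ^ 4 - 2 * p * H n * ((-1) ^ n * 3 ^ h) * 8 ^ h)) := by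
  have hx := x0_mem (p := p) h2
  have hodd : p % 2 = 1 := by omega
  have m2 := half_memC (p := p) h2
  have m3 := third_memC (p := p) h3
  have mHq : H n ∈ Zp p := H_mem (by omega)
  have mH : (H n : ℂ) ∈ OO p := q_mem mHq
  -- names
  obtain ⟨θb, hθb⟩ : ∃ t : ℂ, t = (starRingEnd ℂ) θ := ⟨_, rfl⟩
  have hθbm : θb ∈ OO p := by rw [hθb]; exact conj_mem hθm
  rw [← hθb] at hN
  obtain ⟨w, hw⟩ : ∃ t : ℂ, t = zz ^ h := ⟨_, rfl⟩
  obtain ⟨wb, hwb⟩ : ∃ t : ℂ, t = (1 - 2 * s) ^ h := ⟨_, rfl⟩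
  have hcw : (starRingEnd ℂ) w = wb := by rw [hw, hwb, map_pow, conj_zz]
  have hcwb : (starRingEnd ℂ) wb = w := by rw [← hcw, Complex.conj_conj]
  have mz : zz ∈ OO p := add_mem (one_mem _) (mul_mem (n_mem 2) s_mem)
  have mw : w ∈ OO p := by rw [hw]; exact pow_mem mz h
  have mwb : wb ∈ OO p := by rw [← hcw]; exact conj_mem mw
  have hww : w * wb = 9 ^ h := by
    rw [hw, hwb, ← mul_pow]
    congr 1
    unfold zz
    linear_combination (-4 : ℂ) * s_sq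
  rw [← hw] at hθ2
  -- rational numbers
  obtain ⟨ρ, hρ⟩ : ∃ t : ℚ, t = (-1) ^ n * 3 ^ h := ⟨_, rfl⟩
  have ρP := rho_P2 h3 hh hn
  rw [← hρ] at ρP
  have uσ : U p ((-1 : ℚ) ^ h) := by
    have : U p ((-1 : ℤ) : ℚ) := Uint (by norm_num) (by have := hp.out.pos; omega)
      (by have := hp.out.one_lt; omega)
    push_cast at this
    exact this.pow h
  have uρ : U p ρ := ρP.unit uσ
  have vρ : V p (ρ : ℂ) := V_of_U uρ
  have mρ := vρ.2.1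
  have tP := two_h_P2 hr hh
  have hT8 : P2 p (8 ^ h) ((-1) ^ h) (3 * -(1 / 4 * H h)) := by
    have := tP.pow 3
    rw [← pow_mul, mul_comm h 3, pow_mul, ← pow_mul (-1 : ℚ), mul_comm h 3, pow_mul (-1 : ℚ)] at this
    norm_num at this ⊢
    exact this
  have u8 : U p ((8 : ℚ) ^ h) := hT8.unit uσ
  have v8 : V p ((8 : ℂ) ^ h) := by have := V_of_U u8; push_cast at this; exact this
  have ρ2 : ρ ^ 2 = 9 ^ h := by
    rw [hρ, mul_pow, ← pow_mul, ← pow_mul, mul_comm n 2, mul_comm h 2, pow_mul, pow_mul]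
    norm_num
  have ρ2c : (ρ : ℂ) ^ 2 = 9 ^ h := by exact_mod_cast ρ2
  have mκ : (κ : ℂ) ∈ OO p := n_mem κ
  have vκ : V p (κ : ℂ) := by have := V_of_U hκ; push_cast at this; exact this
  have vg : V p (g : ℂ) := V_of_U hg
  have mg := vg.2.1
  -- the mirror constant
  have kP := kap_P2 (p := p) h2 h3 (n := n) (by omega)
  obtain ⟨k, hk⟩ : ∃ t : ℚ, t = kap p n := ⟨_, rfl⟩
  have hmir := VV_mirror hodd n x0
  rw [← hk] at kP hmir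
  have mk : (k : ℂ) ∈ OO p := q_mem kP.1
  have hVb : VV p n (1 / 6) (1 - x0) = θb * (g : ℂ) := by
    rw [← conj_x0, VV_conj, hV, map_mul, hθb, map_ratCast]
  rw [hVb] at hmir
  -- `D = θ - κ' θb`
  obtain ⟨D, hD⟩ : ∃ t : ℂ, t = θ - k * θb := ⟨_, rfl⟩
  have hgD : VV p n (1 / 6) x0 - VV p n (1 / 2) x0 = D * g := by rw [hV, hmir, hD]; ring
  have JD : J p 1 D := by
    obtain ⟨a1, a2⟩ := V_sub (n := n) h2 h3 (by omega) hx
    apply V.cancelR vg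
    rw [← hgD]
    have e : VV p n (1 / 6) x0 - VV p n (1 / 2) x0 = (VV p n (1 / 6) x0 - PP n x0) -
      (VV p n (1 / 2) x0 - PP n x0) := by ring
    rw [e]; exact a1.sub a2
  -- `κ' 3^h = ρ (1 + p H/3)`
  have hk3 : J p 2 ((k : ℂ) * 3 ^ h - ρ * (1 + p * (1 / 3 * (H n : ℂ)))) := by
    have m3h : (3 : ℚ) ^ h ∈ Zp p := by
      have := pow_mem (nat_mem (p := p) 3) h
      exact_mod_cast this
    have := (kP.mul (P2.const m3h)).eq2.2.2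
    rw [← hρ] at this
    have := J_of_I this
    push_cast at this
    rw [add_zero] at this
    exact this
  have Jw : J p 1 (w - ρ) := by
    have e1 : (κ : ℂ) * (w - ρ) = D * θ + κ * ((k : ℂ) * 3 ^ h - ρ * (1 + p * (1 / 3 * (H n : ℂ)))) +
        p * (κ * ρ * (1 / 3 * H n)) := by
      rw [hD]; linear_combination -hθ2 + (k : ℂ) * hN
    apply vκ.cancel
    rw [e1]
    refine ((JD.mulR hθm).add ((hk3.mono (by norm_num)).mulL mκ)).add ((J_p (p := p)).mulR ?_)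
    exact mul_mem (mul_mem mκ mρ) (mul_mem m3 mH)
  have Jwb : J p 1 (wb - ρ) := by
    have := Jw.conj
    rwa [map_sub, hcw, map_ratCast] at this
  obtain ⟨D1, hD1⟩ : ∃ t : ℂ, t = w - ρ := ⟨_, rfl⟩
  obtain ⟨δ, hδ⟩ : ∃ t : ℂ, t = w + wb - 2 * ρ := ⟨_, rfl⟩
  rw [← hD1] at Jw
  have mD1 := Jw.mem
  have Jδ : J p 2 δ := by
    have e1 : (ρ : ℂ) * δ = -((w - ρ) * (wb - ρ)) := by
      rw [hδ]; linear_combination hww - ρ2c
    apply vρ.cancel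
    rw [e1, ← hD1]
    exact (Jw.mul Jwb).neg
  have mδ := Jδ.mem
  have ew : w = ρ + D1 := by rw [hD1]; ring
  have ewb : wb = ρ - D1 + δ := by rw [hD1, hδ]; ring
  have JD2 : J p 2 (D1 * D1) := Jw.mul Jw
  -- powers of x0
  have hxp := x0_pow (p := p) hh
  rw [← hwb] at hxp
  have hxp' : (8 : ℂ) ^ h * (1 - x0) ^ p = (1 - x0) * w ^ 3 := by
    have := congrArg (starRingEnd ℂ) hxp
    simp only [map_mul, map_pow, conj_x0, hcwb] at this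
    rw [map_ofNat] at this
    exact this
  have hρ8 : J p 1 ((ρ : ℂ) ^ 3 - 8 ^ h) := by
    have a1 := (ρP.pow 3).eq1
    have a2 := hT8.eq1
    have e1 : (((-1 : ℚ)) ^ h) ^ 3 = (-1) ^ h := by
      rw [← pow_mul, mul_comm, pow_mul]; norm_num
    rw [e1] at a1
    have := J_of_I (a1.trans a2.symm).2.2
    push_cast at this
    exact this
  have Jx : J p 1 (x0 ^ p - x0) := by
    apply v8.cancel
    have e1 : (8 : ℂ) ^ h * (x0 ^ p - x0) = x0 * ((wb - ρ) * (wb ^ 2 + wb * ρ + ρ ^ 2)) +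
        x0 * ((ρ : ℂ) ^ 3 - 8 ^ h) := by linear_combination hxp
    rw [e1]
    exact ((Jwb.mulR (add_mem (add_mem (pow_mem mwb 2) (mul_mem mwb mρ)) (pow_mem mρ 2))).mulL hx).add
      (hρ8.mulL hx)
  -- `p Lt = ℓ`
  obtain ⟨L, hL⟩ : ∃ t : ℂ, t = Lt p x0 := ⟨_, rfl⟩
  have mL : L ∈ OO p := by rw [hL]; exact Lt_mem hx
  obtain ⟨ℓ, hℓ⟩ : ∃ t : ℂ, t = 1 - x0 ^ p - (1 - x0) ^ p := ⟨_, rfl⟩
  have JL := pLt h2 hx
  rw [← hL, ← hℓ] at JL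
  have hcℓ : (starRingEnd ℂ) ℓ = ℓ := by
    rw [hℓ]
    simp only [map_sub, map_pow, map_one, conj_x0]
    ring
  have Jℓ : J p 1 ℓ := by
    have e1 : ℓ = (ℓ - p * L) + p * L := by ring
    rw [e1]; exact (JL.mono (by norm_num)).add ((J_p (p := p)).mulR mL)
  -- the series
  obtain ⟨Y, hY⟩ : ∃ t : ℂ, t = 1 / 3 * (L - 2 * H n * x0) := ⟨_, rfl⟩
  have mY : Y ∈ OO p := by
    rw [hY]; exact mul_mem m3 (sub_mem mL (mul_mem (mul_mem (n_mem 2) mH) hx))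
  obtain ⟨cc, hcc⟩ : ∃ t : ℂ, t = (1 + 5 * s) * (1 / 2) := ⟨_, rfl⟩
  have mcc : cc ∈ OO p := by
    rw [hcc]; exact mul_mem (add_mem (one_mem _) (mul_mem (n_mem 5) s_mem)) m2
  have hf := f_main h2 h3 hn hx
  rw [hV, ← hV, hgD, hV, ← hL] at hf
  have hF : EJ p 2 (fS p x0) (g * (θ * (1 + p * Y) - cc * D)) := by
    have mF : (g : ℂ) * (θ * (1 + p * Y) - cc * D) ∈ OO p :=
      mul_mem mg (sub_mem (mul_mem hθm (add_mem (one_mem _) (mul_mem pc_mem mY))) (mul_mem mcc JD.mem))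
    have hJ : J p 2 (fS p x0 - g * (θ * (1 + p * Y) - cc * D)) := by
      have e1 : fS p x0 - g * (θ * (1 + p * Y) - cc * D) =
          (fS p x0 - (θ * g * (1 + p * (1 / 3) * (L - 2 * (H n : ℂ) * x0 ^ p)) +
            (1 - 4 * x0 ^ p) * (1 / 2) * (D * g))) -
          (p * (x0 ^ p - x0)) * (θ * g * (1 / 3) * (2 * H n)) -
          ((x0 ^ p - x0) * D) * (2 * g) := by
        have e2 : cc = -(1 - 4 * x0) * (1 / 2) := by rw [hcc]; unfold x0; ring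
        rw [hY, e2]; ring
      rw [e1]
      refine (hf.sub ((J_p_mul Jx).mulR ?_)).sub ((Jx.mul JD).mulR (mul_mem (n_mem 2) mg))
      exact mul_mem (mul_mem (mul_mem hθm mg) m3) (mul_mem (n_mem 2) mH)
    refine ⟨?_, mF, hJ⟩
    have e3 : fS p x0 = (fS p x0 - g * (θ * (1 + p * Y) - cc * D)) +
      g * (θ * (1 + p * Y) - cc * D) := by ring
    rw [e3]; exact add_mem hJ.mem mF
  have hS := (S_sq h2 h3 hn).trans (hF.pow 2)
  -- the rational number `G = κ g²`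
  obtain ⟨G, hG⟩ : ∃ t : ℚ, t = κ * g ^ 2 := ⟨_, rfl⟩
  have mGq : G ∈ Zp p := by rw [hG]; exact mul_mem (nat_mem κ) (pow_mem hg.2.1 2)
  have mG : (G : ℂ) ∈ OO p := q_mem mGq
  have hGc : (G : ℂ) = κ * (g : ℂ) ^ 2 := by rw [hG]; push_cast; ring
  obtain ⟨Q, hQ⟩ : ∃ t : ℂ, t = 1 / 3 * (H n : ℂ) := ⟨_, rfl⟩
  have mQ : Q ∈ OO p := by rw [hQ]; exact mul_mem m3 mH
  rw [← hQ] at hk3
  have hB : J p 2 (Ssum p - G * (-(5 * s) * (ρ + D1) + ρ * (2 * (1 / 3) * ℓ - 4 * p * Q * x0) +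
      (1 + 5 * s) * (ρ * (1 + p * Q)))) := by
    have e1 : (Ssum p : ℂ) - G * (-(5 * s) * (ρ + D1) + ρ * (2 * (1 / 3) * ℓ - 4 * p * Q * x0) +
        (1 + 5 * s) * (ρ * (1 + p * Q))) =
        ((Ssum p : ℂ) - (g * (θ * (1 + p * Y) - cc * D)) ^ 2) +
        ((p : ℂ) ^ 2 * ((g : ℂ) ^ 2 * (Y ^ 2 * θ ^ 2)) - (p * D) * ((g : ℂ) ^ 2 * (2 * cc * Y * θ)) +
          (D * D) * ((g : ℂ) ^ 2 * cc ^ 2)) +
        (p * D1) * (G * (2 * Y)) + G * ρ * (2 * (1 / 3)) * -(ℓ - p * L) +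
        G * (1 + 5 * s) * ((k : ℂ) * 3 ^ h - ρ * (1 + p * Q)) := by
      have e2 : (g : ℂ) ^ 2 * θ ^ 2 = G * (ρ + D1) := by rw [hθ2, hGc, ew]; ring
      have e3 : (g : ℂ) ^ 2 * (θ * D) = G * (ρ + D1) - G * (k * 3 ^ h) := by
        have e4 : θ * D = θ ^ 2 - k * (θ * θb) := by rw [hD]; ring
        rw [e4, hN, hθ2, hGc, ew]; ring
      have e5 : cc = (1 + 5 * s) * (1 / 2) := hcc
      have e6 : Y = 1 / 3 * L - 2 * Q * x0 := by rw [hY, hQ]; ring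
      have e7 : (g : ℂ) ^ 2 * (θ ^ 2 * (1 + 2 * p * Y) - 2 * cc * (θ * D)) =
          G * (ρ + D1) * (1 + 2 * p * Y) - 2 * cc * (G * (ρ + D1) - G * (k * 3 ^ h)) := by
        linear_combination (1 + 2 * p * Y) * e2 - 2 * cc * e3
      have e8 : ((Ssum p : ℂ) - (g * (θ * (1 + p * Y) - cc * D)) ^ 2) +
        ((p : ℂ) ^ 2 * ((g : ℂ) ^ 2 * (Y ^ 2 * θ ^ 2)) - (p * D) * ((g : ℂ) ^ 2 * (2 * cc * Y * θ)) +
          (D * D) * ((g : ℂ) ^ 2 * cc ^ 2)) =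
          (Ssum p : ℂ) - (g : ℂ) ^ 2 * (θ ^ 2 * (1 + 2 * p * Y) - 2 * cc * (θ * D)) := by ring
      rw [e8, e7, e5, e6]
      ring
    rw [e1]
    have mg2 : (g : ℂ) ^ 2 ∈ OO p := pow_mem mg 2
    refine (((hS.2.2.add (((?_ : J p 2 _).sub ?_).add ?_)).add ?_).add ?_).add ?_
    · exact ⟨_, mul_mem mg2 (mul_mem (pow_mem mY 2) (pow_mem hθm 2)), rfl⟩
    · exact (J_p_mul JD).mulR (mul_mem mg2 (mul_mem (mul_mem (mul_mem (n_mem 2) mcc) mY) hθm))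
    · exact (JD.mul JD).mulR (mul_mem mg2 (pow_mem mcc 2))
    · exact (J_p_mul Jw).mulR (mul_mem mG (mul_mem (n_mem 2) mY))
    · exact JL.neg.mulL (mul_mem (mul_mem mG mρ) (mul_mem (n_mem 2) m3))
    · exact hk3.mulL (mul_mem mG (add_mem (one_mem _) (mul_mem (n_mem 5) s_mem)))
  have hBc : J p 2 (Ssum p - G * (5 * s * (ρ - D1 + δ) + ρ * (2 * (1 / 3) * ℓ - 4 * p * Q * (1 - x0)) +
      (1 - 5 * s) * (ρ * (1 + p * Q)))) := by
    have h1 := hB.conj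
    have hcD : (starRingEnd ℂ) D1 = -D1 + δ := by
      rw [hD1, map_sub, hcw, map_ratCast, ewb, ew]; ring
    have hcQ : (starRingEnd ℂ) Q = Q := by
      rw [hQ, map_mul, map_div₀, map_one, map_ratCast]
      simp only [map_ofNat]
    simp only [map_sub, map_mul, map_add, map_neg, map_ratCast, map_natCast, map_one, map_ofNat,
      conj_s, conj_x0, hcD, hcℓ, hcQ, map_div₀] at h1
    have e : (Ssum p : ℂ) - G * (5 * s * (ρ - D1 + δ) + ρ * (2 * (1 / 3) * ℓ - 4 * p * Q * (1 - x0)) +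
      (1 - 5 * s) * (ρ * (1 + p * Q))) = (Ssum p : ℂ) - G * (-(5 * -s) * (ρ + (-D1 + δ)) +
      ρ * (2 * (1 / 3) * ℓ - 4 * p * Q * (1 - x0)) + (1 + 5 * -s) * (ρ * (1 + p * Q))) := by ring
    rw [e]
    exact h1
  -- step A
  have hA : J p 2 (8 ^ h * ℓ - (8 ^ h - ρ ^ 3 + 15 * (1 / 2) * s * ρ ^ 2 * D1)) := by
    have e1 : (8 : ℂ) ^ h * ℓ - (8 ^ h - ρ ^ 3 + 15 * (1 / 2) * s * ρ ^ 2 * D1) =
        (D1 * D1) * (-(3 * ρ) + 5 * (1 / 2) * s * D1) -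
        δ * (x0 * (3 * (ρ - D1) ^ 2 + 3 * (ρ - D1) * δ + δ ^ 2)) := by
      rw [hℓ]
      have e2 : (8 : ℂ) ^ h * (1 - x0 ^ p - (1 - x0) ^ p) = 8 ^ h - x0 * wb ^ 3 - (1 - x0) * w ^ 3 := by
        linear_combination -hxp - hxp'
      rw [e2, ew, ewb]
      unfold x0
      ring
    rw [e1]
    refine (JD2.mulR ?_).sub (Jδ.mulR ?_)
    · exact add_mem (neg_mem (mul_mem (n_mem 3) mρ)) (mul_mem (mul_mem (mul_mem (n_mem 5) m2) s_mem) mD1)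
    · exact mul_mem hx (add_mem (add_mem (mul_mem (n_mem 3) (pow_mem (sub_mem mρ mD1) 2))
        (mul_mem (mul_mem (n_mem 3) (sub_mem mρ mD1)) mδ)) (pow_mem mδ 2))
  -- conclusion
  apply I_of_J
  push_cast
  rw [← hGc, show ((-1 : ℂ)) ^ n * 3 ^ h = (ρ : ℂ) by rw [hρ]; push_cast; ring]
  have e1 : 6 * 8 ^ h * (Ssum p : ℂ) - G * (10 * 8 ^ h * ρ - 4 * ρ ^ 4 - 2 * p * H n * ρ * 8 ^ h) =
      3 * 8 ^ h * ((Ssum p : ℂ) - G * (-(5 * s) * (ρ + D1) + ρ * (2 * (1 / 3) * ℓ - 4 * p * Q * x0) +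
      (1 + 5 * s) * (ρ * (1 + p * Q)))) +
      3 * 8 ^ h * ((Ssum p : ℂ) - G * (5 * s * (ρ - D1 + δ) + ρ * (2 * (1 / 3) * ℓ - 4 * p * Q * (1 - x0)) +
      (1 - 5 * s) * (ρ * (1 + p * Q)))) +
      4 * G * ρ * (8 ^ h * ℓ - (8 ^ h - ρ ^ 3 + 15 * (1 / 2) * s * ρ ^ 2 * D1)) +
      (((ρ : ℂ) ^ 3 - 8 ^ h) * D1) * (30 * G * s) + δ * (3 * 8 ^ h * G * (5 * s)) := by
    rw [hQ]; ring
  rw [e1]
  have m8 : (8 : ℂ) ^ h ∈ OO p := v8.2.1
  refine ((((hB.mulL (mul_mem (n_mem 3) m8)).add (hBc.mulL (mul_mem (n_mem 3) m8))).add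
    (hA.mulL (mul_mem (mul_mem (n_mem 4) mG) mρ))).add ((hρ8.mul Jw).mulR ?_)).add (Jδ.mulR ?_)
  · exact mul_mem (mul_mem (n_mem 30) mG) s_mem
  · exact mul_mem (mul_mem (mul_mem (n_mem 3) m8) mG) (mul_mem (n_mem 5) s_mem)

end Pool.Agent.L7h22.D8
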