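import Mathlib
import Pool.Agent.K1H59.SC.K
import Pool.Agent.L7h22.D8.Fin2

/-!
# The theorem
-/

set_option autoImplicit false

namespace Pool.Agent.L7h22.D8

open Finset Pool.Agent.R439.PL Pool.Agent.L7h22.C42 Pool.Agent.K1H59.SC
open Pool.Agent.R488.Cub (H)

variable {p : ℕ} [hp : Fact p.Prime]

theorem Usig (h : ℕ) : U p ((-1 : ℚ) ^ h) := by
  have : U p ((-1 : ℤ) : ℚ) := Uint (by norm_num) (by have := hp.out.pos; omega)
    (by have := hp.out.one_lt; omega)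
  push_cast at this
  exact this.pow h

theorem S_ord2 {n h : ℕ} (h2 : p ≠ 2) (h3 : p ≠ 3) (hn : p = 3 * n + 1 ∨ p = 3 * n + 2)
    (hh : p = 2 * h + 1) {r : ℕ} (hr : p = 8 * r + 1 ∨ p = 8 * r + 3) {θ : ℂ} {κ : ℕ} {g : ℚ}
    (hθm : θ ∈ OO p) (hg : U p g) (hκ : U p (κ : ℚ)) (hV : VV p n (1 / 6) x0 = θ * (g : ℂ))
    (hθ2 : θ ^ 2 = κ * zz ^ h) (hN : θ * (starRingEnd ℂ) θ = κ * 3 ^ h) :
    P2 p (Ssum p) ((-1) ^ h * (κ * g ^ 2)) (-(1 / 2 * H h)) := by
  have main := S_ord1 h2 h3 hn hh hr hθm hg hκ hV hθ2 hN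
  have mHn : H n ∈ Zp p := H_mem (by omega)
  have mHh : H h ∈ Zp p := H_mem (by omega)
  have m2 := half_mem (p := p) h2
  have m3 := third_mem (p := p) h3
  have n2 : (2 : ℚ) ∈ Zp p := by exact_mod_cast nat_mem (p := p) 2
  have n3 : (3 : ℚ) ∈ Zp p := by exact_mod_cast nat_mem (p := p) 3
  have n4 : (4 : ℚ) ∈ Zp p := by exact_mod_cast nat_mem (p := p) 4
  have n6 : (6 : ℚ) ∈ Zp p := by exact_mod_cast nat_mem (p := p) 6
  have n10 : (10 : ℚ) ∈ Zp p := by exact_mod_cast nat_mem (p := p) 10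
  have m4 : (1 / 4 : ℚ) ∈ Zp p := by
    have := mul_mem m2 m2
    norm_num at this ⊢
    exact this
  obtain ⟨ρ, hρ⟩ : ∃ t : ℚ, t = (-1) ^ n * 3 ^ h := ⟨_, rfl⟩
  have ρP := rho_P2 h3 hh hn
  rw [← hρ] at ρP main
  have uσ := Usig (p := p) h
  have tP := two_h_P2 hr hh
  have hT8 : P2 p (8 ^ h) ((-1) ^ h) (3 * -(1 / 4 * H h)) := by
    have := tP.pow 3
    rw [← pow_mul, mul_comm h 3, pow_mul, ← pow_mul (-1 : ℚ), mul_comm h 3, pow_mul (-1 : ℚ)] at this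
    norm_num at this ⊢
    exact this
  obtain ⟨T, hT⟩ : ∃ t : ℚ, t = 8 ^ h := ⟨_, rfl⟩
  rw [← hT] at hT8 main
  have uT : U p T := hT8.unit uσ
  obtain ⟨G, hG⟩ : ∃ t : ℚ, t = κ * g ^ 2 := ⟨_, rfl⟩
  rw [← hG] at main
  have mG : G ∈ Zp p := by rw [hG]; exact mul_mem (nat_mem κ) (pow_mem hg.2.1 2)
  rw [← hG]
  obtain ⟨σ, hσ⟩ : ∃ t : ℚ, t = (-1) ^ h := ⟨_, rfl⟩
  have hσ2 : σ ^ 2 = 1 := by rw [hσ, ← pow_mul, mul_comm, pow_mul]; norm_num
  rw [← hσ] at hT8 ρP uσ ⊢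
  obtain ⟨a, ha⟩ : ∃ t : ℚ, t = 1 / 3 * H n := ⟨_, rfl⟩
  obtain ⟨b, hb⟩ : ∃ t : ℚ, t = 1 / 4 * H h := ⟨_, rfl⟩
  have ma : a ∈ Zp p := by rw [ha]; exact mul_mem m3 mHn
  have mb : b ∈ Zp p := by rw [hb]; exact mul_mem m4 mHh
  rw [← ha] at ρP
  rw [← hb] at hT8
  have eH : H n = 3 * a := by rw [ha]; ring
  have eh : H h = 4 * b := by rw [hb]; ring
  rw [eH] at main
  rw [eh]
  have E1 := ρP.eq2
  have E2 := hT8.eq2
  have mσ := uσ.2.1
  have mρ := E1.1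
  -- the rational expression
  have hX : I p 2 (10 * T * ρ - 4 * ρ ^ 4 - 2 * p * (3 * a) * ρ * T - 6 * T * (σ * (1 - 2 * (p * b)))) := by
    have f1 : EQ p 2 (10 * T * ρ - 4 * ρ ^ 4 - 2 * p * (3 * a) * ρ * T - 6 * T * (σ * (1 - 2 * (p * b))))
        (10 * (σ * (1 + p * (3 * -b))) * (σ * (1 + p * -a)) - 4 * (σ * (1 + p * -a)) ^ 4 -
          2 * p * (3 * a) * (σ * (1 + p * -a)) * (σ * (1 + p * (3 * -b))) -
          6 * (σ * (1 + p * (3 * -b))) * (σ * (1 - 2 * (p * b)))) := by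
      refine ((((EQ.refl n10).mul E2).mul E1).sub ((EQ.refl n4).mul (E1.pow 4))).sub
        (((EQ.refl (mul_mem (mul_mem n2 p_mem) (mul_mem n3 ma))).mul E1).mul E2) |>.sub
        (((EQ.refl n6).mul E2).mul (EQ.refl ?_))
      exact mul_mem mσ (sub_mem (one_mem _) (mul_mem n2 (mul_mem p_mem mb)))
    have f2 : 10 * (σ * (1 + p * (3 * -b))) * (σ * (1 + p * -a)) - 4 * (σ * (1 + p * -a)) ^ 4 -
          2 * p * (3 * a) * (σ * (1 + p * -a)) * (σ * (1 + p * (3 * -b))) -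
          6 * (σ * (1 + p * (3 * -b))) * (σ * (1 - 2 * (p * b))) =
        (p : ℚ) ^ 2 * (48 * a * b - 18 * a ^ 2 - 36 * b ^ 2 + p * (16 * a ^ 3 - 18 * a ^ 2 * b) -
          p ^ 2 * (4 * a ^ 4)) := by
      have hσ4 : σ ^ 4 = 1 := by
        have : σ ^ 4 = (σ ^ 2) ^ 2 := by ring
        rw [this, hσ2]; norm_num
      linear_combination (10 * (1 + p * (3 * -b)) * (1 + p * -a) -
          2 * p * (3 * a) * (1 + p * -a) * (1 + p * (3 * -b)) -
          6 * (1 + p * (3 * -b)) * (1 - 2 * (p * b))) * hσ2 - 4 * (1 + p * -a) ^ 4 * hσ4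
    rw [f2] at f1
    have m48 : (48 : ℚ) ∈ Zp p := by exact_mod_cast nat_mem (p := p) 48
    have m18 : (18 : ℚ) ∈ Zp p := by exact_mod_cast nat_mem (p := p) 18
    have m36 : (36 : ℚ) ∈ Zp p := by exact_mod_cast nat_mem (p := p) 36
    have m16 : (16 : ℚ) ∈ Zp p := by exact_mod_cast nat_mem (p := p) 16
    have f3 : I p 2 ((p : ℚ) ^ 2 * (48 * a * b - 18 * a ^ 2 - 36 * b ^ 2 + p * (16 * a ^ 3 - 18 * a ^ 2 * b) -
          p ^ 2 * (4 * a ^ 4))) := by
      refine ⟨_, ?_, rfl⟩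
      refine sub_mem (add_mem (sub_mem (sub_mem (mul_mem (mul_mem m48 ma) mb)
        (mul_mem m18 (pow_mem ma 2))) (mul_mem m36 (pow_mem mb 2))) (mul_mem p_mem
        (sub_mem (mul_mem m16 (pow_mem ma 3)) (mul_mem (mul_mem m18 (pow_mem ma 2)) mb))))
        (mul_mem (pow_mem p_mem 2) (mul_mem n4 (pow_mem ma 4)))
    have e := f1.2.2.add f3
    rwa [sub_add_cancel] at e
  have u6 : U p (6 : ℚ) := by
    have h5 := U2 (p := p) h2
    have h6 : U p (3 : ℚ) := by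
      refine ⟨by norm_num, n3, ?_⟩
      have := m3
      rwa [one_div] at this
    have := h5.mul h6
    norm_num at this
    exact this
  have hI : I p 2 (Ssum p - σ * G * (1 + p * -(1 / 2 * (4 * b)))) := by
    apply (u6.mul uT).cancel
    have e : 6 * T * (Ssum p - σ * G * (1 + p * -(1 / 2 * (4 * b)))) =
        (6 * T * Ssum p - G * (10 * T * ρ - 4 * ρ ^ 4 - 2 * p * (3 * a) * ρ * T)) +
        G * (10 * T * ρ - 4 * ρ ^ 4 - 2 * p * (3 * a) * ρ * T - 6 * T * (σ * (1 - 2 * (p * b)))) := by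
      ring
    rw [e]
    exact main.add (hX.mulL mG)
  have md : -(1 / 2 * (4 * b)) ∈ Zp p := neg_mem (mul_mem m2 (mul_mem n4 mb))
  refine ⟨?_, mul_mem mσ mG, md, hI⟩
  have e : Ssum p = (Ssum p - σ * G * (1 + p * -(1 / 2 * (4 * b)))) +
    σ * G * (1 + p * -(1 / 2 * (4 * b))) := by ring
  rw [e]
  exact add_mem hI.mem (mul_mem (mul_mem mσ mG) (add_mem (one_mem _) (mul_mem p_mem md)))

/-- unit value of the polynomial -/
theorem g_unit {r : ℕ} (hr : 2 * r < p) : U p ((-1) ^ r * ((2 * r).choose r : ℚ)) := by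
  refine (Usig r).mul ?_
  have h : ¬ (p : ℤ) ∣ (((2 * r).choose r : ℕ) : ℤ) := by
    intro h
    have h1 := Int.natCast_dvd_natCast.mp h
    have h2 : p ∣ (2 * r).factorial := by
      rw [← Nat.choose_mul_factorial_mul_factorial (show r ≤ 2 * r by omega)]
      exact Dvd.dvd.mul_right (Dvd.dvd.mul_right h1 _) _
    have h3 := hp.out.dvd_factorial.1 h2
    omega
  exact_mod_cast U_int h

/-- the closed form -/
theorem S_b {h : ℕ} (hp5 : 5 < p) (hh : p = 2 * h + 1) {r : ℕ} (hr : p = 8 * r + 1 ∨ p = 8 * r + 3) :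
    P2 p (Ssum p) (b r ^ 2) (1 / 4 * (H r - H (h - r))) := by
  have h2 : p ≠ 2 := by omega
  have h3 : p ≠ 3 := by omega
  obtain ⟨n, hn⟩ : ∃ n, p = 3 * n + 1 ∨ p = 3 * n + 2 := by
    refine ⟨p / 3, ?_⟩
    have : p % 3 ≠ 0 := by
      intro h0
      have := (Nat.prime_dvd_prime_iff_eq Nat.prime_three hp.out).1 (Nat.dvd_of_mod_eq_zero h0)
      omega
    omega
  have gP := g_even (p := p) h2 h3 (r := r) (by omega)
  have uC := g_unit (p := p) (r := r) (by omega)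
  have ug : U p (gv p (2 * r)) := gP.unit uC
  obtain ⟨C, hC⟩ : ∃ t : ℚ, t = ((2 * r).choose r : ℚ) := ⟨_, rfl⟩
  have hbC := b_choose r
  rw [← hC] at hbC gP
  have hsig : ∀ k : ℕ, ((-1 : ℚ)) ^ k * (-1) ^ k = 1 := fun k => by rw [← mul_pow]; norm_num
  -- the value of `S`
  have key : ∃ κ : ℕ, (κ : ℚ) * 16 ^ r = 2 ^ h ∧
      P2 p (Ssum p) ((-1) ^ h * (κ * (gv p (2 * r)) ^ 2)) (-(1 / 2 * H h)) := by
    rcases hr with hr1 | hr1
    · refine ⟨1, ?_, ?_⟩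
      · rw [show h = 4 * r by omega, pow_mul]; norm_num
      · obtain ⟨J, hJ⟩ : ∃ J, 2 * r = 3 * J ∨ 2 * r = 3 * J + 1 := ⟨2 * r / 3, by omega⟩
        have hv := V_a (p := p) (M := 2 * r) (J := J) (N := n) (by omega) hJ hn
        rw [← VV_std hn] at hv
        refine S_ord2 (θ := zz ^ (2 * r)) h2 h3 hn hh (Or.inl hr1) ?_ ug ?_ hv ?_ ?_
        · exact pow_mem (add_mem (one_mem _) (mul_mem (n_mem 2) s_mem)) _
        · exact_mod_cast U.one (p := p)
        · rw [← pow_mul, show 2 * r * 2 = h by omega]; push_cast; ring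
        · rw [map_pow, conj_zz, ← mul_pow, show h = 2 * (2 * r) by omega, pow_mul 3 2]
          push_cast
          rw [one_mul]
          congr 1
          unfold zz
          linear_combination (-4 : ℂ) * s_sq
    · refine ⟨2, ?_, ?_⟩
      · rw [show h = 4 * r + 1 by omega, pow_succ, pow_mul]; norm_num; ring
      · obtain ⟨M, hM⟩ : ∃ M, 2 * r = M + 1 := ⟨2 * r - 1, by omega⟩
        obtain ⟨J, hJ⟩ : ∃ J, M = 3 * J ∨ M = 3 * J + 1 := ⟨M / 3, by omega⟩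
        have hv := V_b (p := p) (M := M) (J := J) (N := n) (by omega) hJ hn
        rw [← VV_std hn] at hv
        rw [hM]
        rw [hM] at ug
        have hs2 : (2 - 5 * s) ^ 2 = 2 * zz ^ 3 := by
          unfold zz
          linear_combination ((1 : ℂ) - 16 * s) * s_sq
        refine S_ord2 (θ := -(2 - 5 * s) * zz ^ M) h2 h3 hn hh (Or.inr hr1) ?_ ug ?_ hv ?_ ?_
        · exact mul_mem (neg_mem (sub_mem (n_mem 2) (mul_mem (n_mem 5) s_mem)))
            (pow_mem (add_mem (one_mem _) (mul_mem (n_mem 2) s_mem)) _)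
        · exact_mod_cast U2 (p := p) h2
        · have e : zz ^ h = zz ^ 3 * (zz ^ M) ^ 2 := by
            rw [← pow_mul, ← pow_add]; congr 1; omega
          rw [e]
          push_cast
          linear_combination (zz ^ M) ^ 2 * hs2
        · have e : (3 : ℂ) ^ h = 27 * 9 ^ M := by
            rw [show (27 : ℂ) = 3 ^ 3 by norm_num, show (9 : ℂ) = 3 ^ 2 by norm_num, ← pow_mul,
              ← pow_add]
            congr 1; omega
          have e2 : zz * (1 - 2 * s) = 9 := by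
            unfold zz; linear_combination (-4 : ℂ) * s_sq
          have e3 : (zz * (1 - 2 * s)) ^ M = 9 ^ M := by rw [e2]
          rw [mul_pow] at e3
          rw [e, map_mul, map_neg, map_sub, map_mul, conj_s, map_pow, conj_zz]
          simp only [map_ofNat]
          push_cast
          linear_combination (2 - 5 * s) * (2 + 5 * s) * e3 - 25 * 9 ^ M * s_sq
  obtain ⟨κ, hκ16, hSP⟩ := key
  have mHr : H r ∈ Zp p := H_mem (by omega)
  have mκ : (κ : ℚ) ∈ Zp p := nat_mem κ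
  -- g²
  have g2 := gP.pow 2
  have q1 := (P2.const (p := p) (mul_mem (Usig h).2.1 mκ)).mul g2
  have q1' : P2 p ((-1) ^ h * (κ * (gv p (2 * r)) ^ 2)) ((-1) ^ h * 2 ^ h * b r ^ 2)
      (0 + ((2 : ℕ) : ℚ) * (-(1 / 12 * H (2 * r)) + 1 / 4 * H r)) := by
    have e1 : (-1) ^ h * (κ : ℚ) * gv p (2 * r) ^ 2 = (-1) ^ h * (κ * (gv p (2 * r)) ^ 2) := by ring
    have e2 : (-1) ^ h * (κ : ℚ) * ((-1) ^ r * C) ^ 2 = (-1) ^ h * 2 ^ h * b r ^ 2 := by
      have e3 : (16 : ℚ) ^ r = 4 ^ r * 4 ^ r := by rw [← mul_pow]; norm_num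
      rw [← hκ16, ← hbC, e3]
      linear_combination ((-1) ^ h * (κ : ℚ) * (b r * 4 ^ r) ^ 2) * hsig r
    rw [e1, e2] at q1
    exact q1
  have q2 := hSP.trans q1'
  have t1 := (P2.const (p := p) (Usig h).2.1).mul (two_h_P2 hr hh)
  rw [hsig h] at t1
  have mb : b r ∈ Zp p := b_mem hh (by omega)
  have t2 := t1.mul (P2.const (p := p) (pow_mem mb 2))
  rw [one_mul] at t2
  have q3 := q2.trans t2
  -- harmonic numbers
  refine q3.congr ?_
  have d1 := dup (r := r) hh (by omega)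
  have d2 := H_quarter (m := 2 * r) hh (by omega)
  have m2 := half_mem (p := p) h2
  have m3 := third_mem (p := p) h3
  have m4 : (1 / 4 : ℚ) ∈ Zp p := by
    have := mul_mem m2 m2
    norm_num at this ⊢
    exact this
  have m12 : (1 / 12 : ℚ) ∈ Zp p := by
    have := mul_mem m4 m3
    norm_num at this ⊢
    exact this
  refine ⟨q3.2.2.1, mul_mem m4 (sub_mem mHr (H_mem (by omega))), ?_⟩
  have e : -(1 / 2 * H h) + (0 + ((2 : ℕ) : ℚ) * (-(1 / 12 * H (2 * r)) + 1 / 4 * H r)) +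
      (0 + -(1 / 4 * H h) + 0) - 1 / 4 * (H r - H (h - r)) =
      -((1 / 4 : ℚ) * (2 * H (2 * r) - (H r + H (h - r) - H h))) +
      (1 / 12 + 1 / 12) * (2 * H (2 * r) - 3 * H h) := by
    push_cast
    ring
  rw [e]
  exact ((d1.2.2.mulL m4).neg).add (d2.2.2.mulL (add_mem m12 m12))

end Pool.Agent.L7h22.D8
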