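import Mathlib
import Pool.Agent.L7h22.D8.Fin3

/-!
# Conclusion
-/

set_option autoImplicit false

namespace Pool.Agent.L7h22.D8

open Finset Pool.Agent.R439.PL Pool.Agent.L7h22.C42 Pool.Agent.K1H59.SC
open Pool.Agent.R488.Cub (H)

variable {p : ℕ} [hp : Fact p.Prime]

theorem P2.flip {x g d : ℚ} (h : P2 p x g d) : P2 p g x (-d) := by
  obtain ⟨hx, hg, hd, h⟩ := h
  refine ⟨hg, hx, neg_mem hd, ?_⟩
  have e : g - x * (1 + p * -d) = (p : ℚ) ^ 2 * (g * d ^ 2) - (1 - p * d) * (x - g * (1 + p * d)) := by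
    ring
  rw [e]
  refine (?_ : I p 2 _).sub (h.mulL (sub_mem (one_mem _) (mul_mem p_mem hd)))
  exact ⟨_, mul_mem hg (pow_mem hd 2), rfl⟩

/-- the square of the closed form -/
theorem S_UU {h r c j : ℕ} (hp5 : 5 < p) (hh : p = 2 * h + 1) (hr : p = 8 * r + 1 ∨ p = 8 * r + 3)
    (hc : (p = 8 * r + 1 ∧ c = 1 ∧ j = r) ∨ (p = 8 * r + 3 ∧ c = 3 ∧ j = h - r)) :
    EQ p 2 (Ssum p) (UU p h c j ^ 2) := by
  have h2 : p ≠ 2 := by omega
  have hS := S_b hp5 hh hr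
  have m8 := eighth_mem (p := p) h2
  have m2 := half_mem (p := p) h2
  have mHr : H r ∈ Zp p := H_mem (by omega)
  have mHq : H (h - r) ∈ Zp p := H_mem (by omega)
  have mHh : H h ∈ Zp p := H_mem (by omega)
  have mbr : b r ∈ Zp p := b_mem hh (by omega)
  have n3 : (3 : ℚ) ∈ Zp p := by exact_mod_cast nat_mem (p := p) 3
  rcases hc with ⟨h1, rfl, rfl⟩ | ⟨h1, rfl, rfl⟩
  · have q : P2 p (UU p h 1 j) (b j) (1 / 8 * (H j - H (h - j))) := by
      have e : UU p h 1 j - b j * (1 + p * (1 / 8 * (H j - H (h - j)))) = 0 := by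
        unfold UU; push_cast; ring
      have md : 1 / 8 * (H j - H (h - j)) ∈ Zp p := mul_mem m8 (sub_mem mHr mHq)
      refine ⟨?_, mbr, md, by rw [e]; exact I.zero⟩
      have e2 : UU p h 1 j = b j * (1 + p * (1 / 8 * (H j - H (h - j)))) := by linarith
      rw [e2]
      exact mul_mem mbr (add_mem (one_mem _) (mul_mem p_mem md))
    have q2 := (q.pow 2).eq2
    have q3 := hS.eq2
    have e : ((2 : ℕ) : ℚ) * (1 / 8 * (H j - H (h - j))) = 1 / 4 * (H j - H (h - j)) := by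
      push_cast; ring
    rw [e] at q2
    exact q3.trans q2.symm
  · obtain ⟨j, hj⟩ : ∃ j, j = h - r := ⟨_, rfl⟩
    rw [← hj] at hS mHq ⊢
    have hrj : r = h - j := by omega
    have mbj : b j ∈ Zp p := b_mem hh (by omega)
    have q : P2 p (UU p h 3 j) (b j) (3 * (1 / 8) * (H j - H r)) := by
      have e2 : UU p h 3 j = b j * (1 + p * (3 * (1 / 8) * (H j - H r))) := by
        unfold UU; rw [← hrj]; push_cast; ring
      have md : 3 * (1 / 8) * (H j - H r) ∈ Zp p := mul_mem (mul_mem n3 m8) (sub_mem mHq mHr)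
      refine ⟨?_, mbj, md, by rw [e2, sub_self]; exact I.zero⟩
      rw [e2]
      exact mul_mem mbj (add_mem (one_mem _) (mul_mem p_mem md))
    have c1 := choose_eq hh (j := j) (by omega)
    have c2 := choose_eq hh (j := r) (by omega)
    rw [← hrj] at c1
    rw [show h - r = j by omega] at c2
    have hch : (h.choose j : ℚ) = (h.choose r : ℚ) := by rw [hj, Nat.choose_symm (by omega)]
    rw [hch] at c1
    have p1 : P2 p ((-1) ^ j * (h.choose r : ℚ)) (b j) (1 / 2 * (H h - H r)) := by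
      apply P2.of_EQ mbj (mul_mem m2 (sub_mem mHh mHr))
      have e : b j * (1 + p * (1 / 2 * (H h - H r))) = b j * (1 + p / 2 * (H h - H r)) := by ring
      rw [e]; exact c1
    have p2 : P2 p ((-1) ^ r * (h.choose r : ℚ)) (b r) (1 / 2 * (H h - H j)) := by
      apply P2.of_EQ mbr (mul_mem m2 (sub_mem mHh mHq))
      have e : b r * (1 + p * (1 / 2 * (H h - H j))) = b r * (1 + p / 2 * (H h - H j)) := by ring
      rw [e]; exact c2
    have p1' := p1.pow 2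
    have p2' := p2.pow 2
    have hs : ∀ k : ℕ, (((-1 : ℚ)) ^ k * (h.choose r : ℚ)) ^ 2 = (h.choose r : ℚ) ^ 2 := by
      intro k
      rw [mul_pow, ← pow_mul, mul_comm k 2, pow_mul]; norm_num
    rw [hs] at p1' p2'
    have q4 := (q.pow 2).trans (p1'.flip.trans p2')
    have e : ((2 : ℕ) : ℚ) * (3 * (1 / 8) * (H j - H r)) + (-(((2 : ℕ) : ℚ) * (1 / 2 * (H h - H r))) +
        ((2 : ℕ) : ℚ) * (1 / 2 * (H h - H j))) = 1 / 4 * (H r - H j) := by
      push_cast; ring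
    rw [e] at q4
    exact hS.eq2.trans q4.eq2.symm

theorem S_final {x y : ℤ} (hp5 : 5 < p) (h : (p : ℤ) = x ^ 2 + 2 * y ^ 2) (hx : x % 4 = 1)
    {r : ℕ} (hr : p = 8 * r + 1 ∨ p = 8 * r + 3) : I p 2 (Ssum p - (4 * x ^ 2 - 2 * p)) := by
  have h2 : p ≠ 2 := by omega
  obtain ⟨q, hq⟩ : ∃ q, p = 2 * q + 1 := ⟨p / 2, by omega⟩
  have key : ∃ U : ℚ, EQ p 2 (Ssum p) (U ^ 2) ∧ I p 2 (U - (2 * x - p / (2 * x))) := by
    rcases hr with hr1 | hr1
    · have h1 := S_UU (h := q) (r := r) (c := 1) (j := r) hp5 hq (Or.inl hr1) (Or.inl ⟨hr1, rfl, rfl⟩)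
      refine ⟨_, h1, ?_⟩
      have h3 := S_closed (p := p) (n := q) (c := 1) (j := r) hq (by omega) (by omega)
      have h4 := case1 (p := p) hr1 hp5 h hx
      have e : UU p q 1 r - (2 * x - p / (2 * x)) = (Sp p - (2 * x - p / (2 * x))) - (Sp p - UU p q 1 r) := by
        ring
      rw [e]
      exact h4.sub h3.2.2
    · have h1 := S_UU (h := q) (r := r) (c := 3) (j := q - r) hp5 hq (Or.inr hr1) (Or.inr ⟨hr1, rfl, rfl⟩)
      refine ⟨_, h1, ?_⟩
      have h3 := S_closed (p := p) (n := q) (c := 3) (j := q - r) hq (by omega) (by omega)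
      have h4 := case3 (p := p) hr1 hp5 h hx
      have e : UU p q 3 (q - r) - (2 * x - p / (2 * x)) =
          (Sp p - (2 * x - p / (2 * x))) - (Sp p - UU p q 3 (q - r)) := by ring
      rw [e]
      exact h4.sub h3.2.2
  obtain ⟨V, h1, h3⟩ := key
  have hpx := x_unit h hx hp5
  have u2x : U p (2 * (x : ℚ)) := (U2 h2).mul (U_int hpx)
  obtain ⟨W, hW⟩ : ∃ W : ℚ, W = 2 * x - p / (2 * x) := ⟨_, rfl⟩
  rw [← hW] at h3
  have mW : W ∈ Zp p := by
    rw [hW, div_eq_mul_inv]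
    exact sub_mem u2x.2.1 (mul_mem p_mem u2x.2.2)
  have mV : V ∈ Zp p := by
    have e : V = (V - W) + W := by ring
    rw [e]; exact add_mem h3.mem mW
  have hW2 : W ^ 2 - (4 * x ^ 2 - 2 * p) = (p : ℚ) ^ 2 * (2 * (x : ℚ))⁻¹ ^ 2 := by
    rw [hW]
    have hx0 : (x : ℚ) ≠ 0 := fun h0 => u2x.1 (by rw [h0, mul_zero])
    field_simp
    ring
  have e : Ssum p - (4 * x ^ 2 - 2 * p) = (Ssum p - V ^ 2) + (V - W) * (V + W) +
      (W ^ 2 - (4 * x ^ 2 - 2 * p)) := by ring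
  rw [e]
  exact (h1.2.2.add (h3.mulR (add_mem mV mW))).add ⟨_, pow_mem u2x.2.2 2, hW2⟩

/-- the supersingular case -/
theorem S_ss (h3 : p ≠ 3) {r : ℕ} (hr : p = 8 * r + 5 ∨ p = 8 * r + 7) : I p 2 (Ssum p) := by
  have h2 : p ≠ 2 := by omega
  obtain ⟨n, hn⟩ : ∃ n, p = 3 * n + 1 ∨ p = 3 * n + 2 := by
    refine ⟨p / 3, ?_⟩
    have : p % 3 ≠ 0 := by
      intro h0
      have := (Nat.prime_dvd_prime_iff_eq Nat.prime_three hp.out).1 (Nat.dvd_of_mod_eq_zero h0)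
      omega
    omega
  apply S_super h2 h3 hn
  have hx := x0_mem (p := p) h2
  have mz : zz ∈ OO p := add_mem (one_mem _) (mul_mem (n_mem 2) s_mem)
  have hV : J p 1 (VV p n (1 / 6) x0) := by
    rw [VV_std hn]
    rcases hr with hr1 | hr1
    · obtain ⟨J', hJ⟩ : ∃ J, 2 * r + 1 = 3 * J ∨ 2 * r + 1 = 3 * J + 1 ∨ 2 * r + 1 = 3 * J + 2 :=
        ⟨(2 * r + 1) / 3, by omega⟩
      have hJ' : 2 * r + 1 = 3 * J' ∨ 2 * r + 1 = 3 * J' + 1 := by
        rcases hJ with h | h | h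
        · exact Or.inl h
        · exact Or.inr h
        · exfalso; omega
      rw [V_a (p := p) (M := 2 * r + 1) (J := J') (N := n) (by omega) hJ' hn]
      exact (J_of_I (g_odd (p := p) h2 h3 (r := r) (by omega))).mulL (pow_mem mz _)
    · obtain ⟨J', hJ'⟩ : ∃ J, 2 * r = 3 * J ∨ 2 * r = 3 * J + 1 := ⟨2 * r / 3, by omega⟩
      rw [V_b (p := p) (M := 2 * r) (J := J') (N := n) (by omega) hJ' hn]
      exact (J_of_I (g_odd (p := p) h2 h3 (r := r) (by omega))).mulL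
        (mul_mem (neg_mem (sub_mem (n_mem 2) (mul_mem (n_mem 5) s_mem))) (pow_mem mz _))
  have h5 := (V_sub (n := n) h2 h3 (by omega) hx).1
  have e : PP n x0 = VV p n (1 / 6) x0 - (VV p n (1 / 6) x0 - PP n x0) := by ring
  rw [e]
  exact hV.sub h5

theorem S_three [Fact (Nat.Prime 3)] {x : ℚ} (hx : x ^ 2 = 1) : I 3 2 (Ssum 3 - (4 * x ^ 2 - 2 * (3 : ℕ))) := by
  have e : Ssum 3 - (4 * x ^ 2 - 2 * (3 : ℕ)) = ((3 : ℕ) : ℚ) ^ 2 * (((23 : ℤ) : ℚ) / ((16 : ℤ) : ℚ)) := by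
    rw [hx]
    unfold Ssum
    norm_num [Finset.sum_range_succ, Nat.choose]
  rw [e]
  refine ⟨_, ⟨23, 16, by norm_num, rfl⟩, rfl⟩

end Pool.Agent.L7h22.D8
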